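import Mathlib

set_option autoImplicit false

namespace Pool.Agent.H97R3.Ord

open Equiv

/-- the commutator `f g f⁻¹ g⁻¹` -/
def com {G : Type} [Group G] (f g : G) : G := f * g * f⁻¹ * g⁻¹

section
variable {X : Type} [LinearOrder X]

/-- two permutations, both preserving `E`, whose supports are disjoint inside `E`, commute on `E` -/
theorem commutator_trivial (f g : Perm X) (E : Set X) (hf : ∀ x, x ∈ E ↔ f x ∈ E)
    (hg : ∀ x, x ∈ E ↔ g x ∈ E) (hd : ∀ x ∈ E, f x = x ∨ g x = x) :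
    ∀ x ∈ E, com f g x = x := by
  have key : ∀ y ∈ E, f (g y) = g (f y) := by
    intro y hy
    by_cases h1 : g y = y
    · rw [h1]
      by_cases h2 : f y = y
      · rw [h2, h1]
      · have h3 : f (f y) ≠ f y := fun h => h2 (f.injective h)
        rcases hd (f y) ((hf y).mp hy) with h | h
        · exact absurd h h3
        · exact h.symm
    · have h2 : g (g y) ≠ g y := fun h => h1 (g.injective h)
      have h3 : f (g y) = g y := by
        rcases hd (g y) ((hg y).mp hy) with h | h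
        · exact h
        · exact absurd h h2
      have h4 : f y = y := by
        rcases hd y hy with h | h
        · exact h
        · exact absurd h h1
      rw [h3, h4]
  intro x hx
  have hx1 : g⁻¹ x ∈ E := by rw [hg]; simpa using hx
  have hx2 : f⁻¹ (g⁻¹ x) ∈ E := by rw [hf]; simpa using hx1
  have := key _ hx2
  unfold com
  simp only [Perm.mul_apply]
  rw [this]
  simp

variable (S1 S2 S3 S4 : Set X) (t1 t2 t3 c a b : Perm X)

theorem main_order
    (mt1 : StrictMono t1) (mt2 : StrictMono t2) (mt3 : StrictMono t3) (mc : StrictMono c)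
    (ma : StrictMono a) (mb : StrictMono b)
    (h12 : ∀ x, x ∈ S1 ↔ t1 x ∈ S2) (h23 : ∀ x, x ∈ S2 ↔ t2 x ∈ S3)
    (h34 : ∀ x, x ∈ S3 ↔ t3 x ∈ S4)
    (f13 : ∀ x ∈ S3, t1 x = x) (f14 : ∀ x ∈ S4, t1 x = x)
    (f21 : ∀ x ∈ S1, t2 x = x) (f24 : ∀ x ∈ S4, t2 x = x)
    (f31 : ∀ x ∈ S1, t3 x = x) (f32 : ∀ x ∈ S2, t3 x = x)
    (c1 : ∀ x ∈ S1, c x = x) (c4 : ∀ x ∈ S4, c x = x)
    (a1 : ∀ x ∈ S1, a x = x) (a3 : ∀ x ∈ S3, a x = x) (a4 : ∀ x ∈ S4, a x = x)
    (b1 : ∀ x ∈ S1, b x = x) (b4 : ∀ x ∈ S4, b x = x)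
    (ha : ∀ x, x ∈ S2 ↔ a x ≠ x) (hb : ∀ x, x ∈ S3 ↔ b x ≠ x) :
    ∀ x, com (com (c * a * c⁻¹) b) (com (c * b * c⁻¹) a) x = x := by
  -- disjointness
  have d12 : ∀ x ∈ S1, x ∉ S2 := fun x h1 h2 => (ha x).mp h2 (a1 x h1)
  have d23 : ∀ x ∈ S2, x ∉ S3 := fun x h2 h3 => (ha x).mp h2 (a3 x h3)
  -- moving facts for p in S2
  have P1 : ∀ p ∈ S2, t1.symm p ∈ S1 := by
    intro p hp; rw [h12]; simpa using hp
  have P3 : ∀ p ∈ S2, t2 p ∈ S3 := fun p hp => (h23 p).mp hp
  have P4 : ∀ p ∈ S2, t3 (t2 p) ∈ S4 := fun p hp => (h34 _).mp (P3 p hp)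
  have l1 : ∀ x y, t1 x < t1 y ↔ x < y := fun x y => mt1.lt_iff_lt
  have l2 : ∀ x y, t2 x < t2 y ↔ x < y := fun x y => mt2.lt_iff_lt
  have l3 : ∀ x y, t3 x < t3 y ↔ x < y := fun x y => mt3.lt_iff_lt
  have e1 : ∀ p, t1 (t1.symm p) = p := fun p => t1.apply_symm_apply p
  -- order equivalences along the chain
  have chain : ∀ p ∈ S2,
      (t1.symm p < p ↔ t1.symm p < t2 p) ∧ (t1.symm p < t2 p ↔ t1.symm p < t3 (t2 p)) ∧
      (p < t2 p ↔ t1.symm p < t2 p) ∧ (p < t3 (t2 p) ↔ t1.symm p < t3 (t2 p)) ∧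
      (t2 p < t3 (t2 p) ↔ p < t3 (t2 p)) := by
    intro p hp
    have hp1 := P1 p hp
    have hp3 := P3 p hp
    have hp4 := P4 p hp
    refine ⟨?_, ?_, ?_, ?_, ?_⟩
    · have := l2 (t1.symm p) p
      rw [f21 _ hp1] at this
      exact this.symm
    · have := l3 (t1.symm p) (t2 p)
      rw [f31 _ hp1] at this
      exact this.symm
    · have := l1 (t1.symm p) (t2 p)
      rw [e1, f13 _ hp3] at this
      exact this
    · have := l1 (t1.symm p) (t3 (t2 p))
      rw [e1, f14 _ hp4] at this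
      exact this
    · have := l2 p (t3 (t2 p))
      rw [f24 _ hp4] at this
      exact this
  have chain' : ∀ p ∈ S2,
      (p < t1.symm p ↔ t2 p < t1.symm p) ∧ (t2 p < t1.symm p ↔ t3 (t2 p) < t1.symm p) ∧
      (t2 p < p ↔ t2 p < t1.symm p) ∧ (t3 (t2 p) < p ↔ t3 (t2 p) < t1.symm p) ∧
      (t3 (t2 p) < t2 p ↔ t3 (t2 p) < p) := by
    intro p hp
    have hp1 := P1 p hp
    have hp3 := P3 p hp
    have hp4 := P4 p hp
    refine ⟨?_, ?_, ?_, ?_, ?_⟩
    · have := l2 p (t1.symm p)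
      rw [f21 _ hp1] at this
      exact this.symm
    · have := l3 (t2 p) (t1.symm p)
      rw [f31 _ hp1] at this
      exact this.symm
    · have := l1 (t2 p) (t1.symm p)
      rw [e1, f13 _ hp3] at this
      exact this
    · have := l1 (t3 (t2 p)) (t1.symm p)
      rw [e1, f14 _ hp4] at this
      exact this
    · have := l2 (t3 (t2 p)) p
      rw [f24 _ hp4] at this
      exact this
  have ne12 : ∀ p ∈ S2, t1.symm p ≠ p := by
    intro p hp h
    have := P1 p hp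
    rw [h] at this
    exact d12 p this hp
  have sign : ∀ p ∈ S2,
      (t1.symm p < p ∧ t1.symm p < t2 p ∧ p < t2 p ∧ t1.symm p < t3 (t2 p) ∧ p < t3 (t2 p) ∧
        t2 p < t3 (t2 p)) ∨
      (p < t1.symm p ∧ t2 p < t1.symm p ∧ t2 p < p ∧ t3 (t2 p) < t1.symm p ∧ t3 (t2 p) < p ∧
        t3 (t2 p) < t2 p) := by
    intro p hp
    have h := chain p hp
    have h' := chain' p hp
    rcases lt_or_gt_of_ne (ne12 p hp) with h0 | h0
    · left
      have g13 := h.1.mp h0
      have g14 := h.2.1.mp g13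
      have g23 := h.2.2.1.mpr g13
      have g24 := h.2.2.2.1.mpr g14
      have g34 := h.2.2.2.2.mpr g24
      exact ⟨h0, g13, g23, g14, g24, g34⟩
    · right
      have g13 := h'.1.mp h0
      have g14 := h'.2.1.mp g13
      have g23 := h'.2.2.1.mpr g13
      have g24 := h'.2.2.2.1.mpr g14
      have g34 := h'.2.2.2.2.mpr g24
      exact ⟨h0, g13, g23, g14, g24, g34⟩
  -- side equivalences
  have side4 : ∀ p ∈ S2, ∀ z ∈ S4,
      ((z < t1.symm p ↔ z < p) ∧ (z < t2 p ↔ z < p)) ∧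
      ((t1.symm p < z ↔ p < z) ∧ (t2 p < z ↔ p < z)) := by
    intro p hp z hz
    refine ⟨⟨?_, ?_⟩, ?_, ?_⟩
    · have := l1 z (t1.symm p); rw [e1, f14 z hz] at this; exact this.symm
    · have := l2 z p; rw [f24 z hz] at this; exact this
    · have := l1 (t1.symm p) z; rw [e1, f14 z hz] at this; exact this.symm
    · have := l2 p z; rw [f24 z hz] at this; exact this
  have side1 : ∀ p ∈ S2, ∀ z ∈ S1,
      ((z < t2 p ↔ z < p) ∧ (z < t3 (t2 p) ↔ z < p)) ∧
      ((t2 p < z ↔ p < z) ∧ (t3 (t2 p) < z ↔ p < z)) := by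
    intro p hp z hz
    have h1 : (z < t2 p ↔ z < p) := by
      have := l2 z p; rw [f21 z hz] at this; exact this
    have h2 : (t2 p < z ↔ p < z) := by
      have := l2 p z; rw [f21 z hz] at this; exact this
    refine ⟨⟨h1, ?_⟩, h2, ?_⟩
    · have := l3 z (t2 p); rw [f31 z hz] at this; exact this.trans h1
    · have := l3 (t2 p) z; rw [f31 z hz] at this; exact this.trans h2
  -- separation claim
  have claim : ∀ p ∈ S2, ∀ q2 ∈ S2,
      (∀ z, z ∈ S1 ∨ z ∈ S4 → (z < p ↔ z < t2 q2) ∧ (p < z ↔ t2 q2 < z)) →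
      ((t1.symm p < p ∧ t1.symm q2 < q2 ∧ p < t2 q2) ∨
       (p < t1.symm p ∧ q2 < t1.symm q2 ∧ t2 q2 < p)) := by
    intro p hp q2 hq hz
    have hp1 := P1 p hp
    have hp4 := P4 p hp
    have hq1 := P1 q2 hq
    have hq4 := P4 q2 hq
    have hne : p ≠ t2 q2 := fun h => d23 p hp (by rw [h]; exact P3 q2 hq)
    have z1 := hz _ (Or.inl hp1)
    have z2 := hz _ (Or.inr hp4)
    have z3 := hz _ (Or.inl hq1)
    have z4 := hz _ (Or.inr hq4)
    have s1 := side4 p hp _ hq4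
    have s2 := side4 q2 hq _ hp4
    have s3 := side1 p hp _ hq1
    have s4 := side1 q2 hq _ hp1
    have s5 := side4 q2 hq _ hq4
    have s6 := side4 p hp _ hp4
    have m1 := l3 p (t2 q2)
    have m2 := l3 (t2 q2) p
    rw [f32 p hp] at m1 m2
    rcases sign p hp with hsp | hsp <;> rcases sign q2 hq with hsq | hsq
    · left
      refine ⟨hsp.1, hsq.1, ?_⟩
      rcases lt_or_gt_of_ne hne with h | h
      · exact h
      · exfalso
        have h1 : t3 (t2 q2) < p := m2.mpr h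
        have h2 : t2 q2 < t3 (t2 q2) := hsq.2.2.2.2.2
        have h3 : p < t3 (t2 q2) := z4.2.mpr h2
        exact lt_asymm h1 h3
    · exfalso
      -- p plus, q minus
      have h1 : t3 (t2 q2) < t2 q2 := hsq.2.2.2.2.2
      have h2 : t3 (t2 q2) < p := z4.1.mpr h1
      have h3 : t3 (t2 q2) < t1.symm p := s1.1.1.mpr h2
      have h4 : t1.symm p < t2 q2 := z1.1.mp hsp.1
      have h5 : t1.symm p < q2 := s4.1.1.mp h4
      have h6 : t1.symm p < t3 (t2 q2) := s4.1.2.mpr h5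
      exact lt_asymm h3 h6
    · exfalso
      have h1 : t2 q2 < t3 (t2 q2) := hsq.2.2.2.2.2
      have h2 : p < t3 (t2 q2) := z4.2.mpr h1
      have h3 : t1.symm p < t3 (t2 q2) := s1.2.1.mpr h2
      have h4 : t2 q2 < t1.symm p := z1.2.mp hsp.1
      have h5 : q2 < t1.symm p := s4.2.1.mp h4
      have h6 : t3 (t2 q2) < t1.symm p := s4.2.2.mpr h5
      exact lt_asymm h3 h6
    · right
      refine ⟨hsp.1, hsq.1, ?_⟩
      rcases lt_or_gt_of_ne hne with h | h
      · exfalso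
        have h1 : p < t3 (t2 q2) := m1.mpr h
        have h2 : t3 (t2 q2) < t2 q2 := hsq.2.2.2.2.2
        have h3 : t3 (t2 q2) < p := z4.1.mpr h2
        exact lt_asymm h1 h3
      · exact h
  -- blocks
  intro x
  let E : Set X := {y | ∀ z, z ∈ S1 ∨ z ∈ S4 → (z < x ↔ z < y) ∧ (x < z ↔ y < z)}
  have hxE : x ∈ E := fun z _ => ⟨Iff.rfl, Iff.rfl⟩
  have presE : ∀ f : Perm X, StrictMono f → (∀ z ∈ S1, f z = z) → (∀ z ∈ S4, f z = z) →
      ∀ y, y ∈ E ↔ f y ∈ E := by
    intro f hf f1 f4 y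
    have hz : ∀ z, z ∈ S1 ∨ z ∈ S4 → (z < y ↔ z < f y) ∧ (y < z ↔ f y < z) := by
      intro z hz
      have hfz : f z = z := by
        rcases hz with h | h
        · exact f1 z h
        · exact f4 z h
      have h1 : f z < f y ↔ z < y := hf.lt_iff_lt
      have h2 : f y < f z ↔ y < z := hf.lt_iff_lt
      rw [hfz] at h1 h2
      exact ⟨h1.symm, h2.symm⟩
    constructor
    · intro hy z hzz
      have h1 := hy z hzz
      have h2 := hz z hzz
      exact ⟨h1.1.trans h2.1, h1.2.trans h2.2⟩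
    · intro hy z hzz
      have h1 := hy z hzz
      have h2 := hz z hzz
      exact ⟨h1.1.trans h2.1.symm, h1.2.trans h2.2.symm⟩
  have Ea := presE a ma a1 a4
  have Eb := presE b mb b1 b4
  have Ec := presE c mc c1 c4
  have Ecs : ∀ y, y ∈ E ↔ c⁻¹ y ∈ E := by
    intro y
    rw [Ec (c⁻¹ y)]
    simp
  have Eca : ∀ y, y ∈ E ↔ (c * a * c⁻¹) y ∈ E := by
    intro y
    simp only [Perm.mul_apply]
    rw [← Ec, ← Ea, ← Ecs]
  have Ecb : ∀ y, y ∈ E ↔ (c * b * c⁻¹) y ∈ E := by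
    intro y
    simp only [Perm.mul_apply]
    rw [← Ec, ← Eb, ← Ecs]
  -- uniform order inside a block
  have blk : ∀ p ∈ S2, ∀ q ∈ S3, p ∈ E → q ∈ E →
      ((t1.symm p < p ∧ t1.symm (t2.symm q) < t2.symm q ∧ p < q) ∨
       (p < t1.symm p ∧ t2.symm q < t1.symm (t2.symm q) ∧ q < p)) := by
    intro p hp q hq hpE hqE
    have hq2 : t2.symm q ∈ S2 := by rw [h23]; simpa using hq
    have := claim p hp (t2.symm q) hq2 (by
      intro z hz
      have h1 := hpE z hz
      have h2 := hqE z hz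
      rw [Equiv.apply_symm_apply]
      exact ⟨h1.1.symm.trans h2.1, h1.2.symm.trans h2.2⟩)
    rw [Equiv.apply_symm_apply] at this
    exact this
  have uni : ∀ p ∈ S2, ∀ q ∈ S3, ∀ p' ∈ S2, ∀ q' ∈ S3, p ∈ E → q ∈ E → p' ∈ E → q' ∈ E →
      (p < q → p' < q') := by
    intro p hp q hq p' hp' q' hq' hpE hqE hpE' hqE' hlt
    have k1 := blk p hp q hq hpE hqE
    have k2 := blk p' hp' q hq hpE' hqE
    have k3 := blk p' hp' q' hq' hpE' hqE'
    rcases k1 with k1 | k1
    · rcases k2 with k2 | k2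
      · rcases k3 with k3 | k3
        · exact k3.2.2
        · exact absurd k2.1 (lt_asymm k3.1)
      · exact absurd k1.2.1 (lt_asymm k2.2.1)
    · exact absurd hlt (lt_asymm k1.2.2)
  -- the dichotomy
  have dich : (∀ p ∈ S2, p ∈ E → c p ∉ S3) ∨ (∀ q ∈ S3, q ∈ E → c q ∉ S2) := by
    by_contra hcon
    push Not at hcon
    obtain ⟨⟨p, hp, hpE, hcp⟩, q, hq, hqE, hcq⟩ := hcon
    have hcpE : c p ∈ E := (Ec p).mp hpE
    have hcqE : c q ∈ E := (Ec q).mp hqE
    have hne : p ≠ q := fun h => d23 p hp (h ▸ hq)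
    rcases lt_or_gt_of_ne hne with h | h
    · have h1 : c p < c q := mc h
      have h2 : c q < c p := uni p hp q hq (c q) hcq (c p) hcp hpE hqE hcqE hcpE h
      exact lt_asymm h1 h2
    · have h1 : c q < c p := mc h
      have h2 : p < q := uni (c q) hcq (c p) hcp p hp q hq hcqE hcpE hpE hqE h1
      exact lt_asymm h h2
  have conj_ne : ∀ (f : Perm X) (y : X), (c * f * c⁻¹) y ≠ y ↔ f (c⁻¹ y) ≠ c⁻¹ y := by
    intro f y
    simp only [Perm.mul_apply]
    rw [not_iff_not]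
    constructor
    · intro h
      have := congrArg (fun u => c⁻¹ u) h
      simpa using this
    · intro h
      rw [h]
      simp
  have ABfix : (∀ y ∈ E, com (c * a * c⁻¹) b y = y) ∨ (∀ y ∈ E, com (c * b * c⁻¹) a y = y) := by
    rcases dich with h | h
    · left
      apply commutator_trivial _ _ E Eca Eb
      intro y hy
      by_contra hcon
      push Not at hcon
      obtain ⟨h1, h2⟩ := hcon
      rw [conj_ne, ← ha] at h1
      rw [← hb] at h2
      refine h (c⁻¹ y) h1 ((Ecs y).mp hy) ?_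
      simpa using h2
    · right
      apply commutator_trivial _ _ E Ecb Ea
      intro y hy
      by_contra hcon
      push Not at hcon
      obtain ⟨h1, h2⟩ := hcon
      rw [conj_ne, ← hb] at h1
      rw [← ha] at h2
      refine h (c⁻¹ y) h1 ((Ecs y).mp hy) ?_
      simpa using h2
  have inv_pres : ∀ f : Perm X, (∀ y, y ∈ E ↔ f y ∈ E) → ∀ y, y ∈ E ↔ f⁻¹ y ∈ E := by
    intro f hf y
    rw [hf (f⁻¹ y)]
    simp
  have mul_pres : ∀ f g : Perm X, (∀ y, y ∈ E ↔ f y ∈ E) → (∀ y, y ∈ E ↔ g y ∈ E) →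
      ∀ y, y ∈ E ↔ (f * g) y ∈ E := by
    intro f g hf hg y
    rw [Perm.mul_apply, ← hf, ← hg]
  have com_pres : ∀ f g : Perm X, (∀ y, y ∈ E ↔ f y ∈ E) → (∀ y, y ∈ E ↔ g y ∈ E) →
      ∀ y, y ∈ E ↔ com f g y ∈ E := by
    intro f g hf hg
    unfold com
    exact mul_pres _ _ (mul_pres _ _ (mul_pres _ _ hf hg) (inv_pres _ hf)) (inv_pres _ hg)
  have EA := com_pres _ _ Eca Eb
  have EB := com_pres _ _ Ecb Ea
  apply commutator_trivial _ _ E EA EB _ x hxE
  intro y hy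
  rcases ABfix with h | h
  · exact Or.inl (h y hy)
  · exact Or.inr (h y hy)

end

end Pool.Agent.H97R3.Ord
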