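import Mathlib

set_option autoImplicit false

namespace Pool.Agent.H97R3.PLm

open Set Topology

/-- `f : [0,1] → [0,1]` is piecewise linear with finitely many breakpoints: there is a finite set `B`
such that `f` is affine on every closed interval `[x,y]` with no point of `B` strictly between `x`
and `y`. -/
def IsPL (f : unitInterval → unitInterval) : Prop :=
  ∃ B : Set unitInterval, B.Finite ∧ ∀ x y : unitInterval, x ≤ y →
    (∀ t ∈ B, ¬ (x < t ∧ t < y)) →
    ∃ m c : ℝ, ∀ z : unitInterval, x ≤ z → z ≤ y → (f z : ℝ) = m * z + c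

/-- `PL₊([0,1])`: the group, under composition, of orientation-preserving (strictly increasing)
homeomorphisms of `[0,1]` that are piecewise linear with finitely many breakpoints. -/
def PLplus : Subgroup (unitInterval ≃ₜ unitInterval) where
  carrier := {f | StrictMono f ∧ IsPL f}
  mul_mem' := by
    rintro f g ⟨hf, Bf, hBf, hf2⟩ ⟨hg, Bg, hBg, hg2⟩
    refine ⟨fun x y hxy => hf (hg hxy), Bg ∪ g ⁻¹' Bf,
      hBg.union (hBf.preimage g.injective.injOn), ?_⟩
    intro x y hxy hB
    obtain ⟨m, c, h1⟩ := hg2 x y hxy (fun t ht => hB t (Or.inl ht))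
    obtain ⟨m', c', h2⟩ := hf2 (g x) (g y) (hg.monotone hxy) (by
      intro t ht hlt
      refine hB (g.symm t) (Or.inr (by simpa using ht)) ⟨?_, ?_⟩
      · rw [← hg.lt_iff_lt]; simpa using hlt.1
      · rw [← hg.lt_iff_lt]; simpa using hlt.2)
    refine ⟨m' * m, m' * c + c', fun z hxz hzy => ?_⟩
    rw [Homeomorph.mul_apply, h2 (g z) (hg.monotone hxz) (hg.monotone hzy), h1 z hxz hzy]
    ring
  one_mem' := by
    refine ⟨fun x y h => h, ∅, Set.finite_empty, fun x y _ _ => ⟨1, 0, fun z _ _ => ?_⟩⟩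
    simp
  inv_mem' := by
    rintro f ⟨hf, B, hB, hf2⟩
    have hinv : ∀ x, f (f⁻¹ x) = x := fun x => f.apply_symm_apply x
    have hmono : StrictMono (f⁻¹ : unitInterval ≃ₜ unitInterval) := by
      intro x y hxy
      rw [← hf.lt_iff_lt, hinv, hinv]
      exact hxy
    refine ⟨hmono, f '' B, hB.image f, ?_⟩
    intro x y hxy hBxy
    obtain ⟨m, c, h1⟩ := hf2 (f⁻¹ x) (f⁻¹ y) (hmono.monotone hxy) (by
      intro t ht hlt
      refine hBxy (f t) ⟨t, ht, rfl⟩ ⟨?_, ?_⟩
      · have := hf hlt.1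
        rwa [hinv] at this
      · have := hf hlt.2
        rwa [hinv] at this)
    rcases hxy.eq_or_lt with heq | hlt
    · subst heq
      refine ⟨0, (f⁻¹ x : unitInterval), fun z hxz hzy => ?_⟩
      have : z = x := le_antisymm hzy hxz
      rw [this]
      ring
    · have hm : m ≠ 0 := by
        intro h0
        have e1 := h1 (f⁻¹ x) le_rfl (hmono.monotone hxy)
        have e2 := h1 (f⁻¹ y) (hmono.monotone hxy) le_rfl
        rw [hinv, h0] at e1 e2
        have : (x : ℝ) = y := by rw [e1, e2]; ring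
        exact hlt.ne (Subtype.ext this)
      refine ⟨1 / m, -c / m, fun z hxz hzy => ?_⟩
      have e1 := h1 (f⁻¹ z) (hmono.monotone hxz) (hmono.monotone hzy)
      rw [hinv] at e1
      field_simp
      linarith

/-- fixed point set -/
def Fx (f : unitInterval ≃ₜ unitInterval) : Set unitInterval := {x | f x = x}

theorem Fx_closed (f : unitInterval ≃ₜ unitInterval) : IsClosed (Fx f) :=
  isClosed_eq f.continuous continuous_id

theorem affine_two_fix {f : unitInterval → unitInterval} {x y x' y' : unitInterval} {m c : ℝ}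
    (h : ∀ z : unitInterval, x' ≤ z → z ≤ y' → (f z : ℝ) = m * z + c) (hxy : x < y)
    (hx' : x' ≤ x) (hy' : y ≤ y') (hx : f x = x) (hy : f y = y) :
    ∀ z, x' ≤ z → z ≤ y' → f z = z := by
  have e1 := h x hx' (hxy.le.trans hy')
  have e2 := h y (hx'.trans hxy.le) hy'
  rw [hx] at e1
  rw [hy] at e2
  have hlt : (x : ℝ) < y := hxy
  have hm : m = 1 := by
    have : (m - 1) * ((y : ℝ) - x) = 0 := by linarith
    rcases mul_eq_zero.mp this with h | h
    · linarith
    · linarith
  have hc : c = 0 := by rw [hm] at e1; linarith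
  intro z h1 h2
  apply Subtype.ext
  rw [h z h1 h2, hm, hc]
  ring

theorem two_fix {f : unitInterval ≃ₜ unitInterval} {B : Set unitInterval} (hB : B.Finite)
    (hf : ∀ x y : unitInterval, x ≤ y → (∀ t ∈ B, ¬ (x < t ∧ t < y)) →
      ∃ m c : ℝ, ∀ z : unitInterval, x ≤ z → z ≤ y → (f z : ℝ) = m * z + c)
    {x y : unitInterval} (hxy : x < y) (hx : f x = x) (hy : f y = y)
    (hno : ∀ t ∈ B, ¬ (x ≤ t ∧ t ≤ y)) : x ∈ interior (Fx f) := by
  rw [mem_interior]
  by_cases hx0 : x = ⊥
  · obtain ⟨m, c, h⟩ := hf x y hxy.le (fun t ht hlt => hno t ht ⟨hlt.1.le, hlt.2.le⟩)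
    have := affine_two_fix h hxy le_rfl le_rfl hx hy
    refine ⟨Iio y, ?_, isOpen_Iio, hxy⟩
    intro z hz
    exact this z (by rw [hx0]; exact bot_le) (le_of_lt hz)
  · have hbot : ⊥ < x := bot_lt_iff_ne_bot.mpr hx0
    have hxB : Bᶜ ∈ 𝓝 x := by
      apply hB.isClosed.isOpen_compl.mem_nhds
      intro hxB
      exact hno x hxB ⟨le_rfl, hxy.le⟩
    obtain ⟨l, hl, hlB⟩ := exists_Ioc_subset_of_mem_nhds hxB ⟨⊥, hbot⟩
    obtain ⟨m, c, h⟩ := hf l y (hl.le.trans hxy.le) (by
      intro t ht hlt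
      by_cases htx : t ≤ x
      · exact hlB ⟨hlt.1, htx⟩ ht
      · push Not at htx
        exact hno t ht ⟨htx.le, hlt.2.le⟩)
    have := affine_two_fix h hxy hl.le le_rfl hx hy
    refine ⟨Ioo l y, ?_, isOpen_Ioo, ⟨hl, hxy⟩⟩
    intro z hz
    exact this z hz.1.le hz.2.le

theorem frontier_finite {f : unitInterval ≃ₜ unitInterval} (hf : f ∈ PLplus) :
    (frontier (Fx f)).Finite := by
  obtain ⟨_, B, hB, h⟩ := hf
  have hkey : ∀ x ∈ frontier (Fx f), ∀ y ∈ frontier (Fx f), x < y → ∃ t ∈ B, x ≤ t ∧ t ≤ y := by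
    intro x hx y hy hxy
    by_contra hcon
    push Not at hcon
    have hx' : f x = x := (Fx_closed f).frontier_subset hx
    have hy' : f y = y := (Fx_closed f).frontier_subset hy
    have : x ∈ interior (Fx f) := two_fix hB h hxy hx' hy' (fun t ht hh => by
      have := hcon t ht hh.1
      exact absurd hh.2 (not_le.mpr this))
    rw [(Fx_closed f).frontier_eq] at hx
    exact hx.2 this
  let φ : unitInterval → ℕ := fun x => (B ∩ Iio x).ncard + (B ∩ Iic x).ncard
  have hlt : ∀ x ∈ frontier (Fx f), ∀ y ∈ frontier (Fx f), x < y → φ x < φ y := by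
    intro x hx y hy hxy
    obtain ⟨t, ht, h1, h2⟩ := hkey x hx y hy hxy
    have s1 : B ∩ Iio x ⊆ B ∩ Iio y := fun z hz => ⟨hz.1, lt_trans hz.2 hxy⟩
    have s2 : B ∩ Iic x ⊆ B ∩ Iic y := fun z hz => ⟨hz.1, le_trans hz.2 hxy.le⟩
    have c1 : (B ∩ Iio x).ncard ≤ (B ∩ Iio y).ncard :=
      Set.ncard_le_ncard s1 (hB.subset inter_subset_left)
    have c2 : (B ∩ Iic x).ncard ≤ (B ∩ Iic y).ncard :=
      Set.ncard_le_ncard s2 (hB.subset inter_subset_left)
    rcases h1.eq_or_lt with heq | hlt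
    · have : (B ∩ Iio x).ncard < (B ∩ Iio y).ncard := by
        apply Set.ncard_lt_ncard _ (hB.subset inter_subset_left)
        refine ⟨s1, fun hs => ?_⟩
        have := hs (show t ∈ B ∩ Iio y from ⟨ht, by rw [← heq]; exact hxy⟩)
        rw [← heq] at this
        exact lt_irrefl x this.2
      show (B ∩ Iio x).ncard + (B ∩ Iic x).ncard < (B ∩ Iio y).ncard + (B ∩ Iic y).ncard
      omega
    · have : (B ∩ Iic x).ncard < (B ∩ Iic y).ncard := by
        apply Set.ncard_lt_ncard _ (hB.subset inter_subset_left)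
        refine ⟨s2, fun hs => ?_⟩
        have := hs (show t ∈ B ∩ Iic y from ⟨ht, h2⟩)
        exact absurd this.2 (not_le.mpr hlt)
      show (B ∩ Iio x).ncard + (B ∩ Iic x).ncard < (B ∩ Iio y).ncard + (B ∩ Iic y).ncard
      omega
  apply Set.Finite.of_injOn (f := φ) (t := Set.Iic (2 * B.ncard))
  · intro x _
    have c1 : (B ∩ Iio x).ncard ≤ B.ncard := Set.ncard_le_ncard inter_subset_left hB
    have c2 : (B ∩ Iic x).ncard ≤ B.ncard := Set.ncard_le_ncard inter_subset_left hB
    show (B ∩ Iio x).ncard + (B ∩ Iic x).ncard ≤ 2 * B.ncard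
    omega
  · intro x hx y hy hxy
    rcases lt_trichotomy x y with h | h | h
    · exact absurd hxy (hlt x hx y hy h).ne
    · exact h
    · exact absurd hxy.symm (hlt y hy x hx h).ne
  · exact Set.finite_Iic _

theorem fix_of_finite {X : Type} [LinearOrder X] {F : Set X} (hF : F.Finite) {v : X → X}
    (hv : StrictMono v) (hm : ∀ x ∈ F, v x ∈ F) : ∀ x ∈ F, v x = x := by
  intro x hx
  have hit : ∀ n : ℕ, v^[n] x ∈ F := by
    intro n
    induction n with
    | zero => exact hx
    | succ n ih =>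
      rw [Function.iterate_succ_apply']
      exact hm _ ih
  rcases lt_trichotomy (v x) x with h | h | h
  · exfalso
    have := hv.strictAnti_iterate_of_map_lt h
    exact Set.infinite_of_injective_forall_mem this.injective hit hF
  · exact h
  · exfalso
    have := hv.strictMono_iterate_of_lt_map h
    exact Set.infinite_of_injective_forall_mem this.injective hit hF

/-- If `u, v` commute, then `v` fixes every frontier point of the fixed point set of `u`. -/
theorem fix_frontier {u v : unitInterval ≃ₜ unitInterval} (hu : u ∈ PLplus) (hv : v ∈ PLplus)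
    (huv : u * v = v * u) : ∀ x ∈ frontier (Fx u), v x = x := by
  apply fix_of_finite (frontier_finite hu) hv.1
  intro x hx
  have h1 : v ⁻¹' (Fx u) = Fx u := by
    ext y
    have h2 : u (v y) = v (u y) := by
      have := congrArg (fun f : unitInterval ≃ₜ unitInterval => f y) huv
      simpa [Homeomorph.mul_apply] using this
    show v y ∈ {x | u x = x} ↔ u y = y
    show u (v y) = v y ↔ u y = y
    rw [h2]
    exact v.injective.eq_iff
  have h3 : v ⁻¹' frontier (Fx u) = frontier (Fx u) := by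
    rw [Homeomorph.preimage_frontier, h1]
  have : x ∈ v ⁻¹' frontier (Fx u) := by rw [h3]; exact hx
  exact this

theorem dichotomy {s : Set unitInterval} (hs : IsClosed s) {α β : unitInterval}
    (h : ∀ x ∈ frontier s, x ∉ Ioo α β) : Ioo α β ⊆ s ∨ ∀ x ∈ Ioo α β, x ∉ s := by
  have hpre : IsPreconnected (Ioo α β) := isPreconnected_Ioo
  have := IsPreconnected.subset_or_subset (u := interior s) (v := sᶜ) (s := Ioo α β)
    isOpen_interior hs.isOpen_compl (by
      rw [Set.disjoint_compl_right_iff_subset]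
      exact interior_subset) (by
      intro x hx
      by_cases hxs : x ∈ s
      · left
        by_contra hni
        exact h x (by rw [hs.frontier_eq]; exact ⟨hxs, hni⟩) hx
      · right
        exact hxs) hpre
  rcases this with h1 | h1
  · left
    exact h1.trans interior_subset
  · right
    intro x hx
    exact h1 hx

theorem fix_bot {f : unitInterval ≃ₜ unitInterval} (hf : StrictMono f) : f ⊥ = ⊥ := by
  apply le_antisymm _ bot_le
  obtain ⟨y, hy⟩ := f.surjective ⊥
  exact (hf.monotone (bot_le : ⊥ ≤ y)).trans hy.le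

theorem fix_top {f : unitInterval ≃ₜ unitInterval} (hf : StrictMono f) : f ⊤ = ⊤ := by
  apply le_antisymm le_top
  obtain ⟨y, hy⟩ := f.surjective ⊤
  exact hy.ge.trans (hf.monotone (le_top : y ≤ ⊤))

theorem germ {f : unitInterval ≃ₜ unitInterval} (hf : f ∈ PLplus) {α : unitInterval}
    (hα : α < ⊤) (hfix : f α = α) :
    ∃ γ, α < γ ∧ ∃ m : ℝ, ∀ z : unitInterval, α ≤ z → z < γ → (f z : ℝ) = α + m * (z - α) := by
  obtain ⟨_, B, hB, h⟩ := hf
  have hnb : (B \ {α})ᶜ ∈ 𝓝 α := by
    apply (hB.subset Set.sdiff_subset).isClosed.isOpen_compl.mem_nhds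
    intro hh
    exact hh.2 rfl
  obtain ⟨γ, hγ, hγB⟩ := exists_Ico_subset_of_mem_nhds hnb ⟨⊤, hα⟩
  refine ⟨γ, hγ, ?_⟩
  obtain ⟨m, c, h1⟩ := h α γ hγ.le (by
    intro t ht hlt
    exact hγB ⟨hlt.1.le, hlt.2⟩ ⟨ht, fun hh => hlt.1.ne' hh⟩)
  refine ⟨m, fun z hz1 hz2 => ?_⟩
  have e1 := h1 α le_rfl hγ.le
  rw [hfix] at e1
  rw [h1 z hz1 hz2.le]
  linarith

theorem comm_fix_near {U V : unitInterval ≃ₜ unitInterval} (hU : U ∈ PLplus) (hV : V ∈ PLplus)
    {α β : unitInterval} (hαβ : α < β) (hUα : U α = α) (hVα : V α = α) :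
    ∃ z ∈ Ioo α β, (U * V * U⁻¹ * V⁻¹) z = z := by
  have hα : α < ⊤ := lt_of_lt_of_le hαβ le_top
  obtain ⟨γ, hγ, m, hm⟩ := germ hU hα hUα
  obtain ⟨γ', hγ', m', hm'⟩ := germ hV hα hVα
  have hopen : IsOpen {z : unitInterval | z < γ ∧ z < γ' ∧ V z < γ ∧ U z < γ' ∧ V (U z) < β} := by
    refine (isOpen_Iio (a := γ)).inter ((isOpen_Iio (a := γ')).inter
      ((isOpen_Iio.preimage V.continuous).inter ((isOpen_Iio.preimage U.continuous).inter
        (isOpen_Iio.preimage (V.continuous.comp U.continuous)))))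
  have hmem : α ∈ {z : unitInterval | z < γ ∧ z < γ' ∧ V z < γ ∧ U z < γ' ∧ V (U z) < β} := by
    refine ⟨hγ, hγ', ?_, ?_, ?_⟩
    · rw [hVα]; exact hγ
    · rw [hUα]; exact hγ'
    · rw [hUα, hVα]; exact hαβ
  obtain ⟨δ, hδ, hδs⟩ := exists_Ico_subset_of_mem_nhds (hopen.mem_nhds hmem) ⟨⊤, hα⟩
  obtain ⟨z, hz1, hz2⟩ := exists_between hδ
  obtain ⟨h1, h2, h3, h4, h5⟩ := hδs ⟨hz1.le, hz2⟩
  have hVz : α < V z := by
    have := hV.1 hz1
    rwa [hVα] at this
  have hUz : α < U z := by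
    have := hU.1 hz1
    rwa [hUα] at this
  have hVUz : α < V (U z) := by
    have := hV.1 hUz
    rwa [hVα] at this
  have hcomm : U (V z) = V (U z) := by
    apply Subtype.ext
    rw [hm (V z) hVz.le h3, hm' z hz1.le h2, hm' (U z) hUz.le h4, hm z hz1.le h1]
    ring
  refine ⟨V (U z), ⟨hVUz, h5⟩, ?_⟩
  simp only [Homeomorph.mul_apply]
  have e1 : V⁻¹ (V (U z)) = U z := V.symm_apply_apply _
  have e2 : U⁻¹ (U z) = z := U.symm_apply_apply _
  rw [e1, e2, hcomm]

theorem mem_comm {U V : unitInterval ≃ₜ unitInterval} (hU : U ∈ PLplus) (hV : V ∈ PLplus) :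
    U * V * U⁻¹ * V⁻¹ ∈ PLplus :=
  PLplus.mul_mem (PLplus.mul_mem (PLplus.mul_mem hU hV) (PLplus.inv_mem hU)) (PLplus.inv_mem hV)

/-- **Key lemma**: an element of `PL₊([0,1])` commuting with `U` and with `V` fixes every point moved
by the commutator of `U` and `V`. -/
theorem fix_supp {U V h : unitInterval ≃ₜ unitInterval} (hU : U ∈ PLplus) (hV : V ∈ PLplus)
    (hh : h ∈ PLplus) (hhU : h * U = U * h) (hhV : h * V = V * h) {x : unitInterval}
    (hx : (U * V * U⁻¹ * V⁻¹) x ≠ x) : h x = x := by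
  set C : Set unitInterval := Fx U ∩ Fx V with hC
  have hCc : IsClosed C := (Fx_closed U).inter (Fx_closed V)
  have hxC : x ∉ C := by
    intro hxC
    apply hx
    have h1 : U x = x := hxC.1
    have h2 : V x = x := hxC.2
    have h3 : U⁻¹ x = x := by
      have : U⁻¹ (U x) = x := U.symm_apply_apply x
      rwa [h1] at this
    have h4 : V⁻¹ x = x := by
      have : V⁻¹ (V x) = x := V.symm_apply_apply x
      rwa [h2] at this
    simp only [Homeomorph.mul_apply]
    rw [h4, h3, h2, h1]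
  have hbot : ⊥ ∈ C := ⟨fix_bot hU.1, fix_bot hV.1⟩
  have htop : ⊤ ∈ C := ⟨fix_top hU.1, fix_top hV.1⟩
  set α := sSup (C ∩ Iic x) with hα
  set β := sInf (C ∩ Ici x) with hβ
  have hαC : α ∈ C ∩ Iic x :=
    (hCc.inter isClosed_Iic).sSup_mem ⟨⊥, hbot, Set.mem_Iic.mpr bot_le⟩
  have hβC : β ∈ C ∩ Ici x :=
    (hCc.inter isClosed_Ici).sInf_mem ⟨⊤, htop, Set.mem_Ici.mpr le_top⟩
  have hαx : α < x := lt_of_le_of_ne hαC.2 (fun he => hxC (he ▸ hαC.1))
  have hxβ : x < β := lt_of_le_of_ne hβC.2 (fun he => hxC (by rw [he]; exact hβC.1))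
  have hno : ∀ y ∈ C, y ∉ Ioo α β := by
    intro y hy hyI
    rcases le_total y x with h1 | h1
    · have : y ≤ α := le_sSup ⟨hy, h1⟩
      exact absurd hyI.1 (not_lt.mpr this)
    · have : β ≤ y := sInf_le ⟨hy, h1⟩
      exact absurd hyI.2 (not_lt.mpr this)
  have hxI : x ∈ Ioo α β := ⟨hαx, hxβ⟩
  have d1 : ∀ y ∈ frontier (Fx h), y ∉ Ioo α β := by
    intro y hy
    exact hno y ⟨fix_frontier hh hU hhU y hy, fix_frontier hh hV hhV y hy⟩
  rcases dichotomy (Fx_closed h) d1 with h1 | h1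
  · exact h1 hxI
  · exfalso
    set k := U * V * U⁻¹ * V⁻¹ with hk
    have hkm : k ∈ PLplus := mem_comm hU hV
    have hkh : k * h = h * k := by
      have c1 : Commute h U := hhU
      have c2 : Commute h V := hhV
      have : Commute h k := ((c1.mul_right c2).mul_right c1.inv_right).mul_right c2.inv_right
      exact this.symm
    have d2 : ∀ y ∈ frontier (Fx k), y ∉ Ioo α β := by
      intro y hy hyI
      exact h1 y hyI (fix_frontier hkm hh hkh y hy)
    rcases dichotomy (Fx_closed k) d2 with h2 | h2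
    · exact hx (h2 hxI)
    · obtain ⟨z, hz, hkz⟩ := comm_fix_near hU hV (hαx.trans hxβ) hαC.1.1 hαC.1.2
      exact h2 z hz hkz

end Pool.Agent.H97R3.PLm
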