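import Mathlib
import Pool.Agent.H97R3.PLm
import Pool.Agent.H97R3.Ord

set_option autoImplicit false

namespace Pool.Agent.H97R3.Config

open Pool.Agent.H97R3.PLm Pool.Agent.H97R3.Ord Equiv

/-- four commuting copies `⟨U i, V i⟩` of a 2-generated group, moved to each other by `t`, and an
element `c` commuting with the two outer copies. -/
structure IsConfig {G : Type} [Group G] (U V : Fin 4 → G) (t : Fin 3 → G) (c : G) : Prop where
  comm : ∀ i j : Fin 4, i ≠ j → Commute (U i) (U j) ∧ Commute (U i) (V j) ∧ Commute (V i) (V j)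
  move : ∀ i : Fin 3, t i * U i.castSucc = U i.succ * t i ∧ t i * V i.castSucc = V i.succ * t i
  away : ∀ (i : Fin 3) (j : Fin 4), j ≠ i.castSucc → j ≠ i.succ →
    Commute (t i) (U j) ∧ Commute (t i) (V j)
  cU : Commute c (U 0) ∧ Commute c (V 0) ∧ Commute c (U 3) ∧ Commute c (V 3)

/-- the word `[[c a c⁻¹, b], [c b c⁻¹, a]]`, `a = [U 1, V 1]`, `b = [U 2, V 2]`. -/
def word {G : Type} [Group G] (U V : Fin 4 → G) (c : G) : G :=
  com (com (c * com (U 1) (V 1) * c⁻¹) (com (U 2) (V 2)))
    (com (c * com (U 2) (V 2) * c⁻¹) (com (U 1) (V 1)))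

theorem map_com {G H : Type} [Group G] [Group H] (φ : G →* H) (x y : G) :
    φ (com x y) = com (φ x) (φ y) := by
  simp [com]

/-- Every homomorphism to `PL₊([0,1])` kills the word. -/
theorem killed {G : Type} [Group G] {U V : Fin 4 → G} {t : Fin 3 → G} {c : G}
    (h : IsConfig U V t c) (φ : G →* PLplus) : φ (word U V c) = 1 := by
  let F : G →* Perm unitInterval :=
    { toFun := fun g => ((φ g : PLplus) : unitInterval ≃ₜ unitInterval).toEquiv
      map_one' := by rw [map_one]; rfl
      map_mul' := fun x y => by rw [map_mul]; rfl }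
  have mono : ∀ g, StrictMono (F g) := fun g => (φ g).2.1
  have Fcom : ∀ x y, F (com x y) = com (F x) (F y) := fun x y => map_com F x y
  let S : Fin 4 → Set unitInterval := fun i => {x | F (com (U i) (V i)) x ≠ x}
  have F1 : ∀ (g : G) (i : Fin 4), Commute g (U i) → Commute g (V i) →
      ∀ x ∈ S i, F g x = x := by
    intro g i h1 h2 x hx
    have e1 : ((φ g : PLplus) : unitInterval ≃ₜ unitInterval) * (φ (U i) : PLplus) =
        (φ (U i) : PLplus) * (φ g : PLplus) := by
      rw [← Subgroup.coe_mul, ← Subgroup.coe_mul, ← map_mul, ← map_mul, h1.eq]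
    have e2 : ((φ g : PLplus) : unitInterval ≃ₜ unitInterval) * (φ (V i) : PLplus) =
        (φ (V i) : PLplus) * (φ g : PLplus) := by
      rw [← Subgroup.coe_mul, ← Subgroup.coe_mul, ← map_mul, ← map_mul, h2.eq]
    have hx' : ((φ (U i) : unitInterval ≃ₜ unitInterval) * (φ (V i)) * (φ (U i) : unitInterval ≃ₜ unitInterval)⁻¹
        * (φ (V i) : unitInterval ≃ₜ unitInterval)⁻¹) x ≠ x := by
      have e3 : ((φ (com (U i) (V i)) : PLplus) : unitInterval ≃ₜ unitInterval) =
          (φ (U i) : unitInterval ≃ₜ unitInterval) * (φ (V i)) *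
          (φ (U i) : unitInterval ≃ₜ unitInterval)⁻¹ *
          (φ (V i) : unitInterval ≃ₜ unitInterval)⁻¹ := by
        rw [map_com]
        simp [com]
      rw [← e3]
      exact hx
    exact fix_supp (φ (U i)).2 (φ (V i)).2 (φ g).2 e1 e2 hx'
  have Fcc : ∀ g i, Commute g (U i) → Commute g (V i) → Commute g (com (U i) (V i)) := by
    intro g i h1 h2
    unfold com
    exact ((h1.mul_right h2).mul_right h1.inv_right).mul_right h2.inv_right
  have hUj : ∀ i j : Fin 4, i ≠ j → Commute (com (U i) (V i)) (U j) ∧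
      Commute (com (U i) (V i)) (V j) := by
    intro i j hij
    have h1 := h.comm i j hij
    have h2 := h.comm j i hij.symm
    refine ⟨(Fcc (U j) i h2.1 h2.2.1).symm, ?_⟩
    exact (Fcc (V j) i h1.2.1.symm h2.2.2).symm
  have S_away : ∀ i j : Fin 4, i ≠ j → ∀ x ∈ S j, F (com (U i) (V i)) x = x := by
    intro i j hij
    exact F1 _ j (hUj i j hij).1 (hUj i j hij).2
  have S_move : ∀ (i : Fin 3) (x), x ∈ S i.castSucc ↔ F (t i) x ∈ S i.succ := by
    intro i x
    have h1 := h.move i
    have e1 : U i.succ = t i * U i.castSucc * (t i)⁻¹ := by rw [h1.1]; group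
    have e2 : V i.succ = t i * V i.castSucc * (t i)⁻¹ := by rw [h1.2]; group
    have e3 : com (U i.succ) (V i.succ) = t i * com (U i.castSucc) (V i.castSucc) * (t i)⁻¹ := by
      rw [e1, e2]; unfold com; group
    show F (com (U i.castSucc) (V i.castSucc)) x ≠ x ↔
      F (com (U i.succ) (V i.succ)) (F (t i) x) ≠ F (t i) x
    rw [e3]
    have e4 : (F (t i))⁻¹ ((F (t i)) x) = x := (F (t i)).symm_apply_apply x
    simp only [map_mul, map_inv, Perm.mul_apply]
    rw [e4]
    exact (F (t i)).injective.ne_iff.symm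
  have res := main_order (S 0) (S 1) (S 2) (S 3) (F (t 0)) (F (t 1)) (F (t 2)) (F c)
    (F (com (U 1) (V 1))) (F (com (U 2) (V 2)))
    (mono _) (mono _) (mono _) (mono _) (mono _) (mono _)
    (S_move 0) (S_move 1) (S_move 2)
    (F1 _ 2 (h.away 0 2 (by decide) (by decide)).1 (h.away 0 2 (by decide) (by decide)).2)
    (F1 _ 3 (h.away 0 3 (by decide) (by decide)).1 (h.away 0 3 (by decide) (by decide)).2)
    (F1 _ 0 (h.away 1 0 (by decide) (by decide)).1 (h.away 1 0 (by decide) (by decide)).2)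
    (F1 _ 3 (h.away 1 3 (by decide) (by decide)).1 (h.away 1 3 (by decide) (by decide)).2)
    (F1 _ 0 (h.away 2 0 (by decide) (by decide)).1 (h.away 2 0 (by decide) (by decide)).2)
    (F1 _ 1 (h.away 2 1 (by decide) (by decide)).1 (h.away 2 1 (by decide) (by decide)).2)
    (F1 _ 0 h.cU.1 h.cU.2.1)
    (F1 _ 3 h.cU.2.2.1 h.cU.2.2.2)
    (S_away 1 0 (by decide)) (S_away 1 2 (by decide)) (S_away 1 3 (by decide))
    (S_away 2 0 (by decide)) (S_away 2 3 (by decide))
    (fun x => Iff.rfl) (fun x => Iff.rfl)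
  apply Subtype.ext
  apply Homeomorph.ext
  intro x
  have h2 := res x
  have h3 : F (word U V c) x = x := by
    have : F (word U V c) = com (com (F c * F (com (U 1) (V 1)) * (F c)⁻¹) (F (com (U 2) (V 2))))
        (com (F c * F (com (U 2) (V 2)) * (F c)⁻¹) (F (com (U 1) (V 1)))) := by
      unfold word
      rw [Fcom, Fcom (c * com (U 1) (V 1) * c⁻¹), Fcom (c * com (U 2) (V 2) * c⁻¹)]
      simp only [map_mul, map_inv]
    rw [this]
    exact h2
  exact h3

end Pool.Agent.H97R3.Config
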