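import Mathlib

set_option autoImplicit false

namespace Pool.Agent.H97R3.Diag

/-- A semigroup presentation `⟨S ∣ rels⟩`: the relations are pairs `(u, v)` of nonempty words. -/
structure Pres (S : Type) where
  rels : Set (List S × List S)
  ne : ∀ r ∈ rels, r.1 ≠ [] ∧ r.2 ≠ []

section
variable {S : Type} (P : Pres S)

/-- Oriented edges of the Squier complex from the word `u` to the word `v`. The edge attached to the
words `left = a`, `right = b` and the relation `rel = (x, y)` joins `a x b` to `a y b`; it is
traversed from `a x b` to `a y b` if `fwd = true` and from `a y b` to `a x b` if `fwd = false`. -/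
@[ext] structure Edge (u v : List S) where
  left : List S
  rel : List S × List S
  right : List S
  fwd : Bool
  mem : rel ∈ P.rels
  src : u = left ++ (if fwd then rel.1 else rel.2) ++ right
  tgt : v = left ++ (if fwd then rel.2 else rel.1) ++ right

variable {P}

/-- The same edge traversed in the opposite direction. -/
def Edge.inv {u v : List S} (e : Edge P u v) : Edge P v u where
  left := e.left
  rel := e.rel
  right := e.right
  fwd := !e.fwd
  mem := e.mem
  src := by rcases e with ⟨l, r, t, f, m, s, g⟩; cases f <;> simpa using g
  tgt := by rcases e with ⟨l, r, t, f, m, s, g⟩; cases f <;> simpa using s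

theorem Edge.inv_inv {u v : List S} (e : Edge P u v) : e.inv.inv = e := by
  ext <;> simp [Edge.inv]

variable (P) in
/-- Edge paths in the Squier complex. -/
inductive EPath : List S → List S → Type
  | nil (u : List S) : EPath u u
  | cons {u v w : List S} (e : Edge P u v) (p : EPath v w) : EPath u w

/-- `e₁ e₂` and `e₃ e₄` are the two ways around the square with vertices
`a x b x' c`, `a y b x' c`, `a y b y' c`, `a x b y' c`, where `(x, y)` and `(x', y')` are relations. -/
def IsSquare {u v w z : List S} (e₁ : Edge P u v) (e₂ : Edge P v z) (e₃ : Edge P u w)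
    (e₄ : Edge P w z) : Prop :=
  ∃ (a b c : List S) (r r' : List S × List S),
    (e₁.left = a ∧ e₁.rel = r ∧ e₁.right = b ++ r'.1 ++ c ∧ e₁.fwd = true) ∧
    (e₂.left = a ++ r.2 ++ b ∧ e₂.rel = r' ∧ e₂.right = c ∧ e₂.fwd = true) ∧
    (e₃.left = a ++ r.1 ++ b ∧ e₃.rel = r' ∧ e₃.right = c ∧ e₃.fwd = true) ∧
    (e₄.left = a ∧ e₄.rel = r ∧ e₄.right = b ++ r'.2 ++ c ∧ e₄.fwd = true)

/-- Homotopy of edge paths with fixed endpoints: the congruence generated by deleting backtracks
`e e⁻¹` and pushing across squares. -/
inductive Htpy : ∀ {u v : List S}, EPath P u v → EPath P u v → Prop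
  | refl {u v : List S} (p : EPath P u v) : Htpy p p
  | symm {u v : List S} {p q : EPath P u v} : Htpy p q → Htpy q p
  | trans {u v : List S} {p q r : EPath P u v} : Htpy p q → Htpy q r → Htpy p r
  | cons {u v w : List S} (e : Edge P u v) {p q : EPath P v w} :
      Htpy p q → Htpy (.cons e p) (.cons e q)
  | cancel {u v w : List S} (e : Edge P u v) (p : EPath P u w) :
      Htpy (.cons e (.cons e.inv p)) p
  | square {u v w z x : List S} (e₁ : Edge P u v) (e₂ : Edge P v z) (e₃ : Edge P u w)
      (e₄ : Edge P w z) (p : EPath P z x) :
      IsSquare e₁ e₂ e₃ e₄ → Htpy (.cons e₁ (.cons e₂ p)) (.cons e₃ (.cons e₄ p))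

/-- Concatenation. -/
def EPath.append : ∀ {u v w : List S}, EPath P u v → EPath P v w → EPath P u w
  | _, _, _, .nil _, q => q
  | _, _, _, .cons e p, q => .cons e (EPath.append p q)

/-- The reversed path. -/
def EPath.rev : ∀ {u v : List S}, EPath P u v → EPath P v u
  | _, _, .nil u => .nil u
  | _, _, .cons e p => (EPath.rev p).append (.cons e.inv (.nil _))

theorem append_nil {u v : List S} (p : EPath P u v) : p.append (.nil v) = p := by
  induction p with
  | nil u => rfl
  | cons e p ih => simp [EPath.append, ih]

theorem append_assoc {u v w x : List S} (p : EPath P u v) (q : EPath P v w) (r : EPath P w x) :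
    (p.append q).append r = p.append (q.append r) := by
  induction p with
  | nil u => rfl
  | cons e p ih => simp [EPath.append, ih]

theorem Htpy.append_right {u v w : List S} {p p' : EPath P u v} (h : Htpy p p')
    (q : EPath P v w) : Htpy (p.append q) (p'.append q) := by
  induction h with
  | refl p => exact .refl _
  | symm _ ih => exact .symm (ih q)
  | trans _ _ ih1 ih2 => exact .trans (ih1 q) (ih2 q)
  | cons e _ ih => exact .cons e (ih q)
  | cancel e p => exact .cancel e _
  | square e₁ e₂ e₃ e₄ p hs => exact .square e₁ e₂ e₃ e₄ _ hs

theorem Htpy.append_left {u v w : List S} (p : EPath P u v) {q q' : EPath P v w}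
    (h : Htpy q q') : Htpy (p.append q) (p.append q') := by
  induction p with
  | nil u => exact h
  | cons e p ih => exact .cons e (ih h)

theorem rev_append_self {u v : List S} (p : EPath P u v) : Htpy (p.rev.append p) (.nil v) := by
  induction p with
  | nil u => exact .refl _
  | cons e p ih =>
    have h1 : (EPath.cons e p).rev.append (.cons e p) =
        p.rev.append (.cons e.inv (.cons e p)) := by
      simp [EPath.rev, append_assoc, EPath.append]
    rw [h1]
    refine .trans (.append_left _ ?_) ih
    have := Htpy.cancel e.inv p
    rwa [Edge.inv_inv] at this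

theorem append_rev_self {u v : List S} (p : EPath P u v) : Htpy (p.append p.rev) (.nil u) := by
  induction p with
  | nil u => exact .refl _
  | cons e p ih =>
    have h1 : (EPath.cons e p).append (EPath.cons e p).rev =
        .cons e ((p.append p.rev).append (.cons e.inv (.nil _))) := by
      simp [EPath.rev, append_assoc, EPath.append]
    rw [h1]
    exact .trans (.cons e (ih.append_right _)) (.cancel e _)

theorem Htpy.rev {u v : List S} {p q : EPath P u v} (h : Htpy p q) : Htpy p.rev q.rev := by
  have h1 : Htpy p.rev (p.rev.append (q.append q.rev)) := by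
    have := Htpy.append_left p.rev (append_rev_self q)
    rw [append_nil] at this
    exact this.symm
  have h2 : Htpy (p.rev.append (q.append q.rev)) (p.rev.append (p.append q.rev)) :=
    .append_left _ (h.symm.append_right _)
  have h3 : Htpy (p.rev.append (p.append q.rev)) q.rev := by
    rw [← append_assoc]
    exact (rev_append_self p).append_right _
  exact h1.trans (h2.trans h3)

variable (P) in
instance setoid (u v : List S) : Setoid (EPath P u v) where
  r := Htpy
  iseqv := ⟨Htpy.refl, Htpy.symm, Htpy.trans⟩

variable (P) in
/-- Homotopy classes of edge paths from `u` to `v` in the Squier complex. -/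
def Q (u v : List S) : Type := Quotient (setoid P u v)

def Q.mk {u v : List S} (p : EPath P u v) : Q P u v := Quotient.mk _ p

def Q.comp {u v w : List S} (p : Q P u v) (q : Q P v w) : Q P u w :=
  Quotient.map₂ EPath.append
    (fun _ _ h₁ _ _ h₂ => Htpy.trans (Htpy.append_right h₁ _) (Htpy.append_left _ h₂)) p q

def Q.inv {u v : List S} (p : Q P u v) : Q P v u :=
  Quotient.map EPath.rev (fun _ _ h => Htpy.rev h) p

def Q.id (u : List S) : Q P u u := Q.mk (.nil u)

theorem Q.comp_assoc {u v w x : List S} (p : Q P u v) (q : Q P v w) (r : Q P w x) :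
    (p.comp q).comp r = p.comp (q.comp r) := by
  refine Quotient.inductionOn₃ p q r ?_
  intro p q r
  exact congrArg Q.mk (append_assoc p q r)

theorem Q.id_comp {u v : List S} (p : Q P u v) : (Q.id u).comp p = p := by
  refine Quotient.inductionOn p ?_
  intro p
  rfl

theorem Q.comp_id {u v : List S} (p : Q P u v) : p.comp (Q.id v) = p := by
  refine Quotient.inductionOn p ?_
  intro p
  exact congrArg Q.mk (append_nil p)

theorem Q.inv_comp {u v : List S} (p : Q P u v) : p.inv.comp p = Q.id v := by
  refine Quotient.inductionOn p ?_
  intro p
  exact Quotient.sound (rev_append_self p)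

theorem Q.comp_inv {u v : List S} (p : Q P u v) : p.comp p.inv = Q.id u := by
  refine Quotient.inductionOn p ?_
  intro p
  exact Quotient.sound (append_rev_self p)

variable (P) in
/-- The diagram group `D(P, w)`: the fundamental group of the Squier complex based at `w`, i.e.
closed edge paths at `w` up to homotopy. -/
def DiagramGroup (w : List S) : Type := Q P w w

instance (w : List S) : Group (DiagramGroup P w) where
  mul := Q.comp
  mul_assoc := Q.comp_assoc
  one := Q.id w
  one_mul := Q.id_comp
  mul_one := Q.comp_id
  inv := Q.inv
  inv_mul_cancel := Q.inv_comp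

end

end Pool.Agent.H97R3.Diag
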