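import Mathlib
import Pool.Agent.H97R3.Diag

set_option autoImplicit false

namespace Pool.Agent.H97R3.Diag

open Equiv

abbrev N2 : Type := ℕ × ℕ

/-- act by `f` after the first `m` positions -/
def shf (m : ℕ) (f : N2 → N2) (x : N2) : N2 :=
  if x.1 < m then x else ((f (x.1 - m, x.2)).1 + m, (f (x.1 - m, x.2)).2)

theorem shf_lt {m : ℕ} (f : N2 → N2) {i n : ℕ} (h : i < m) : shf m f (i, n) = (i, n) := by
  simp [shf, h]

theorem shf_ge {m : ℕ} (f : N2 → N2) {i n : ℕ} (h : m ≤ i) :
    shf m f (i, n) = ((f (i - m, n)).1 + m, (f (i - m, n)).2) := by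
  have : ¬ i < m := by omega
  simp [shf, this]

theorem shf_comp (m : ℕ) (f g : N2 → N2) (x : N2) : shf m f (shf m g x) = shf m (f ∘ g) x := by
  obtain ⟨i, n⟩ := x
  rcases lt_or_ge i m with h | h
  · rw [shf_lt g h, shf_lt f h, shf_lt _ h]
  · rw [shf_ge g h, shf_ge f (by omega), shf_ge _ h]
    simp

theorem shf_id (m : ℕ) (x : N2) : shf m (fun y => y) x = x := by
  obtain ⟨i, n⟩ := x
  rcases lt_or_ge i m with h | h
  · rw [shf_lt _ h]
  · rw [shf_ge _ h]
    simp only [Prod.mk.injEq, and_true]
    omega

def sh (m : ℕ) (f : Perm N2) : Perm N2 where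
  toFun := shf m f
  invFun := shf m f.symm
  left_inv x := by
    rw [shf_comp]
    have : (f.symm ∘ f : N2 → N2) = fun y => y := by ext1 y; simp
    rw [this, shf_id]
  right_inv x := by
    rw [shf_comp]
    have : (f ∘ f.symm : N2 → N2) = fun y => y := by ext1 y; simp
    rw [this, shf_id]

theorem sh_apply (m : ℕ) (f : Perm N2) (x : N2) : sh m f x = shf m f x := rfl

section
variable {S : Type} {P : Pres S}

/-- an assignment of permutations of `ℕ × ℕ` to relations -/
def Good (P : Pres S) (F : List S × List S → Perm N2) : Prop :=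
  ∀ r ∈ P.rels, (∀ i n, i < r.1.length → (F r (i, n)).1 < r.2.length) ∧
    (∀ i n, r.1.length ≤ i → F r (i, n) = (i - r.1.length + r.2.length, n))

def evE (F : List S × List S → Perm N2) {u v : List S} (e : Edge P u v) : Perm N2 :=
  if e.fwd then sh e.left.length (F e.rel) else (sh e.left.length (F e.rel))⁻¹

def ev (F : List S × List S → Perm N2) : ∀ {u v : List S}, EPath P u v → Perm N2
  | _, _, .nil _ => 1
  | _, _, .cons e p => ev F p * evE F e

theorem evE_inv (F : List S × List S → Perm N2) {u v : List S} (e : Edge P u v) :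
    evE F e.inv = (evE F e)⁻¹ := by
  rcases e with ⟨l, r, t, f, m, s, g⟩
  cases f <;> simp [evE, Edge.inv]

theorem square_ev (f g : Perm N2) (m k l b : ℕ)
    (h1 : ∀ i n, i < k → (f (i, n)).1 < l) (h2 : ∀ i n, k ≤ i → f (i, n) = (i - k + l, n)) :
    sh (m + l + b) g * sh m f = sh m f * sh (m + k + b) g := by
  ext1 ⟨i, n⟩
  simp only [Perm.mul_apply, sh_apply]
  rcases lt_or_ge i m with hi | hi
  · rw [shf_lt f hi, shf_lt (m := m + l + b) (i := i) _ (by omega),
      shf_lt (m := m + k + b) (i := i) _ (by omega), shf_lt f hi]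
  · rcases lt_or_ge (i - m) k with hk | hk
    · have hlt := h1 (i - m) n hk
      rw [shf_ge f hi, shf_lt _ (by omega), shf_lt (i := i) _ (by omega), shf_ge f hi]
    · have he := h2 (i - m) n hk
      rw [shf_ge f hi, he]
      rcases lt_or_ge i (m + k + b) with hb | hb
      · rw [shf_lt _ (by omega), shf_lt _ hb, shf_ge f hi, he]
      · rw [shf_ge (i := i - m - k + l + m) _ (by omega), shf_ge (i := i) _ hb]
        have e1 : i - m - k + l + m - (m + l + b) = i - (m + k + b) := by omega
        rw [e1]
        rw [shf_ge f (by omega)]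
        have e2 : (g (i - (m + k + b), n)).1 + (m + k + b) - m =
            (g (i - (m + k + b), n)).1 + (k + b) := by omega
        rw [e2, h2 _ _ (by omega)]
        ext
        · simp only
          omega
        · rfl

theorem ev_htpy {F : List S × List S → Perm N2} (hF : Good P F) {u v : List S}
    {p q : EPath P u v} (h : Htpy p q) : ev F p = ev F q := by
  induction h with
  | refl p => rfl
  | symm _ ih => exact ih.symm
  | trans _ _ ih1 ih2 => exact ih1.trans ih2
  | cons e _ ih => simp only [ev, ih]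
  | cancel e p => simp only [ev, evE_inv, mul_assoc, inv_mul_cancel, mul_one]
  | square e₁ e₂ e₃ e₄ p hs =>
    obtain ⟨a, b, c, r, r', ⟨h1, h2, h3, h4⟩, ⟨h5, h6, h7, h8⟩, ⟨h9, h10, h11, h12⟩,
      h13, h14, h15, h16⟩ := hs
    simp only [ev, mul_assoc]
    congr 1
    unfold evE
    rw [h4, h8, h12, h16, h1, h2, h5, h6, h9, h10, h13, h14]
    simp only [if_true, List.length_append]
    have hr := hF r (h2 ▸ e₁.mem)
    exact square_ev (F r) (F r') a.length r.1.length r.2.length b.length hr.1 hr.2

theorem ev_append (F : List S × List S → Perm N2) {u v w : List S} (p : EPath P u v)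
    (q : EPath P v w) : ev F (p.append q) = ev F q * ev F p := by
  induction p with
  | nil u => simp [EPath.append, ev]
  | cons e p ih => simp [EPath.append, ev, ih, mul_assoc]

/-- the induced homomorphism on diagram groups -/
def evHom {F : List S × List S → Perm N2} (hF : Good P F) (w : List S) :
    DiagramGroup P w →* Perm N2 where
  toFun := Quotient.lift (fun p => (ev F p)⁻¹) (fun _ _ h => by
    show (ev F _)⁻¹ = (ev F _)⁻¹
    rw [ev_htpy hF h])
  map_one' := by
    show (ev F (EPath.nil w))⁻¹ = 1
    simp [ev]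
  map_mul' := by
    intro p q
    refine Quotient.inductionOn₂ p q ?_
    intro p q
    show (ev F (p.append q))⁻¹ = (ev F p)⁻¹ * (ev F q)⁻¹
    rw [ev_append, mul_inv_rev]

theorem evHom_mk {F : List S × List S → Perm N2} (hF : Good P F) (w : List S) (p : EPath P w w) :
    evHom hF w (Q.mk p) = (ev F p)⁻¹ := rfl

end

end Pool.Agent.H97R3.Diag
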