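import Mathlib
import Pool.Agent.H97R3.Diag

set_option autoImplicit false

namespace Pool.Agent.H97R3.Diag

section
variable {S : Type} {P : Pres S}

/-- class of a single edge -/
def ed {u v : List S} (e : Edge P u v) : Q P u v := Q.mk (.cons e (.nil v))

theorem ed_inv {u v : List S} (e : Edge P u v) : ed e.inv = (ed e).inv := rfl

theorem mk_cons {u v w : List S} (e : Edge P u v) (p : EPath P v w) :
    Q.mk (.cons e p) = (ed e).comp (Q.mk p) := rfl

theorem mk_nil (u : List S) : (Q.mk (.nil u) : Q P u u) = Q.id u := rfl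

/-- put an edge in the context `x _ y` -/
def Edge.wh (x y : List S) {u v : List S} (e : Edge P u v) : Edge P (x ++ u ++ y) (x ++ v ++ y) where
  left := x ++ e.left
  rel := e.rel
  right := e.right ++ y
  fwd := e.fwd
  mem := e.mem
  src := by
    conv_lhs => rw [e.src]
    simp [List.append_assoc]
  tgt := by
    conv_lhs => rw [e.tgt]
    simp [List.append_assoc]

theorem Edge.wh_inv (x y : List S) {u v : List S} (e : Edge P u v) :
    (e.wh x y).inv = e.inv.wh x y := rfl

def EPath.wh (x y : List S) : ∀ {u v : List S}, EPath P u v → EPath P (x ++ u ++ y) (x ++ v ++ y)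
  | _, _, .nil u => .nil _
  | _, _, .cons e p => .cons (e.wh x y) (EPath.wh x y p)

theorem IsSquare.wh (x y : List S) {u v w z : List S} {e₁ : Edge P u v} {e₂ : Edge P v z}
    {e₃ : Edge P u w} {e₄ : Edge P w z} (h : IsSquare e₁ e₂ e₃ e₄) :
    IsSquare (e₁.wh x y) (e₂.wh x y) (e₃.wh x y) (e₄.wh x y) := by
  obtain ⟨a, b, c, r, r', ⟨h1, h2, h3, h4⟩, ⟨h5, h6, h7, h8⟩, ⟨h9, h10, h11, h12⟩,
    h13, h14, h15, h16⟩ := h
  refine ⟨x ++ a, b, c ++ y, r, r', ⟨?_, h2, ?_, h4⟩, ⟨?_, h6, ?_, h8⟩, ⟨?_, h10, ?_, h12⟩,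
    ?_, h14, ?_, h16⟩
  · simp [Edge.wh, h1]
  · simp [Edge.wh, h3]
  · simp [Edge.wh, h5]
  · simp [Edge.wh, h7]
  · simp [Edge.wh, h9]
  · simp [Edge.wh, h11]
  · simp [Edge.wh, h13]
  · simp [Edge.wh, h15]

theorem Htpy.wh (x y : List S) {u v : List S} {p q : EPath P u v} (h : Htpy p q) :
    Htpy (p.wh x y) (q.wh x y) := by
  induction h with
  | refl p => exact .refl _
  | symm _ ih => exact ih.symm
  | trans _ _ ih1 ih2 => exact ih1.trans ih2
  | cons e _ ih => exact .cons _ ih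
  | cancel e p => exact .cancel (e.wh x y) _
  | square e₁ e₂ e₃ e₄ p hs => exact .square _ _ _ _ _ (hs.wh x y)

theorem wh_append (x y : List S) {u v w : List S} (p : EPath P u v) (q : EPath P v w) :
    (p.append q).wh x y = (p.wh x y).append (q.wh x y) := by
  induction p with
  | nil u => rfl
  | cons e p ih => simp [EPath.append, EPath.wh, ih]

/-- place a class in the context `x _ y`, with flexible endpoints -/
def pl (x y : List S) {u v : List S} (p : Q P u v) {U V : List S} (hU : U = x ++ u ++ y)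
    (hV : V = x ++ v ++ y) : Q P U V :=
  hU ▸ hV ▸ (Quotient.map (EPath.wh x y) (fun _ _ h => Htpy.wh x y h) p :
    Q P (x ++ u ++ y) (x ++ v ++ y))

theorem pl_mk (x y : List S) {u v : List S} (p : EPath P u v) :
    pl x y (Q.mk p) rfl rfl = Q.mk (p.wh x y) := rfl

theorem pl_comp (x y : List S) {u v w : List S} (p : Q P u v) (q : Q P v w) {U V W : List S}
    (hU : U = x ++ u ++ y) (hV : V = x ++ v ++ y) (hW : W = x ++ w ++ y) :
    pl x y (p.comp q) hU hW = (pl x y p hU hV).comp (pl x y q hV hW) := by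
  subst hU hV hW
  refine Quotient.inductionOn₂ p q ?_
  intro p q
  exact congrArg Q.mk (wh_append x y p q)

theorem pl_id (x y : List S) {u : List S} {U : List S}
    (hU : U = x ++ u ++ y) : pl x y (Q.id u : Q P u u) hU hU = Q.id U := by
  subst hU
  rfl

theorem eq_inv_of_comp {u v : List S} {p : Q P u v} {q : Q P v u} (h : p.comp q = Q.id u) :
    q = p.inv := by
  have : p.inv.comp (p.comp q) = p.inv.comp (Q.id u) := by rw [h]
  rwa [← Q.comp_assoc, Q.inv_comp, Q.id_comp, Q.comp_id] at this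

theorem pl_inv (x y : List S) {u v : List S} (p : Q P u v) {U V : List S}
    (hU : U = x ++ u ++ y) (hV : V = x ++ v ++ y) :
    pl x y p.inv hV hU = (pl x y p hU hV).inv := by
  apply eq_inv_of_comp
  rw [← pl_comp, Q.comp_inv, pl_id]

/-- The interchange property of two classes. -/
def Inter {u u' v v' : List S} (p : Q P u u') (q : Q P v v') : Prop :=
  ∀ (x y z A B C D : List S)
    (hA1 : A = x ++ u ++ (y ++ v ++ z)) (hB1 : B = x ++ u' ++ (y ++ v ++ z))
    (hB2 : B = (x ++ u' ++ y) ++ v ++ z) (hD2 : D = (x ++ u' ++ y) ++ v' ++ z)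
    (hA2 : A = (x ++ u ++ y) ++ v ++ z) (hC2 : C = (x ++ u ++ y) ++ v' ++ z)
    (hC1 : C = x ++ u ++ (y ++ v' ++ z)) (hD1 : D = x ++ u' ++ (y ++ v' ++ z)),
    (pl x (y ++ v ++ z) p hA1 hB1).comp (pl (x ++ u' ++ y) z q hB2 hD2) =
      (pl (x ++ u ++ y) z q hA2 hC2).comp (pl x (y ++ v' ++ z) p hC1 hD1)

theorem Inter.id_left {u v v' : List S} (q : Q P v v') : Inter (Q.id u) q := by
  intro x y z A B C D hA1 hB1 hB2 hD2 hA2 hC2 hC1 hD1
  have hAB : B = A := hB1.trans hA1.symm
  subst hAB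
  have hCD : D = C := hD1.trans hC1.symm
  subst hCD
  rw [pl_id, pl_id, Q.id_comp, Q.comp_id]

theorem Inter.id_right {u u' v : List S} (p : Q P u u') : Inter p (Q.id v) := by
  intro x y z A B C D hA1 hB1 hB2 hD2 hA2 hC2 hC1 hD1
  have h1 : D = B := hD2.trans hB2.symm
  subst h1
  have h2 : C = A := hC2.trans hA2.symm
  subst h2
  rw [pl_id, pl_id, Q.id_comp, Q.comp_id]

theorem Inter.comp_left {u u' u'' v v' : List S} {p : Q P u u'} {p' : Q P u' u''} {q : Q P v v'}
    (h : Inter p q) (h' : Inter p' q) : Inter (p.comp p') q := by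
  intro x y z A B C D hA1 hB1 hB2 hD2 hA2 hC2 hC1 hD1
  rw [pl_comp x _ p p' hA1 (rfl : x ++ u' ++ (y ++ v ++ z) = _) hB1,
    pl_comp x _ p p' hC1 (rfl : x ++ u' ++ (y ++ v' ++ z) = _) hD1]
  rw [Q.comp_assoc, h' x y z _ B _ D rfl hB1 hB2 hD2 (by simp) (by simp) rfl hD1]
  rw [← Q.comp_assoc, h x y z A _ C _ hA1 rfl (by simp) (by simp) hA2 hC2 hC1 rfl]
  rw [Q.comp_assoc]

theorem Inter.comp_right {u u' v v' v'' : List S} {p : Q P u u'} {q : Q P v v'} {q' : Q P v' v''}
    (h : Inter p q) (h' : Inter p q') : Inter p (q.comp q') := by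
  intro x y z A B C D hA1 hB1 hB2 hD2 hA2 hC2 hC1 hD1
  rw [pl_comp (x ++ u' ++ y) z q q' hB2 (rfl : (x ++ u' ++ y) ++ v' ++ z = _) hD2,
    pl_comp (x ++ u ++ y) z q q' hA2 (rfl : (x ++ u ++ y) ++ v' ++ z = _) hC2]
  rw [← Q.comp_assoc, h x y z A B _ _ hA1 hB1 hB2 rfl hA2 rfl (by simp) (by simp)]
  rw [Q.comp_assoc, h' x y z _ _ C D (by simp) (by simp) rfl hD2 rfl hC2 hC1 hD1]
  rw [Q.comp_assoc]

theorem Inter.inv_left {u u' v v' : List S} {p : Q P u u'} {q : Q P v v'}
    (h : Inter p q) : Inter p.inv q := by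
  intro x y z A B C D hA1 hB1 hB2 hD2 hA2 hC2 hC1 hD1
  rw [pl_inv x _ p hB1 hA1, pl_inv x _ p hD1 hC1]
  have := h x y z B A D C hB1 hA1 hA2 hC2 hB2 hD2 hD1 hC1
  -- p_B q_A = q_B p_D  hence p_B⁻¹ q_B = q_A p_D⁻¹
  have h2 : (pl x (y ++ v ++ z) p hB1 hA1).inv.comp
      (((pl x (y ++ v ++ z) p hB1 hA1).comp (pl (x ++ u' ++ y) z q hA2 hC2)).comp
        (pl x (y ++ v' ++ z) p hD1 hC1).inv) =
      (pl x (y ++ v ++ z) p hB1 hA1).inv.comp
      (((pl (x ++ u ++ y) z q hB2 hD2).comp (pl x (y ++ v' ++ z) p hD1 hC1)).comp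
        (pl x (y ++ v' ++ z) p hD1 hC1).inv) := by rw [this]
  rw [Q.comp_assoc (pl (x ++ u ++ y) z q hB2 hD2), Q.comp_inv, Q.comp_id, Q.comp_assoc,
    ← Q.comp_assoc, Q.inv_comp, Q.id_comp] at h2
  exact h2.symm

theorem Inter.inv_right {u u' v v' : List S} {p : Q P u u'} {q : Q P v v'}
    (h : Inter p q) : Inter p q.inv := by
  intro x y z A B C D hA1 hB1 hB2 hD2 hA2 hC2 hC1 hD1
  rw [pl_inv (x ++ u' ++ y) z q hD2 hB2, pl_inv (x ++ u ++ y) z q hC2 hA2]
  have := h x y z C D A B hC1 hD1 hD2 hB2 hC2 hA2 hA1 hB1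
  -- p_C q_D = q_C p_A  hence  p_A q_D⁻¹ = q_C⁻¹ p_C
  have h2 : (pl (x ++ u ++ y) z q hC2 hA2).inv.comp
      (((pl x (y ++ v ++ z) p hC1 hD1).comp (pl (x ++ u' ++ y) z q hD2 hB2)).comp
        (pl (x ++ u' ++ y) z q hD2 hB2).inv) =
      (pl (x ++ u ++ y) z q hC2 hA2).inv.comp
      (((pl (x ++ u ++ y) z q hC2 hA2).comp (pl x (y ++ v' ++ z) p hA1 hB1)).comp
        (pl (x ++ u' ++ y) z q hD2 hB2).inv) := by rw [this]
  rw [Q.comp_assoc (pl x (y ++ v ++ z) p hC1 hD1), Q.comp_inv, Q.comp_id, Q.comp_assoc,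
    ← Q.comp_assoc (pl (x ++ u ++ y) z q hC2 hA2).inv, Q.inv_comp, Q.id_comp] at h2
  exact h2.symm

/-- flexible placement of an edge -/
def Edge.pl (x y : List S) {u v : List S} (e : Edge P u v) {U V : List S} (hU : U = x ++ u ++ y)
    (hV : V = x ++ v ++ y) : Edge P U V where
  left := x ++ e.left
  rel := e.rel
  right := e.right ++ y
  fwd := e.fwd
  mem := e.mem
  src := by
    rw [hU]
    conv_lhs => rw [e.src]
    simp [List.append_assoc]
  tgt := by
    rw [hV]
    conv_lhs => rw [e.tgt]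
    simp [List.append_assoc]

theorem pl_ed (x y : List S) {u v : List S} (e : Edge P u v) {U V : List S} (hU : U = x ++ u ++ y)
    (hV : V = x ++ v ++ y) : pl x y (ed e) hU hV = ed (e.pl x y hU hV) := by
  subst hU hV
  rfl

theorem inter_fwd {u u' v v' : List S} (e : Edge P u u') (f : Edge P v v') (he : e.fwd = true)
    (hf : f.fwd = true) : Inter (ed e) (ed f) := by
  intro x y z A B C D hA1 hB1 hB2 hD2 hA2 hC2 hC1 hD1
  rw [pl_ed, pl_ed, pl_ed, pl_ed]
  apply Quotient.sound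
  apply Htpy.square
  have es := e.src
  have et := e.tgt
  have fs := f.src
  have ft := f.tgt
  rw [he] at es et
  rw [hf] at fs ft
  simp only [if_true] at es et fs ft
  refine ⟨x ++ e.left, e.right ++ y ++ f.left, f.right ++ z, e.rel, f.rel,
    ⟨rfl, rfl, ?_, he⟩, ⟨?_, rfl, rfl, hf⟩, ⟨?_, rfl, rfl, hf⟩, rfl, rfl, ?_, he⟩
  · show e.right ++ (y ++ v ++ z) = _
    conv_lhs => rw [fs]
    simp [List.append_assoc]
  · show (x ++ u' ++ y) ++ f.left = _
    conv_lhs => rw [et]
    simp [List.append_assoc]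
  · show (x ++ u ++ y) ++ f.left = _
    conv_lhs => rw [es]
    simp [List.append_assoc]
  · show e.right ++ (y ++ v' ++ z) = _
    conv_lhs => rw [ft]
    simp [List.append_assoc]

theorem inter_edges {u u' v v' : List S} (e : Edge P u u') (f : Edge P v v') :
    Inter (ed e) (ed f) := by
  have inv_ed : ∀ {u v : List S} (e : Edge P u v), ed e = (ed e.inv).inv := by
    intro u v e
    rw [← ed_inv, Edge.inv_inv]
  by_cases he : e.fwd = true
  · by_cases hf : f.fwd = true
    · exact inter_fwd e f he hf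
    · rw [inv_ed f]
      apply Inter.inv_right
      apply inter_fwd e f.inv he
      simpa [Edge.inv] using hf
  · rw [inv_ed e]
    apply Inter.inv_left
    by_cases hf : f.fwd = true
    · apply inter_fwd e.inv f _ hf
      simpa [Edge.inv] using he
    · rw [inv_ed f]
      apply Inter.inv_right
      apply inter_fwd e.inv f.inv
      · simpa [Edge.inv] using he
      · simpa [Edge.inv] using hf

/-- **Interchange law**: rewritings in disjoint parts of a word commute. -/
theorem interchange {u u' v v' : List S} (p : Q P u u') (q : Q P v v') : Inter p q := by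
  have h1 : ∀ {u u' v v' : List S} (e : Edge P u u') (q : EPath P v v'),
      Inter (ed e) (Q.mk q) := by
    intro u u' v v' e q
    induction q with
    | nil v => exact Inter.id_right _
    | cons f q ih =>
      rw [mk_cons]
      exact Inter.comp_right (inter_edges e f) ih
  have h2 : ∀ {u u' v v' : List S} (p : EPath P u u') (q : EPath P v v'),
      Inter (Q.mk p) (Q.mk q) := by
    intro u u' v v' p q
    induction p with
    | nil v => exact Inter.id_left _
    | cons e p ih =>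
      rw [mk_cons]
      exact Inter.comp_left (h1 e q) ih
  exact Quotient.inductionOn₂ p q (fun p q => h2 p q)

end

end Pool.Agent.H97R3.Diag
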