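import Mathlib
import Pool.Agent.H97R3.Whisker
import Pool.Agent.H97R3.Eval
import Pool.Agent.H97R3.Config

set_option autoImplicit false

namespace Pool.Agent.H97R3.Example

open Pool.Agent.H97R3.Diag Pool.Agent.H97R3.Config Pool.Agent.H97R3.Ord Equiv

/-- the alphabet -/
inductive L | g | k | p1 | p2 | q1 | q2 | d | e
deriving DecidableEq, Fintype

open L

/-- the list of relations -/
def relL : List (List L × List L) :=
  [([g], [g, k, g]),
   ([k], [p1]), ([p1], [p2]), ([p2], [k]),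
   ([k], [q1]), ([q1], [q2]), ([q2], [k]),
   ([k, g, k], [d, d, d]), ([d, d, d], [e, e, e]), ([e, e, e], [k, g, k])]

/-- the presentation -/
def PP : Pres L where
  rels := {r | r ∈ relL}
  ne := fun r hr => (by decide : ∀ r ∈ relL, r.1 ≠ [] ∧ r.2 ≠ []) r hr

abbrev w0 : List L := [g, k, g, k, g, k, g, k, g]

def mkE (r : List L × List L) (hr : r ∈ relL) : Edge PP r.1 r.2 where
  left := []
  rel := r
  right := []
  fwd := true
  mem := hr
  src := by simp
  tgt := by simp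

def e0 : Q PP [g] [g, k, g] := ed (mkE ([g], [g, k, g]) (by decide))

def lu : Q PP [k] [k] :=
  (ed (mkE ([k], [p1]) (by decide))).comp
    ((ed (mkE ([p1], [p2]) (by decide))).comp (ed (mkE ([p2], [k]) (by decide))))

def lv : Q PP [k] [k] :=
  (ed (mkE ([k], [q1]) (by decide))).comp
    ((ed (mkE ([q1], [q2]) (by decide))).comp (ed (mkE ([q2], [k]) (by decide))))

def lc : Q PP [k, g, k] [k, g, k] :=
  (ed (mkE ([k, g, k], [d, d, d]) (by decide))).comp
    ((ed (mkE ([d, d, d], [e, e, e]) (by decide))).comp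
      (ed (mkE ([e, e, e], [k, g, k]) (by decide))))

/-- the four copies of a loop at `k` -/
def io (p : Q PP [k] [k]) : Fin 4 → DiagramGroup PP w0
  | 0 => pl [g] [g, k, g, k, g, k, g] p rfl rfl
  | 1 => pl [g, k, g] [g, k, g, k, g] p rfl rfl
  | 2 => pl [g, k, g, k, g] [g, k, g] p rfl rfl
  | 3 => pl [g, k, g, k, g, k, g] [g] p rfl rfl

def tt : Fin 3 → DiagramGroup PP w0
  | 0 => (pl (V := [g, k, g, k, g, k, g, k, g, k, g]) [g, k, g, k] [k, g, k, g] e0 rfl rfl).comp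
      (pl [] [k, g, k, g, k, g, k, g] e0.inv rfl rfl)
  | 1 => (pl (V := [g, k, g, k, g, k, g, k, g, k, g]) [g, k, g, k, g, k] [k, g] e0 rfl rfl).comp
      (pl [g, k] [k, g, k, g, k, g] e0.inv rfl rfl)
  | 2 => (pl (V := [g, k, g, k, g, k, g, k, g, k, g]) [g, k, g, k, g, k, g, k] [] e0 rfl rfl).comp
      (pl [g, k, g, k] [k, g, k, g] e0.inv rfl rfl)

def cc : DiagramGroup PP w0 := pl [g, k, g] [g, k, g] lc rfl rfl

abbrev w1 : List L := [g, k, g, k, g, k, g, k, g, k, g]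

theorem disj {u v : List L} (x y z : List L) (p : Q PP u u) (q : Q PP v v) {A : List L}
    (h1 : A = x ++ u ++ (y ++ v ++ z)) (h2 : A = (x ++ u ++ y) ++ v ++ z) :
    (pl x (y ++ v ++ z) p h1 h1).comp (pl (x ++ u ++ y) z q h2 h2) =
      (pl (x ++ u ++ y) z q h2 h2).comp (pl x (y ++ v ++ z) p h1 h1) :=
  interchange p q x y z A A A A h1 h1 h2 h2 h2 h2 h1 h1

theorem io_lt (p q : Q PP [k] [k]) : ∀ i j : Fin 4, i < j → io p i * io q j = io q j * io p i := by
  intro i j hij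
  fin_cases i <;> fin_cases j <;> first
    | exact absurd hij (by decide)
    | exact disj [g] [g] [g, k, g, k, g] p q rfl rfl
    | exact disj [g] [g, k, g] [g, k, g] p q rfl rfl
    | exact disj [g] [g, k, g, k, g] [g] p q rfl rfl
    | exact disj [g, k, g] [g] [g, k, g] p q rfl rfl
    | exact disj [g, k, g] [g, k, g] [g] p q rfl rfl
    | exact disj [g, k, g, k, g] [g] [g] p q rfl rfl

theorem io_comm (p q : Q PP [k] [k]) (i j : Fin 4) (h : i ≠ j) : Commute (io p i) (io q j) := by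
  rcases lt_or_gt_of_ne h with h | h
  · exact io_lt p q i j h
  · exact (io_lt q p j i h).symm

theorem two_step {S : Type} {P : Pres S} {A B : List S} {p : Q P A A} {p' : Q P B B}
    {p'' : Q P A A} {E1 : Q P A B} {E2 : Q P B A}
    (h1 : p.comp E1 = E1.comp p') (h2 : p'.comp E2 = E2.comp p'') :
    p.comp (E1.comp E2) = (E1.comp E2).comp p'' := by
  rw [← Q.comp_assoc, h1, Q.comp_assoc, h2, Q.comp_assoc]

/-- loop on the left of the edge -/
theorem slideL {u v v' : List L} (x y z : List L) (p : Q PP u u) (q : Q PP v v') {A C : List L}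
    (h1 : A = x ++ u ++ (y ++ v ++ z)) (h2 : A = (x ++ u ++ y) ++ v ++ z)
    (h3 : C = x ++ u ++ (y ++ v' ++ z)) (h4 : C = (x ++ u ++ y) ++ v' ++ z) :
    (pl x (y ++ v ++ z) p h1 h1).comp (pl (x ++ u ++ y) z q h2 h4) =
      (pl (x ++ u ++ y) z q h2 h4).comp (pl x (y ++ v' ++ z) p h3 h3) :=
  interchange p q x y z A A C C h1 h1 h2 h4 h2 h4 h3 h3

/-- loop on the right of the edge -/
theorem slideR {u u' v : List L} (x y z : List L) (p : Q PP u u') (q : Q PP v v) {A B : List L}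
    (h1 : A = x ++ u ++ (y ++ v ++ z)) (h2 : A = (x ++ u ++ y) ++ v ++ z)
    (h3 : B = x ++ u' ++ (y ++ v ++ z)) (h4 : B = (x ++ u' ++ y) ++ v ++ z) :
    (pl (x ++ u ++ y) z q h2 h2).comp (pl x (y ++ v ++ z) p h1 h3) =
      (pl x (y ++ v ++ z) p h1 h3).comp (pl (x ++ u' ++ y) z q h4 h4) :=
  (interchange p q x y z A B A B h1 h3 h4 h4 h2 h2 h1 h3).symm

theorem move (p : Q PP [k] [k]) : ∀ i : Fin 3, io p i.succ * tt i = tt i * io p i.castSucc := by
  intro i
  match i with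
  | 0 =>
    exact two_step (B := w1) (p' := pl [g, k, g] [g, k, g, k, g, k, g] p rfl rfl)
      (slideL [g, k, g] [] [k, g, k, g] p e0 rfl rfl rfl rfl)
      (slideR [] [] [g, k, g, k, g, k, g] e0.inv p rfl rfl rfl rfl)
  | 1 =>
    exact two_step (B := w1) (p' := pl [g, k, g, k, g] [g, k, g, k, g] p rfl rfl)
      (slideL [g, k, g, k, g] [] [k, g] p e0 rfl rfl rfl rfl)
      (slideR [g, k] [] [g, k, g, k, g] e0.inv p rfl rfl rfl rfl)
  | 2 =>
    exact two_step (B := w1) (p' := pl [g, k, g, k, g, k, g] [g, k, g] p rfl rfl)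
      (slideL [g, k, g, k, g, k, g] [] [] p e0 rfl rfl rfl rfl)
      (slideR [g, k, g, k] [] [g, k, g] e0.inv p rfl rfl rfl rfl)

theorem away (p : Q PP [k] [k]) : ∀ (i : Fin 3) (j : Fin 4), j ≠ i.castSucc → j ≠ i.succ →
    io p j * tt i = tt i * io p j := by
  intro i j h1 h2
  match i, j, h1, h2 with
  | 0, 0, h1, _ => exact absurd rfl h1
  | 0, 1, _, h2 => exact absurd rfl h2
  | 0, 2, _, _ =>
    exact two_step (B := w1) (p' := pl [g, k, g, k, g, k, g] [g, k, g] p rfl rfl)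
      (slideR [g, k, g, k] [] [g, k, g] e0 p rfl rfl rfl rfl)
      (slideR [] [k, g, k, g] [g, k, g] e0.inv p rfl rfl rfl rfl)
  | 0, 3, _, _ =>
    exact two_step (B := w1) (p' := pl [g, k, g, k, g, k, g, k, g] [g] p rfl rfl)
      (slideR [g, k, g, k] [k, g] [g] e0 p rfl rfl rfl rfl)
      (slideR [] [k, g, k, g, k, g] [g] e0.inv p rfl rfl rfl rfl)
  | 1, 0, _, _ =>
    exact two_step (B := w1) (p' := pl [g] [g, k, g, k, g, k, g, k, g] p rfl rfl)
      (slideL [g] [g, k, g, k] [k, g] p e0 rfl rfl rfl rfl)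
      (slideL [g] [] [k, g, k, g, k, g] p e0.inv rfl rfl rfl rfl)
  | 1, 1, h1, _ => exact absurd rfl h1
  | 1, 2, _, h2 => exact absurd rfl h2
  | 1, 3, _, _ =>
    exact two_step (B := w1) (p' := pl [g, k, g, k, g, k, g, k, g] [g] p rfl rfl)
      (slideR [g, k, g, k, g, k] [] [g] e0 p rfl rfl rfl rfl)
      (slideR [g, k] [k, g, k, g] [g] e0.inv p rfl rfl rfl rfl)
  | 2, 0, _, _ =>
    exact two_step (B := w1) (p' := pl [g] [g, k, g, k, g, k, g, k, g] p rfl rfl)
      (slideL [g] [g, k, g, k, g, k] [] p e0 rfl rfl rfl rfl)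
      (slideL [g] [g, k] [k, g, k, g] p e0.inv rfl rfl rfl rfl)
  | 2, 1, _, _ =>
    exact two_step (B := w1) (p' := pl [g, k, g] [g, k, g, k, g, k, g] p rfl rfl)
      (slideL [g, k, g] [g, k, g, k] [] p e0 rfl rfl rfl rfl)
      (slideL [g, k, g] [] [k, g, k, g] p e0.inv rfl rfl rfl rfl)
  | 2, 2, h1, _ => exact absurd rfl h1
  | 2, 3, _, h2 => exact absurd rfl h2

theorem cc_comm0 (p : Q PP [k] [k]) : io p 0 * cc = cc * io p 0 :=
  disj [g] [g] [g, k, g] p lc rfl rfl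

theorem cc_comm3 (p : Q PP [k] [k]) : cc * io p 3 = io p 3 * cc :=
  disj [g, k, g] [g] [g] lc p rfl rfl

theorem isConfig : IsConfig (io lu) (io lv) tt cc where
  comm i j h := ⟨io_comm lu lu i j h, io_comm lu lv i j h, io_comm lv lv i j h⟩
  move i := ⟨(move lu i).symm, (move lv i).symm⟩
  away i j h1 h2 := ⟨(away lu i j h1 h2).symm, (away lv i j h1 h2).symm⟩
  cU := ⟨(cc_comm0 lu).symm, (cc_comm0 lv).symm, cc_comm3 lu, cc_comm3 lv⟩

end Pool.Agent.H97R3.Example
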