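import Mathlib

set_option autoImplicit false

namespace Pool.Agent.H97R3.LR

open Equiv

section Close
/-! ### Closing the strings of a permutation inside a subset -/
variable {Om : Type} (Z : Set Om)

/-- no infinite backward string ends in `Z` and no infinite forward string starts in `Z` -/
def Tame (σ : Perm Om) : Prop :=
  (∀ u ∈ Z, σ u ∉ Z → ∃ i : ℕ, (σ⁻¹ ^ (i + 1)) u ∉ Z) ∧
  (∀ u ∈ Z, σ⁻¹ u ∉ Z → ∃ i : ℕ, (σ ^ (i + 1)) u ∉ Z)

open Classical in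
/-- follow `σ` inside `Z`; at the end of a string jump back to its beginning -/
noncomputable def cl (σ : Perm Om) (u : Om) : Om :=
  if σ u ∈ Z then σ u
  else if h : ∃ i : ℕ, (σ⁻¹ ^ (i + 1)) u ∉ Z then (σ⁻¹ ^ (Nat.find h)) u else u

variable {Z}

theorem Tame.inv {σ : Perm Om} (h : Tame Z σ) : Tame Z σ⁻¹ := by
  refine ⟨?_, ?_⟩
  · intro u hu hv
    simpa using h.2 u hu hv
  · intro u hu hv
    have := h.1 u hu (by simpa using hv)
    simpa using this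

theorem cl_of_mem {σ : Perm Om} {u : Om} (h : σ u ∈ Z) : cl Z σ u = σ u := by
  unfold cl
  rw [if_pos h]

theorem cl_exists {σ : Perm Om} (hσ : Tame Z σ) {u : Om} (hu : u ∈ Z) (h : σ u ∉ Z) :
    ∃ m : ℕ, cl Z σ u = (σ⁻¹ ^ m) u ∧ (∀ j ≤ m, (σ⁻¹ ^ j) u ∈ Z) ∧ (σ⁻¹ ^ (m + 1)) u ∉ Z := by
  have hex := hσ.1 u hu h
  classical
  refine ⟨Nat.find hex, ?_, ?_, Nat.find_spec hex⟩
  · unfold cl
    rw [if_neg h, dif_pos hex]

  · intro j hj
    rcases Nat.eq_zero_or_pos j with h0 | h0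
    · subst h0
      simpa using hu
    · have := Nat.find_min hex (m := j - 1) (by omega)
      push Not at this
      have e : j - 1 + 1 = j := by omega
      rwa [e] at this

theorem cl_unique {σ : Perm Om} {u : Om} (h : σ u ∉ Z) {m : ℕ}
    (h1 : ∀ j ≤ m, (σ⁻¹ ^ j) u ∈ Z) (h2 : (σ⁻¹ ^ (m + 1)) u ∉ Z) : cl Z σ u = (σ⁻¹ ^ m) u := by
  classical
  have hex : ∃ i : ℕ, (σ⁻¹ ^ (i + 1)) u ∉ Z := ⟨m, h2⟩
  have : Nat.find hex = m := by
    rw [Nat.find_eq_iff]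
    refine ⟨h2, ?_⟩
    intro n hn
    push Not
    exact h1 (n + 1) (by omega)
  unfold cl
  rw [if_neg h, dif_pos hex]
  have h3 : Nat.find (p := fun i => (σ⁻¹ ^ (i + 1)) u ∉ Z) hex = m := this
  congr 2

theorem cl_mem {σ : Perm Om} (hσ : Tame Z σ) {u : Om} (hu : u ∈ Z) : cl Z σ u ∈ Z := by
  by_cases h : σ u ∈ Z
  · rw [cl_of_mem h]; exact h
  · obtain ⟨m, h1, h2, _⟩ := cl_exists hσ hu h
    rw [h1]
    exact h2 m le_rfl

theorem cl_cl {σ : Perm Om} (hσ : Tame Z σ) {u : Om} (hu : u ∈ Z) :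
    cl Z σ⁻¹ (cl Z σ u) = u := by
  by_cases h : σ u ∈ Z
  · rw [cl_of_mem h]
    have : σ⁻¹ (σ u) ∈ Z := by simpa using hu
    rw [cl_of_mem this]
    simp
  · obtain ⟨m, h1, h2, h3⟩ := cl_exists hσ hu h
    rw [h1]
    have e0 : σ⁻¹ ((σ⁻¹ ^ m) u) = (σ⁻¹ ^ (m + 1)) u := by
      rw [pow_succ', Perm.mul_apply]
    have key : ∀ j ≤ m, (σ⁻¹⁻¹ ^ j) ((σ⁻¹ ^ m) u) = (σ⁻¹ ^ (m - j)) u := by
      intro j hj
      rw [inv_inv, ← Perm.mul_apply]
      congr 1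
      have : σ⁻¹ ^ m = σ⁻¹ ^ j * σ⁻¹ ^ (m - j) := by rw [← pow_add]; congr 1; omega
      rw [this, ← mul_assoc, inv_pow, mul_inv_cancel, one_mul]
    have hne : σ⁻¹ ((σ⁻¹ ^ m) u) ∉ Z := by rw [e0]; exact h3
    have := cl_unique (Z := Z) (σ := σ⁻¹) (u := (σ⁻¹ ^ m) u) hne (m := m) (by
      intro j hj
      rw [key j hj]
      exact h2 _ (by omega)) (by
      have e1 : (σ⁻¹⁻¹ ^ (m + 1)) ((σ⁻¹ ^ m) u) = σ u := by
        rw [pow_succ', Perm.mul_apply, key m le_rfl]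
        simp
      rw [e1]
      exact h)
    rw [this, key m le_rfl]
    simp

/-- the closed-up permutation of `Z` -/
noncomputable def clP {σ : Perm Om} (hσ : Tame Z σ) : Perm Z where
  toFun u := ⟨cl Z σ u, cl_mem hσ u.2⟩
  invFun u := ⟨cl Z σ⁻¹ u, cl_mem hσ.inv u.2⟩
  left_inv u := Subtype.ext (cl_cl hσ u.2)
  right_inv u := by
    apply Subtype.ext
    have := cl_cl hσ.inv u.2
    simpa using this

/-- naturality -/
theorem cl_conj {σ τ α : Perm Om} (hσ : Tame Z σ) (hα : ∀ u, u ∈ Z ↔ α u ∈ Z)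
    (h : ∀ u, α (σ u) = τ (α u)) {u : Om} (hu : u ∈ Z) : α (cl Z σ u) = cl Z τ (α u) := by
  have hinv : ∀ u, α (σ⁻¹ u) = τ⁻¹ (α u) := by
    intro u
    rw [Perm.eq_inv_iff_eq, ← h]
    simp
  have hpow : ∀ (j : ℕ) u, α ((σ⁻¹ ^ j) u) = (τ⁻¹ ^ j) (α u) := by
    intro j
    induction j with
    | zero => intro u; simp
    | succ j ih =>
      intro u
      rw [pow_succ', Perm.mul_apply, hinv, ih, pow_succ', Perm.mul_apply]
  by_cases hm : σ u ∈ Z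
  · have hm' : τ (α u) ∈ Z := by rw [← h, ← hα]; exact hm
    rw [cl_of_mem hm, cl_of_mem hm', h]
  · have hm' : τ (α u) ∉ Z := by rw [← h, ← hα]; exact hm
    obtain ⟨m, h1, h2, h3⟩ := cl_exists hσ hu hm
    rw [h1, hpow]
    symm
    apply cl_unique hm'
    · intro j hj
      rw [← hpow, ← hα]
      exact h2 j hj
    · rw [← hpow, ← hα]
      exact h3

end Close

end Pool.Agent.H97R3.LR
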