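import Mathlib
import Pool.Agent.H97R3.LR

set_option autoImplicit false

namespace Pool.Agent.H97R3.LR

open Equiv

/-- `A` acts on the free group on the `A`-set `X` by permuting the free basis. -/
def permAct (A X : Type) [Group A] [MulAction A X] : A →* MulAut (FreeGroup X) where
  toFun a := FreeGroup.freeGroupCongr (MulAction.toPerm a)
  map_one' := by
    ext x
    have h : (⇑(MulAction.toPerm (1 : A)) : X → X) = id := by
      ext y
      simp
    simp [h]
  map_mul' a b := by
    ext x
    induction x using FreeGroup.induction_on with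
    | C1 => simp
    | of x => simp [mul_smul]
    | inv_of x _ => simp [mul_smul]
    | mul x y hx hy => rw [map_mul, hx, hy, map_mul]

section
variable {A X : Type} [Group A] [MulAction A X]

abbrev G0 (A X : Type) [Group A] [MulAction A X] : Type := FreeGroup X ⋊[permAct A X] A

open SemidirectProduct

/-- generators -/
def gx (x : X) : G0 A X := inl (FreeGroup.of x)
def ga (a : A) : G0 A X := inr a

theorem conj_gx (a : A) (x : X) : ga a * gx x = gx (a • x) * (ga a : G0 A X) := by
  have h : (inl (permAct A X a (FreeGroup.of x)) : G0 A X) = inr a * inl (FreeGroup.of x) * inr a⁻¹ :=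
    inl_aut a (FreeGroup.of x)
  have h2 : permAct A X a (FreeGroup.of x) = FreeGroup.of (a • x) := by
    simp [permAct]
  rw [h2] at h
  unfold ga gx
  rw [h]
  simp [mul_assoc]

theorem gen_induction {p : G0 A X → Prop} (h1 : p 1) (hx : ∀ x, p (gx x)) (hxi : ∀ x, p (gx x)⁻¹)
    (ha : ∀ a, p (ga a)) (hm : ∀ g g', p g → p g' → p (g * g')) (g : G0 A X) : p g := by
  have hf : ∀ f : FreeGroup X, p (inl f) := by
    intro f
    induction f using FreeGroup.induction_on with
    | C1 => simpa using h1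
    | of x => exact hx x
    | inv_of x _ =>
      have := hxi x
      unfold gx at this
      rwa [← map_inv] at this
    | mul x y h1 h2 =>
      rw [map_mul]
      exact hm _ _ h1 h2
  rw [← inl_left_mul_inr_right g]
  exact hm _ _ (hf _) (ha _)

variable (H : Subgroup (G0 A X)) (T : Set (G0 A X))

def ZZ : Set (G0 A X) := {g | ∃ a : A, ∃ t ∈ T, ∃ h ∈ H, g = ga a * t * h}

variable {H T}

theorem ZZ_right {u h : G0 A X} (hh : h ∈ H) : u ∈ ZZ H T ↔ u * h ∈ ZZ H T := by
  constructor
  · rintro ⟨a, t, ht, h', hh', rfl⟩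
    exact ⟨a, t, ht, h' * h, H.mul_mem hh' hh, by group⟩
  · rintro ⟨a, t, ht, h', hh', he⟩
    refine ⟨a, t, ht, h' * h⁻¹, H.mul_mem hh' (H.inv_mem hh), ?_⟩
    rw [← mul_assoc, ← he]
    group

theorem ZZ_left {u : G0 A X} (a : A) : u ∈ ZZ H T ↔ ga a * u ∈ ZZ H T := by
  have key : ∀ (a : A) u, u ∈ ZZ H T → ga a * u ∈ ZZ H T := by
    rintro a u ⟨b, t, ht, h', hh', rfl⟩
    refine ⟨a * b, t, ht, h', hh', ?_⟩
    unfold ga
    rw [map_mul]
    group
  constructor
  · exact key a u
  · intro h
    have := key a⁻¹ _ h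
    unfold ga at this
    rw [← mul_assoc, ← map_mul] at this
    simpa using this

theorem tame [Finite A] (hT : T.Finite) (x : G0 A X) : Tame (ZZ H T) (Equiv.mulLeft x) := by
  have hfin : ∃ T' : Set (G0 A X), T'.Finite ∧ ∀ u ∈ ZZ H T, ∃ t ∈ T', t⁻¹ * u ∈ H := by
    refine ⟨(fun p : A × G0 A X => ga p.1 * p.2) '' (Set.univ ×ˢ T),
      (Set.finite_univ.prod hT).image _, ?_⟩
    rintro u ⟨a, t, ht, h, hh, rfl⟩
    refine ⟨ga a * t, ⟨(a, t), ⟨Set.mem_univ _, ht⟩, rfl⟩, ?_⟩
    have : (ga a * t)⁻¹ * (ga a * t * h) = h := by group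
    rw [this]
    exact hh
  obtain ⟨T', hT', hT2⟩ := hfin
  have key : ∀ (x u : G0 A X), (∀ i : ℕ, (x⁻¹) ^ i * u ∈ ZZ H T) → x * u ∈ ZZ H T := by
    intro x u hu
    choose f hf1 hf2 using fun i => hT2 _ (hu i)
    have : Finite T' := hT'
    obtain ⟨i, j, hij, he⟩ := Finite.exists_ne_map_eq_of_infinite (fun i : ℕ => (⟨f i, hf1 i⟩ : T'))
    have he' : f i = f j := congrArg Subtype.val he
    have main : ∀ i j : ℕ, i < j → f i = f j → x * u ∈ ZZ H T := by
      intro i j hlt he
      have m1 := H.mul_mem (H.inv_mem (hf2 i)) (hf2 j)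
      rw [← he] at m1
      have e1 : ((f i)⁻¹ * (x⁻¹ ^ i * u))⁻¹ * ((f i)⁻¹ * (x⁻¹ ^ j * u)) =
          u⁻¹ * (x ^ i * (x⁻¹) ^ j) * u := by
        group
      rw [e1] at m1
      obtain ⟨n, rfl⟩ : ∃ n, j = i + (n + 1) := ⟨j - i - 1, by omega⟩
      have e2 : x ^ i * x⁻¹ ^ (i + (n + 1)) = x⁻¹ ^ (n + 1) := by
        rw [pow_add, ← mul_assoc, inv_pow, mul_inv_cancel, one_mul]
      rw [e2] at m1
      -- `x⁻¹ ^ n * u = (x * u) * h`
      have e3 : x⁻¹ ^ n * u = (x * u) * (u⁻¹ * x⁻¹ ^ (n + 1) * u) := by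
        rw [pow_succ']
        group
      have m2 := hu n
      rw [e3, ← ZZ_right m1] at m2
      exact m2
    rcases lt_or_gt_of_ne hij with h | h
    · exact main i j h he'
    · exact main j i h he'.symm
  have powL : ∀ (y : G0 A X) (i : ℕ) (u : G0 A X), ((Equiv.mulLeft y) ^ i) u = y ^ i * u := by
    intro y i
    induction i with
    | zero => intro u; simp
    | succ i ih =>
      intro u
      rw [pow_succ', Perm.mul_apply, ih, pow_succ', Equiv.coe_mulLeft, mul_assoc]
  have invL : (Equiv.mulLeft x)⁻¹ = Equiv.mulLeft x⁻¹ := by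
    ext1 u
    simp
  refine ⟨?_, ?_⟩
  · intro u hu hxu
    by_contra hcon
    push Not at hcon
    apply hxu
    apply key x u
    intro i
    rcases Nat.eq_zero_or_pos i with h0 | h0
    · subst h0; simpa using hu
    · have := hcon (i - 1)
      rw [invL, powL] at this
      have e : i - 1 + 1 = i := by omega
      rwa [e] at this
  · intro u hu hxu
    by_contra hcon
    push Not at hcon
    rw [invL] at hxu
    apply hxu
    apply key x⁻¹ u
    intro i
    rcases Nat.eq_zero_or_pos i with h0 | h0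
    · subst h0; simpa using hu
    · have := hcon (i - 1)
      rw [powL] at this
      have e : i - 1 + 1 = i := by omega
      rw [e] at this
      simpa using this

end

end Pool.Agent.H97R3.LR
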