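import Mathlib
import Pool.Agent.H97R3.LRMain

set_option autoImplicit false

namespace Pool.Agent.H97R3.LR

open Equiv SemidirectProduct

section
variable {A X : Type} [Group A] [MulAction A X] [Finite A]
variable {H : Subgroup (G0 A X)} {T : Set (G0 A X)}

/-- action of `A` on `ZZ` -/
def actA (H : Subgroup (G0 A X)) (T : Set (G0 A X)) : A →* Perm (ZZ H T) where
  toFun a :=
    { toFun := fun u => ⟨ga a * u.1, (ZZ_left a).mp u.2⟩
      invFun := fun u => ⟨ga a⁻¹ * u.1, (ZZ_left a⁻¹).mp u.2⟩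
      left_inv := fun u => by
        apply Subtype.ext
        show ga a⁻¹ * (ga a * u.1) = u.1
        unfold ga
        rw [← mul_assoc, ← map_mul]
        simp
      right_inv := fun u => by
        apply Subtype.ext
        show ga a * (ga a⁻¹ * u.1) = u.1
        unfold ga
        rw [← mul_assoc, ← map_mul]
        simp }
  map_one' := by
    ext1 u
    apply Subtype.ext
    show ga 1 * u.1 = u.1
    unfold ga
    simp
  map_mul' a b := by
    ext1 u
    apply Subtype.ext
    show ga (a * b) * u.1 = ga a * (ga b * u.1)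
    unfold ga
    rw [map_mul, mul_assoc]

noncomputable def actX (H : Subgroup (G0 A X)) (hT : T.Finite) : FreeGroup X →* Perm (ZZ H T) :=
  FreeGroup.lift (fun x => clP (tame (H := H) hT (gx x)))

theorem compat (hT : T.Finite) (a : A) :
    (actX H hT).comp ((permAct A X a).toMonoidHom) =
      ((MulAut.conj (actA H T a)).toMonoidHom).comp (actX H hT) := by
  apply FreeGroup.ext_hom
  intro x
  have h2 : permAct A X a (FreeGroup.of x) = FreeGroup.of (a • x) := by
    simp [permAct]
  show actX H hT (permAct A X a (FreeGroup.of x)) =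
    MulAut.conj (actA H T a) (actX H hT (FreeGroup.of x))
  rw [h2, MulAut.conj_apply]
  unfold actX
  rw [FreeGroup.lift_apply_of, FreeGroup.lift_apply_of, eq_mul_inv_iff_mul_eq]
  ext1 u
  apply Subtype.ext
  have := cl_conj (α := Equiv.mulLeft (ga a)) (τ := Equiv.mulLeft (gx (a • x)))
    (tame (H := H) hT (gx x)) (fun u => ZZ_left a) (by
      intro u
      show ga a * (gx x * u) = gx (a • x) * (ga a * u)
      rw [← mul_assoc, conj_gx, mul_assoc]) u.2
  exact this.symm

/-- the modified action of the group on `ZZ` -/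
noncomputable def Psi (H : Subgroup (G0 A X)) (hT : T.Finite) : G0 A X →* Perm (ZZ H T) :=
  SemidirectProduct.lift (actX H hT) (actA H T) (compat hT)

theorem Psi_gx (hT : T.Finite) (x : X) : Psi H hT (gx x) = clP (tame (H := H) hT (gx x)) := by
  unfold Psi
  conv_lhs => unfold gx
  rw [SemidirectProduct.lift_inl]
  unfold actX
  rw [FreeGroup.lift_apply_of]

theorem Psi_ga (hT : T.Finite) (a : A) : Psi H hT (ga a) = actA H T a := by
  unfold Psi ga
  rw [SemidirectProduct.lift_inr]

/-- right multiplication by an element of `H` -/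
def rR {h : G0 A X} (hh : h ∈ H) : Perm (ZZ H T) where
  toFun u := ⟨u.1 * h, (ZZ_right hh).mp u.2⟩
  invFun u := ⟨u.1 * h⁻¹, (ZZ_right (H.inv_mem hh)).mp u.2⟩
  left_inv u := by apply Subtype.ext; simp
  right_inv u := by apply Subtype.ext; simp

theorem Psi_rR (hT : T.Finite) {h : G0 A X} (hh : h ∈ H) (g : G0 A X) :
    Commute (Psi H hT g) (rR (T := T) hh) := by
  have hx : ∀ x, Commute (Psi H hT (gx x)) (rR (T := T) hh) := by
    intro x
    rw [Psi_gx]
    show _ * _ = _ * _
    ext1 u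
    apply Subtype.ext
    have := cl_conj (α := Equiv.mulRight h) (τ := Equiv.mulLeft (gx x))
      (tame (H := H) hT (gx x)) (fun u => ZZ_right hh) (by
        intro u
        show (gx x * u) * h = gx x * (u * h)
        rw [mul_assoc]) u.2
    exact this.symm
  induction g using gen_induction with
  | h1 => rw [map_one]; exact Commute.one_left _
  | hx x => exact hx x
  | hxi x => rw [map_inv]; exact (hx x).inv_left
  | ha a =>
    rw [Psi_ga]
    show _ * _ = _ * _
    ext1 u
    apply Subtype.ext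
    show ga a * (u.1 * h) = (ga a * u.1) * h
    rw [mul_assoc]
  | hm g g' h1 h2 => rw [map_mul]; exact h1.mul_left h2

/-- paths that stay inside `ZZ` are not modified -/
theorem path (g : G0 A X) : ∃ Tg : Set (G0 A X), Tg.Finite ∧
    ∀ (H : Subgroup (G0 A X)) (T : Set (G0 A X)) (hT : T.Finite) (u : ZZ H T),
      (∀ t ∈ Tg, t * u.1 ∈ ZZ H T) → ((Psi H hT g u : ZZ H T) : G0 A X) = g * u.1 := by
  induction g using gen_induction with
  | h1 =>
    refine ⟨∅, Set.finite_empty, ?_⟩
    intro H T hT u _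
    simp
  | hx x =>
    refine ⟨{gx x}, Set.finite_singleton _, ?_⟩
    intro H T hT u hu
    rw [Psi_gx]
    exact cl_of_mem (hu _ rfl)
  | hxi x =>
    refine ⟨{(gx x)⁻¹}, Set.finite_singleton _, ?_⟩
    intro H T hT u hu
    rw [map_inv, Psi_gx]
    have h1 : (gx x)⁻¹ * u.1 ∈ ZZ H T := hu _ rfl
    have h2 : (clP (tame (H := H) hT (gx x))) ⟨(gx x)⁻¹ * u.1, h1⟩ = u := by
      apply Subtype.ext
      have : (Equiv.mulLeft (gx x)) ((gx x)⁻¹ * u.1) ∈ ZZ H T := by
        simp
      have h3 := cl_of_mem this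
      show cl (ZZ H T) (Equiv.mulLeft (gx x)) ((gx x)⁻¹ * u.1) = u.1
      rw [h3]
      simp
    have h4 : (clP (tame (H := H) hT (gx x)))⁻¹ u = ⟨(gx x)⁻¹ * u.1, h1⟩ := by
      rw [Perm.inv_eq_iff_eq, h2]
    rw [h4]
  | ha a =>
    refine ⟨∅, Set.finite_empty, ?_⟩
    intro H T hT u _
    rw [Psi_ga]
    rfl
  | hm g g' h1 h2 =>
    obtain ⟨T1, hT1, h1⟩ := h1
    obtain ⟨T2, hT2, h2⟩ := h2
    refine ⟨T2 ∪ (fun t => t * g') '' T1, hT2.union (hT1.image _), ?_⟩
    intro H T hT u hu
    have e2 := h2 H T hT u (fun t ht => hu t (Or.inl ht))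
    have e1 := h1 H T hT (Psi H hT g' u) (by
      intro t ht
      rw [e2, ← mul_assoc]
      exact hu _ (Or.inr ⟨t, ht, rfl⟩))
    rw [map_mul, Perm.mul_apply, e1, e2, mul_assoc]

/-- **Equivariant M. Hall theorem.** -/
theorem main (H : Subgroup (G0 A X)) (hH : H.FG) :
    ∃ K : Subgroup (G0 A X), K.FiniteIndex ∧ H ≤ K ∧
      ∃ ρ : K →* G0 A X, (∀ k : K, ρ k ∈ H) ∧
        ∀ h : G0 A X, ∀ hk : h ∈ K, h ∈ H → ρ ⟨h, hk⟩ = h := by
  obtain ⟨S, hS⟩ := hH
  choose Tg hTg1 hTg2 using fun g : G0 A X => path g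
  set T : Set (G0 A X) := {1} ∪ ⋃ s ∈ S, Tg s with hTdef
  have hT : T.Finite := (Set.finite_singleton _).union
    (S.finite_toSet.biUnion (fun s _ => hTg1 s))
  have hTZ : ∀ t ∈ T, t ∈ ZZ H T := by
    intro t ht
    refine ⟨1, t, ht, 1, H.one_mem, ?_⟩
    unfold ga
    simp
  have h1Z : (1 : G0 A X) ∈ ZZ H T := hTZ 1 (Or.inl rfl)
  let o : ZZ H T := ⟨1, h1Z⟩
  let P := Psi H hT
  have hP : ∀ s ∈ S, ((P s o : ZZ H T) : G0 A X) = s := by
    intro s hs
    have := hTg2 s H T hT o (by
      intro t ht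
      show t * 1 ∈ ZZ H T
      rw [mul_one]
      apply hTZ
      right
      exact Set.mem_biUnion hs ht)
    rw [this]
    exact mul_one s
  have hor : ∀ (h : G0 A X) (hh : h ∈ H), (rR (T := T) hh o : ZZ H T).1 = h := by
    intro h hh
    exact one_mul h
  -- equivariance
  have heq : ∀ (g h : G0 A X) (hh : h ∈ H) (u : ZZ H T) (hu : u.1 = h),
      ((P g u : ZZ H T) : G0 A X) = (P g o : ZZ H T).1 * h := by
    intro g h hh u hu
    have hu' : u = rR (T := T) hh o := Subtype.ext (by rw [hor, hu])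
    have hc := Psi_rR hT hh g
    have := congrArg (fun f : Perm (ZZ H T) => (f o : ZZ H T).1) hc.eq
    simp only [Perm.mul_apply] at this
    rw [hu']
    exact this
  let K : Subgroup (G0 A X) :=
    { carrier := {g | (P g o : ZZ H T).1 ∈ H}
      one_mem' := by
        show (P 1 o : ZZ H T).1 ∈ H
        rw [map_one]
        exact H.one_mem
      mul_mem' := by
        intro g g' hg hg'
        show (P (g * g') o : ZZ H T).1 ∈ H
        rw [map_mul, Perm.mul_apply, heq g _ hg' (P g' o) rfl]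
        exact H.mul_mem hg hg'
      inv_mem' := by
        intro g hg
        show (P g⁻¹ o : ZZ H T).1 ∈ H
        have h1 := heq g⁻¹ _ hg (P g o) rfl
        rw [← Perm.mul_apply, ← map_mul, inv_mul_cancel, map_one] at h1
        have h2 : (1 : G0 A X) = (P g⁻¹ o : ZZ H T).1 * (P g o : ZZ H T).1 := h1
        have h3 : (P g⁻¹ o : ZZ H T).1 = ((P g o : ZZ H T).1)⁻¹ := by
          rw [eq_inv_iff_mul_eq_one]
          exact h2.symm
        rw [h3]
        exact H.inv_mem hg }
  let ρ : K →* G0 A X :=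
    { toFun := fun g => (P g.1 o : ZZ H T).1
      map_one' := by
        show (P 1 o : ZZ H T).1 = 1
        rw [map_one]
        rfl
      map_mul' := by
        intro g g'
        show (P (g.1 * g'.1) o : ZZ H T).1 = _
        rw [map_mul, Perm.mul_apply, heq g.1 _ g'.2 (P g'.1 o) rfl] }
  have hSK : ∀ s ∈ S, s ∈ K := by
    intro s hs
    show (P s o : ZZ H T).1 ∈ H
    rw [hP s hs, ← hS]
    exact Subgroup.subset_closure hs
  have hHK : H ≤ K := by
    rw [← hS, Subgroup.closure_le]
    exact hSK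
  have hρ : ∀ h (hh : h ∈ H), ρ ⟨h, hHK hh⟩ = h := by
    intro h hh
    have hh' : h ∈ Subgroup.closure (S : Set (G0 A X)) := by rw [hS]; exact hh
    have : ∀ h (_ : h ∈ Subgroup.closure (S : Set (G0 A X))), (P h o : ZZ H T).1 = h := by
      intro h hh
      induction hh using Subgroup.closure_induction with
      | mem s hs => exact hP s hs
      | one => rw [map_one]; rfl
      | mul g g' hg hg' e e' =>
        rw [map_mul, Perm.mul_apply, heq g g' (by rw [← hS]; exact hg') (P g' o) e', e]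
      | inv g hg e =>
        have hgH : g ∈ H := by rw [← hS]; exact hg
        have h1 := heq g⁻¹ g hgH (P g o) e
        rw [← Perm.mul_apply, ← map_mul, inv_mul_cancel, map_one] at h1
        have h2 : (1 : G0 A X) = (P g⁻¹ o : ZZ H T).1 * g := h1
        rw [eq_comm, ← eq_inv_iff_mul_eq_one] at h2
        exact h2
    exact this h hh'
  refine ⟨K, ?_, hHK, ρ, fun k => k.2, fun h _ hh => hρ h hh⟩
  -- finite index
  have hfin : ∃ T' : Set (G0 A X), T'.Finite ∧ ∀ u ∈ ZZ H T, ∃ t ∈ T', t⁻¹ * u ∈ H := by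
    refine ⟨(fun p : A × G0 A X => ga p.1 * p.2) '' (Set.univ ×ˢ T),
      (Set.finite_univ.prod hT).image _, ?_⟩
    rintro u ⟨a, t, ht, h, hh, rfl⟩
    refine ⟨ga a * t, ⟨(a, t), ⟨Set.mem_univ _, ht⟩, rfl⟩, ?_⟩
    have : (ga a * t)⁻¹ * (ga a * t * h) = h := by group
    rw [this]
    exact hh
  obtain ⟨T', hT', hT2⟩ := hfin
  choose f hf1 hf2 using fun g : G0 A X => hT2 _ (P g o).2
  have hinj : ∀ g g', f g = f g' → g⁻¹ * g' ∈ K := by
    intro g g' he
    have m1 := H.mul_mem (H.inv_mem (hf2 g)) (hf2 g')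
    rw [← he] at m1
    have e1 : ((f g)⁻¹ * (P g o).1)⁻¹ * ((f g)⁻¹ * (P g' o).1) =
        ((P g o).1)⁻¹ * (P g' o).1 := by group
    rw [e1] at m1
    show (P (g⁻¹ * g') o : ZZ H T).1 ∈ H
    -- P g' o = (P g o) * m, hence P (g⁻¹ g') o = P g⁻¹ (P g o * m) = m
    have hc := Psi_rR hT m1 g
    have h3 := congrArg (fun f : Perm (ZZ H T) => f o) hc.eq
    simp only [Perm.mul_apply] at h3
    have h4 : rR (T := T) m1 (Psi H hT g o) = P g' o := by
      apply Subtype.ext
      show (P g o).1 * (((P g o).1)⁻¹ * (P g' o).1) = (P g' o).1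
      group
    rw [h4] at h3
    have h5 : P (g⁻¹ * g') o = rR (T := T) m1 o := by
      rw [map_mul, Perm.mul_apply, map_inv]
      exact (congrArg (fun v => (P g)⁻¹ v) h3.symm).trans ((P g).symm_apply_apply _)
    rw [h5, hor]
    exact m1
  have hT'f : Finite T' := hT'
  have : Finite (G0 A X ⧸ K) := by
    apply Finite.of_injective (fun q : G0 A X ⧸ K => (⟨f (Quotient.out q), hf1 _⟩ : T'))
    intro q q' hq
    have h1 : f (Quotient.out q) = f (Quotient.out q') := congrArg Subtype.val hq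
    have h2 := hinj _ _ h1
    rw [← QuotientGroup.eq] at h2
    rw [← Quotient.out_eq' q, ← Quotient.out_eq' q']
    exact h2
  exact Subgroup.finiteIndex_of_finite_quotient

end

/-- the property passes to subgroups: every group that embeds in some `F(X) ⋊ A` has it -/
theorem main_embed {A X G : Type} [Group A] [MulAction A X] [Finite A] [Group G]
    (f : G →* G0 A X) (hf : Function.Injective f) (H : Subgroup G) (hH : H.FG) :
    ∃ K : Subgroup G, K.FiniteIndex ∧ H ≤ K ∧
      ∃ ρ : K →* G, (∀ k : K, ρ k ∈ H) ∧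
        ∀ h : G, ∀ hk : h ∈ K, h ∈ H → ρ ⟨h, hk⟩ = h := by
  have hH' : (H.map f).FG := by
    classical
    obtain ⟨S, hS⟩ := hH
    refine ⟨S.image f, ?_⟩
    rw [← hS, MonoidHom.map_closure, Finset.coe_image]
  obtain ⟨K, hK, hHK, ρ, h1, h2⟩ := main (H.map f) hH'
  have hKf : (K.comap f).FiniteIndex := by
    constructor
    rw [Subgroup.index_comap]
    exact (Subgroup.instFiniteIndex_subgroupOf K f.range).index_ne_zero
  let e : H ≃* H.map f := H.equivMapOfInjective f hf
  refine ⟨K.comap f, hKf, ?_, ?_⟩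
  · intro h hh
    exact hHK ⟨h, hh, rfl⟩
  · let ρ0 : K.comap f →* H.map f :=
      (ρ.comp ((f.comp (K.comap f).subtype).codRestrict K (fun k => k.2))).codRestrict (H.map f)
        (fun k => h1 _)
    refine ⟨H.subtype.comp (e.symm.toMonoidHom.comp ρ0), ?_, ?_⟩
    · intro k
      exact (e.symm (ρ0 k)).2
    · intro h hk hh
      have : ρ0 ⟨h, hk⟩ = e ⟨h, hh⟩ := by
        apply Subtype.ext
        exact h2 (f h) hk ⟨h, hh, rfl⟩
      show ((e.symm (ρ0 ⟨h, hk⟩) : H) : G) = h
      rw [this]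
      simp

end Pool.Agent.H97R3.LR
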