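import Mathlib
import Pool.Agent.H97R3.Example

set_option autoImplicit false

namespace Pool.Agent.H97R3.Example

open Pool.Agent.H97R3.Diag Pool.Agent.H97R3.Config Pool.Agent.H97R3.Ord Equiv
open L

/-- the bijection `{0} × ℕ → {0,1,2} × ℕ` extended by a shift -/
def T0 : Perm N2 where
  toFun x := match x with
    | (0, n) => (n % 3, n / 3)
    | (i + 1, n) => (i + 3, n)
  invFun x := if x.1 < 3 then (0, 3 * x.2 + x.1) else (x.1 - 2, x.2)
  left_inv x := by
    obtain ⟨i, n⟩ := x
    match i with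
    | 0 =>
      have h : n % 3 < 3 := Nat.mod_lt _ (by norm_num)
      simp only [h, if_true, Prod.mk.injEq, true_and]
      omega
    | i + 1 =>
      have h : ¬ (i + 3 < 3) := by omega
      simp only [h, if_false, Prod.mk.injEq, and_true]
      omega
  right_inv x := by
    obtain ⟨i, n⟩ := x
    by_cases h : i < 3
    · simp only [h, if_true, Prod.mk.injEq]
      omega
    · simp only [h, if_false]
      obtain ⟨j, rfl⟩ : ∃ j, i = j + 3 := ⟨i - 3, by omega⟩
      rfl

def FF (r : List L × List L) : Perm N2 :=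
  if r = ([g], [g, k, g]) then T0
  else if r = ([k], [p1]) then swap (0, 0) (0, 1)
  else if r = ([k], [q1]) then swap (0, 1) (0, 2)
  else if r = ([k, g, k], [d, d, d]) then swap (0, 0) (2, 0)
  else 1

theorem swap_good {a b : N2} {m : ℕ} (ha : a.1 < m) (hb : b.1 < m) :
    (∀ i n, i < m → (swap a b (i, n)).1 < m) ∧ (∀ i n, m ≤ i → swap a b (i, n) = (i - m + m, n)) := by
  constructor
  · intro i n hi
    rw [swap_apply_def]
    split_ifs
    · exact hb
    · exact ha
    · exact hi
  · intro i n hi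
    rw [swap_apply_of_ne_of_ne]
    · congr 1
      omega
    · rintro rfl
      simp at ha
      omega
    · rintro rfl
      simp at hb
      omega

theorem one_good {m : ℕ} :
    (∀ i n, i < m → ((1 : Perm N2) (i, n)).1 < m) ∧
      (∀ i n, m ≤ i → (1 : Perm N2) (i, n) = (i - m + m, n)) := by
  constructor
  · intro i n hi
    exact hi
  · intro i n hi
    rw [Perm.one_apply]
    congr 1
    omega

theorem good : Good PP FF := by
  intro r hr
  have hr' : r ∈ relL := hr
  simp only [relL, List.mem_cons, List.not_mem_nil, or_false] at hr'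
  rcases hr' with rfl | rfl | rfl | rfl | rfl | rfl | rfl | rfl | rfl | rfl
  · have hF : FF ([g], [g, k, g]) = T0 := by simp [FF]
    rw [hF]
    constructor
    · intro i n hi
      have : i = 0 := by simpa using hi
      subst this
      show n % 3 < 3
      exact Nat.mod_lt _ (by norm_num)
    · intro i n hi
      have hi' : 1 ≤ i := by simpa using hi
      obtain ⟨j, rfl⟩ : ∃ j, i = j + 1 := ⟨i - 1, by omega⟩
      rfl
  · have hF : FF ([k], [p1]) = swap (0, 0) (0, 1) := by simp [FF]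
    rw [hF]
    exact swap_good (by simp) (by simp)
  · have hF : FF ([p1], [p2]) = 1 := by simp [FF]
    rw [hF]
    exact one_good
  · have hF : FF ([p2], [k]) = 1 := by simp [FF]
    rw [hF]
    exact one_good
  · have hF : FF ([k], [q1]) = swap (0, 1) (0, 2) := by simp [FF]
    rw [hF]
    exact swap_good (by simp) (by simp)
  · have hF : FF ([q1], [q2]) = 1 := by simp [FF]
    rw [hF]
    exact one_good
  · have hF : FF ([q2], [k]) = 1 := by simp [FF]
    rw [hF]
    exact one_good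
  · have hF : FF ([k, g, k], [d, d, d]) = swap (0, 0) (2, 0) := by simp [FF]
    rw [hF]
    exact swap_good (by simp) (by simp)
  · have hF : FF ([d, d, d], [e, e, e]) = 1 := by simp [FF]
    rw [hF]
    exact one_good
  · have hF : FF ([e, e, e], [k, g, k]) = 1 := by simp [FF]
    rw [hF]
    exact one_good

theorem sh_one (m : ℕ) : sh m 1 = 1 := by
  ext1 x
  exact shf_id m x

theorem im_u1 : evHom good w0 (io lu 1) = (sh 3 (swap (0, 0) (0, 1)))⁻¹ := by
  have h : (ev FF (EPath.wh [g, k, g] [g, k, g, k, g]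
      (.cons (mkE ([k], [p1]) (by decide)) (.cons (mkE ([p1], [p2]) (by decide))
        (.cons (mkE ([p2], [k]) (by decide)) (.nil [k])))))) = sh 3 (swap (0, 0) (0, 1)) := by
    simp [ev, EPath.wh, evE, Edge.wh, mkE, FF, sh_one]
  rw [← h]
  rfl

theorem im_v1 : evHom good w0 (io lv 1) = (sh 3 (swap (0, 1) (0, 2)))⁻¹ := by
  have h : (ev FF (EPath.wh [g, k, g] [g, k, g, k, g]
      (.cons (mkE ([k], [q1]) (by decide)) (.cons (mkE ([q1], [q2]) (by decide))
        (.cons (mkE ([q2], [k]) (by decide)) (.nil [k])))))) = sh 3 (swap (0, 1) (0, 2)) := by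
    simp [ev, EPath.wh, evE, Edge.wh, mkE, FF, sh_one]
  rw [← h]
  rfl

theorem im_u2 : evHom good w0 (io lu 2) = (sh 5 (swap (0, 0) (0, 1)))⁻¹ := by
  have h : (ev FF (EPath.wh [g, k, g, k, g] [g, k, g]
      (.cons (mkE ([k], [p1]) (by decide)) (.cons (mkE ([p1], [p2]) (by decide))
        (.cons (mkE ([p2], [k]) (by decide)) (.nil [k])))))) = sh 5 (swap (0, 0) (0, 1)) := by
    simp [ev, EPath.wh, evE, Edge.wh, mkE, FF, sh_one]
  rw [← h]
  rfl

theorem im_v2 : evHom good w0 (io lv 2) = (sh 5 (swap (0, 1) (0, 2)))⁻¹ := by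
  have h : (ev FF (EPath.wh [g, k, g, k, g] [g, k, g]
      (.cons (mkE ([k], [q1]) (by decide)) (.cons (mkE ([q1], [q2]) (by decide))
        (.cons (mkE ([q2], [k]) (by decide)) (.nil [k])))))) = sh 5 (swap (0, 1) (0, 2)) := by
    simp [ev, EPath.wh, evE, Edge.wh, mkE, FF, sh_one]
  rw [← h]
  rfl

theorem im_c : evHom good w0 cc = (sh 3 (swap (0, 0) (2, 0)))⁻¹ := by
  have h : (ev FF (EPath.wh [g, k, g] [g, k, g]
      (.cons (mkE ([k, g, k], [d, d, d]) (by decide)) (.cons (mkE ([d, d, d], [e, e, e]) (by decide))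
        (.cons (mkE ([e, e, e], [k, g, k]) (by decide)) (.nil [k, g, k])))))) =
        sh 3 (swap (0, 0) (2, 0)) := by
    simp [ev, EPath.wh, evE, Edge.wh, mkE, FF, sh_one]
  rw [← h]
  rfl

theorem word_ne : word (io lu) (io lv) cc ≠ 1 := by
  intro hw
  have h1 := congrArg (evHom good w0) hw
  rw [map_one] at h1
  have h2 : evHom good w0 (word (io lu) (io lv) cc) =
      com (com ((sh 3 (swap (0, 0) (2, 0)))⁻¹ * com (sh 3 (swap (0, 0) (0, 1)))⁻¹
        (sh 3 (swap (0, 1) (0, 2)))⁻¹ * ((sh 3 (swap (0, 0) (2, 0)))⁻¹)⁻¹)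
        (com (sh 5 (swap (0, 0) (0, 1)))⁻¹ (sh 5 (swap (0, 1) (0, 2)))⁻¹))
      (com ((sh 3 (swap (0, 0) (2, 0)))⁻¹ * com (sh 5 (swap (0, 0) (0, 1)))⁻¹
        (sh 5 (swap (0, 1) (0, 2)))⁻¹ * ((sh 3 (swap (0, 0) (2, 0)))⁻¹)⁻¹)
        (com (sh 3 (swap (0, 0) (0, 1)))⁻¹ (sh 3 (swap (0, 1) (0, 2)))⁻¹)) := by
    unfold word
    simp only [map_com, map_mul, map_inv, im_c, im_u1, im_v1, im_u2, im_v2]
  rw [h2] at h1
  have h3 := congrArg (fun f : Perm N2 => f (3, 0)) h1
  revert h3
  decide +kernel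

end Pool.Agent.H97R3.Example
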