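import Pool.Agent.H97R3.SemiStab

set_option autoImplicit false
set_option linter.unusedSectionVars false

/-! The example group and its involution. -/

namespace Pool.Agent.H97R3.SemiEx

open Equiv Pool.Agent.H97R3.SemiStab

abbrev A := AddCircle (1 : ℚ)

/-- total sum -/
noncomputable def tot : (ℕ →₀ A) →+ A := Finsupp.liftAddHom (fun _ => AddMonoidHom.id A)

lemma tot_single (n : ℕ) (a : A) : tot (Finsupp.single n a) = a := by
  simp [tot]

abbrev V := (ℕ →₀ A) × (ℕ →₀ A)

/-- `G = ⊕_n (A[2^(n+1)] ⊕ A[2])` -/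
def G0 : AddSubgroup V where
  carrier := {f | (∀ n, (2 ^ (n + 1)) • f.1 n = 0) ∧ (∀ n, 2 • f.2 n = 0)}
  add_mem' := by
    rintro a b ⟨ha, ha'⟩ ⟨hb, hb'⟩
    refine ⟨fun n => ?_, fun n => ?_⟩
    · show (2 ^ (n + 1)) • (a.1 n + b.1 n) = 0
      rw [smul_add, ha, hb, add_zero]
    · show 2 • (a.2 n + b.2 n) = 0
      rw [smul_add, ha', hb', add_zero]
  zero_mem' := by
    refine ⟨fun n => ?_, fun n => ?_⟩ <;> simp
  neg_mem' := by
    rintro a ⟨ha, ha'⟩
    refine ⟨fun n => ?_, fun n => ?_⟩
    · show (2 ^ (n + 1)) • (-(a.1 n)) = 0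
      rw [smul_neg, ha, neg_zero]
    · show 2 • (-(a.2 n)) = 0
      rw [smul_neg, ha', neg_zero]

/-- the involution on the big group -/
noncomputable def sg : V →+ V where
  toFun p := (p.1 + p.2 - Finsupp.single 0 (tot p.2), p.2)
  map_zero' := by simp
  map_add' p q := by
    simp only [Prod.fst_add, Prod.snd_add, map_add, Finsupp.single_add, Prod.mk_add_mk]
    congr 1
    abel

lemma two_tot {p : V} (hp : p ∈ G0) : 2 • tot p.2 = 0 := by
  rw [← map_nsmul]
  have : 2 • p.2 = 0 := by
    refine Finsupp.ext fun n => ?_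
    exact hp.2 n
  rw [this, map_zero]

lemma sg_mem {p : V} (hp : p ∈ G0) : sg p ∈ G0 := by
  refine ⟨fun n => ?_, hp.2⟩
  show (2 ^ (n + 1)) • (p.1 n + p.2 n - Finsupp.single 0 (tot p.2) n) = 0
  have h2 : ∀ a : A, 2 • a = 0 → (2 ^ (n + 1)) • a = 0 := by
    intro a ha
    rw [pow_succ, mul_smul, ha, smul_zero]
  rw [smul_sub, smul_add, hp.1 n, h2 _ (hp.2 n)]
  rcases Nat.eq_zero_or_pos n with hn | hn
  · subst hn
    rw [Finsupp.single_eq_same, h2 _ (two_tot hp)]
    simp
  · rw [Finsupp.single_eq_of_ne (by omega)]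
    simp

lemma sg_sg {p : V} (hp : p ∈ G0) : sg (sg p) = p := by
  refine Prod.ext ?_ rfl
  show p.1 + p.2 - Finsupp.single 0 (tot p.2) + p.2 - Finsupp.single 0 (tot p.2) = p.1
  have h1 : p.2 + p.2 = 0 := by
    ext n
    have := hp.2 n
    rw [two_nsmul] at this
    exact this
  have h2 : Finsupp.single (0 : ℕ) (tot p.2) + Finsupp.single 0 (tot p.2) = 0 := by
    rw [← Finsupp.single_add, ← two_nsmul, two_tot hp, Finsupp.single_zero]
  calc p.1 + p.2 - Finsupp.single 0 (tot p.2) + p.2 - Finsupp.single 0 (tot p.2)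
      = p.1 + (p.2 + p.2) - (Finsupp.single (0 : ℕ) (tot p.2) + Finsupp.single 0 (tot p.2)) := by abel
    _ = p.1 := by rw [h1, h2]; simp

noncomputable def sgE : G0 ≃+ G0 where
  toFun p := ⟨sg p, sg_mem p.2⟩
  invFun p := ⟨sg p, sg_mem p.2⟩
  left_inv p := Subtype.ext (sg_sg p.2)
  right_inv p := Subtype.ext (sg_sg p.2)
  map_add' _ _ := Subtype.ext (map_add sg _ _)

abbrev G := Multiplicative G0

noncomputable def sigma : MulAut G := AddEquiv.toMultiplicative sgE

lemma sigma_apply (p : G0) : sigma (Multiplicative.ofAdd p) = Multiplicative.ofAdd (sgE p) := rfl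

lemma sigma_sq : sigma * sigma = 1 :=
  MulEquiv.ext fun p => Subtype.ext (sg_sg (Multiplicative.toAdd p).2)

noncomputable abbrev H := Subgroup.zpowers sigma

instance : Finite H := by
  have h : IsOfFinOrder sigma := by
    rw [isOfFinOrder_iff_pow_eq_one]
    exact ⟨2, by norm_num, by rw [pow_two]; exact sigma_sq⟩
  exact Set.Finite.to_subtype (finite_zpowers.2 h)

noncomputable abbrev phi : H →* MulAut G := (Subgroup.zpowers sigma).subtype

abbrev Gam := SemidirectProduct G H phi

noncomputable def chiG : G →* Multiplicative A :=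
  AddMonoidHom.toMultiplicative ((tot.comp (AddMonoidHom.fst _ _)).comp G0.subtype)

lemma chiG_apply (p : G0) : chiG (Multiplicative.ofAdd p) = Multiplicative.ofAdd (tot p.1.1) := rfl

lemma chiG_sigma (p : G) : chiG (sigma p) = chiG p := by
  show tot (sg (Multiplicative.toAdd p).1).1 = tot (Multiplicative.toAdd p).1.1
  show tot ((Multiplicative.toAdd p).1.1 + (Multiplicative.toAdd p).1.2 -
    Finsupp.single 0 (tot (Multiplicative.toAdd p).1.2)) = _
  rw [map_sub, map_add, tot_single]
  abel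

/-- automorphisms preserving the character -/
noncomputable def inv : Subgroup (MulAut G) where
  carrier := {s : MulAut G | ∀ p, chiG (s p) = chiG p}
  mul_mem' := by
    intro a b ha hb p
    rw [MulAut.mul_apply, ha, hb]
  one_mem' := by intro p; rfl
  inv_mem' := by
    intro a ha p
    have := ha (a⁻¹ p)
    rw [MulAut.apply_inv_self] at this
    exact this.symm

lemma chiG_H (h : H) (p : G) : chiG (phi h p) = chiG p := by
  have h1 : Subgroup.zpowers sigma ≤ inv := Subgroup.zpowers_le.2 chiG_sigma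
  exact h1 h.2 p

noncomputable def chi : Gam →* Multiplicative A :=
  SemidirectProduct.lift chiG 1 (by
    intro h
    ext p
    simp only [MonoidHom.one_apply, map_one, MonoidHom.comp_apply, MulEquiv.coe_toMonoidHom]
    exact congrArg _ (chiG_H h p))

/-! ### finite retracts of `G` -/

noncomputable def cutV (m : ℕ) : V →+ V :=
  AddMonoidHom.prodMap (Finsupp.filterAddHom (· < m)) (Finsupp.filterAddHom (· < m))

lemma cutV_mem (m : ℕ) {p : V} (hp : p ∈ G0) : cutV m p ∈ G0 := by
  refine ⟨fun n => ?_, fun n => ?_⟩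
  · show (2 ^ (n + 1)) • (Finsupp.filter (· < m) p.1 n) = 0
    rw [Finsupp.filter_apply]
    split_ifs
    · exact hp.1 n
    · simp
  · show 2 • (Finsupp.filter (· < m) p.2 n) = 0
    rw [Finsupp.filter_apply]
    split_ifs
    · exact hp.2 n
    · simp

noncomputable def cut (m : ℕ) : G0 →+ G0 :=
  ((cutV m).comp G0.subtype).codRestrict G0 (fun p => cutV_mem m p.2)

lemma finite_box (m k : ℕ) (hk : 0 < k) :
    {f : ℕ →₀ A | (∀ n, m ≤ n → f n = 0) ∧ ∀ n, n < m → k • f n = 0}.Finite := by
  have hF : ({a : A | k • a = 0}).Finite := AddCircle.finite_torsion _ hk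
  refine Set.Finite.of_finite_image (f := fun f (i : Fin m) => f i) ?_ ?_
  · refine (Set.Finite.pi' (fun _ : Fin m => hF)).subset ?_
    rintro _ ⟨f, hf, rfl⟩ i
    exact hf.2 i i.2
  · intro f hf g hg hfg
    refine Finsupp.ext fun n => ?_
    rcases lt_or_ge n m with h | h
    · exact congrFun hfg ⟨n, h⟩
    · rw [hf.1 n h, hg.1 n h]

lemma finite_cut (m : ℕ) : (Set.range (cut m)).Finite := by
  refine Set.Finite.of_finite_image (f := Subtype.val) ?_ Subtype.val_injective.injOn
  refine ((finite_box m (2 ^ m) (by positivity)).prod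
    (finite_box m 2 (by norm_num))).subset ?_
  rintro _ ⟨_, ⟨p, rfl⟩, rfl⟩
  refine ⟨⟨fun n hn => ?_, fun n hn => ?_⟩, ⟨fun n hn => ?_, fun n hn => ?_⟩⟩
  · show Finsupp.filter (· < m) p.1.1 n = 0
    rw [Finsupp.filter_apply, if_neg (by omega)]
  · show (2 ^ m) • (Finsupp.filter (· < m) p.1.1 n) = 0
    rw [Finsupp.filter_apply, if_pos hn]
    obtain ⟨k, rfl⟩ : ∃ k, m = n + 1 + k := ⟨m - (n + 1), by omega⟩
    rw [pow_add, mul_comm, mul_smul, p.2.1 n, smul_zero]
  · show Finsupp.filter (· < m) p.1.2 n = 0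
    rw [Finsupp.filter_apply, if_neg (by omega)]
  · show 2 • (Finsupp.filter (· < m) p.1.2 n) = 0
    rw [Finsupp.filter_apply, if_pos hn]
    exact p.2.2 n

lemma cut_eq {m : ℕ} {p : G0} (h1 : ∀ n, m ≤ n → p.1.1 n = 0) (h2 : ∀ n, m ≤ n → p.1.2 n = 0) :
    cut m p = p := by
  refine Subtype.ext (Prod.ext (Finsupp.ext fun n => ?_) (Finsupp.ext fun n => ?_))
  · show Finsupp.filter (· < m) p.1.1 n = _
    rw [Finsupp.filter_apply]
    split_ifs with h
    · rfl
    · exact (h1 n (by omega)).symm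
  · show Finsupp.filter (· < m) p.1.2 n = _
    rw [Finsupp.filter_apply]
    split_ifs with h
    · rfl
    · exact (h2 n (by omega)).symm

lemma exists_bound (f : ℕ →₀ A) : ∃ m, ∀ n, m ≤ n → f n = 0 := by
  refine ⟨f.support.sup id + 1, fun n hn => ?_⟩
  by_contra hne
  have := Finset.le_sup (f := id) (Finsupp.mem_support_iff.2 hne)
  simp only [id] at this
  omega

theorem pstab_G : PStab G := by
  classical
  refine pstab_of_retracts fun S => ?_
  have hm : ∃ m, ∀ g ∈ S, (∀ n, m ≤ n → (Multiplicative.toAdd g).1.1 n = 0) ∧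
      (∀ n, m ≤ n → (Multiplicative.toAdd g).1.2 n = 0) := by
    induction S using Finset.induction_on with
    | empty => exact ⟨0, by simp⟩
    | insert a s _ ih =>
      obtain ⟨m, hm⟩ := ih
      obtain ⟨m1, h1⟩ := exists_bound (Multiplicative.toAdd a).1.1
      obtain ⟨m2, h2⟩ := exists_bound (Multiplicative.toAdd a).1.2
      refine ⟨m + m1 + m2, fun g hg => ?_⟩
      rcases Finset.mem_insert.1 hg with rfl | hg
      · exact ⟨fun n hn => h1 n (by omega), fun n hn => h2 n (by omega)⟩
      · exact ⟨fun n hn => (hm g hg).1 n (by omega), fun n hn => (hm g hg).2 n (by omega)⟩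
  obtain ⟨m, hm⟩ := hm
  refine ⟨AddMonoidHom.toMultiplicative (cut m), ?_, ?_⟩
  · have : ((AddMonoidHom.toMultiplicative (cut m)).range : Set G).Finite := by
      exact finite_cut m
    exact this.to_subtype
  · intro g hg
    exact cut_eq (hm g hg).1 (hm g hg).2

instance : Countable A := by
  unfold A AddCircle
  exact Quotient.countable

instance : Countable G := by
  have h1 : Countable (ℕ →₀ A) := inferInstance
  have : Countable G0 := Subtype.countable
  exact this

end Pool.Agent.H97R3.SemiEx
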