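import Pool.Agent.H97R3.SemiEx

set_option autoImplicit false
set_option linter.unusedSectionVars false

/-! Non-stability of the semidirect product. -/

namespace Pool.Agent.H97R3.SemiEx

open Equiv Pool.Agent.H97R3.SemiStab

lemma A_torsion (a : A) : ∃ n : ℕ, 0 < n ∧ n • a = 0 := by
  obtain ⟨q, rfl⟩ := QuotientAddGroup.mk_surjective a
  refine ⟨q.den, q.den_pos, ?_⟩
  have h : (q.den • ((q : ℚ) : A)) = (((q.den : ℚ) * q : ℚ) : A) := by
    rw [← nsmul_eq_mul]
    exact (AddCircle.coe_nsmul (1 : ℚ)).symm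
  refine h.trans ?_
  rw [AddCircle.coe_eq_zero_iff]
  refine ⟨q.num, ?_⟩
  rw [Rat.den_mul_eq_num]
  simp

lemma finite_closure (s : Set (Multiplicative A)) [Finite s] : Finite (Subgroup.closure s) := by
  refine CommGroup.finite_of_fg_isMulTorsion (G := Subgroup.closure s) ?_
  rintro ⟨a, ha⟩
  rw [isOfFinOrder_iff_pow_eq_one]
  obtain ⟨n, hn, hna⟩ := A_torsion (Multiplicative.toAdd a)
  exact ⟨n, hn, Subtype.ext hna⟩

/-- the element `1/2` -/
noncomputable def half : A := ((1 / 2 : ℚ) : A)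

lemma half_ne : half ≠ 0 := by
  unfold half
  intro h
  rw [AddCircle.coe_eq_zero_iff] at h
  obtain ⟨n, hn⟩ := h
  have h2 : ((2 * n : ℤ) : ℚ) = ((1 : ℤ) : ℚ) := by
    push_cast
    have : (n : ℚ) = 1 / 2 := by simpa using hn
    rw [this]; norm_num
  have := Int.cast_injective h2
  omega

lemma nsmul_coe (n : ℕ) (q : ℚ) : n • ((q : ℚ) : A) = (((n : ℚ) * q : ℚ) : A) := by
  rw [← nsmul_eq_mul]
  exact (AddCircle.coe_nsmul (1 : ℚ)).symm

lemma two_half : 2 • half = 0 := by
  unfold half
  rw [nsmul_coe, AddCircle.coe_eq_zero_iff]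
  exact ⟨1, by norm_num⟩

/-- the element `1/2^(k+1)` -/
noncomputable def root (k : ℕ) : A := ((1 / 2 ^ (k + 1) : ℚ) : A)

lemma root_pow (k : ℕ) : (2 ^ k) • root k = half := by
  unfold root half
  rw [nsmul_coe]
  congr 1
  push_cast
  rw [pow_succ]
  field_simp

lemma root_pow' (k : ℕ) : (2 ^ (k + 1)) • root k = 0 := by
  rw [pow_succ, mul_comm, mul_smul, root_pow, two_half]

noncomputable def vy (k : ℕ) : G0 := ⟨(Finsupp.single k (root k), 0), by
  refine ⟨fun n => ?_, fun n => by simp⟩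
  show (2 ^ (n + 1)) • (Finsupp.single k (root k) n) = 0
  rcases eq_or_ne n k with h | h
  · subst h; rw [Finsupp.single_eq_same]; exact root_pow' _
  · rw [Finsupp.single_eq_of_ne (by omega)]; simp⟩

noncomputable def vx : G0 := ⟨(Finsupp.single 0 half, 0), by
  refine ⟨fun n => ?_, fun n => by simp⟩
  show (2 ^ (n + 1)) • (Finsupp.single 0 half n) = 0
  rcases eq_or_ne n 0 with h | h
  · subst h; rw [Finsupp.single_eq_same]; exact two_half
  · rw [Finsupp.single_eq_of_ne (by omega)]; simp⟩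

noncomputable def ve (k : ℕ) : G0 := ⟨(0, Finsupp.single k half), by
  refine ⟨fun n => by simp, fun n => ?_⟩
  show 2 • (Finsupp.single k half n) = 0
  rcases eq_or_ne n k with h | h
  · subst h; rw [Finsupp.single_eq_same]; exact two_half
  · rw [Finsupp.single_eq_of_ne (by omega)]; simp⟩

lemma key_add (k : ℕ) : vx = (2 ^ k) • vy k + ve k - sgE (ve k) := by
  refine Subtype.ext (Prod.ext ?_ ?_)
  · show Finsupp.single 0 half = (2 ^ k) • Finsupp.single k (root k) + 0 -
      (0 + Finsupp.single k half - Finsupp.single 0 (tot (Finsupp.single k half)))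
    rw [tot_single, Finsupp.smul_single, root_pow]
    abel
  · show (0 : ℕ →₀ A) = (2 ^ k) • (0 : ℕ →₀ A) + Finsupp.single k half - Finsupp.single k half
    simp

noncomputable def gy (k : ℕ) : G := Multiplicative.ofAdd (vy k)
noncomputable def gx : G := Multiplicative.ofAdd vx
noncomputable def ge (k : ℕ) : G := Multiplicative.ofAdd (ve k)

lemma key_mul (k : ℕ) : gx = gy k ^ (2 ^ k) * ge k * (sigma (ge k))⁻¹ := by
  show Multiplicative.ofAdd vx = Multiplicative.ofAdd ((2 ^ k) • vy k + ve k + -(sgE (ve k)))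
  rw [← sub_eq_add_neg, ← key_add]

noncomputable def hs : H := ⟨sigma, Subgroup.mem_zpowers sigma⟩

noncomputable def X : Gam := SemidirectProduct.inl gx
noncomputable def Y (k : ℕ) : Gam := SemidirectProduct.inl (gy k)
noncomputable def E (k : ℕ) : Gam := SemidirectProduct.inl (ge k)
noncomputable def Sg : Gam := SemidirectProduct.inr hs

lemma key (k : ℕ) : X = Y k ^ (2 ^ k) * (E k * (Sg * (E k)⁻¹ * Sg⁻¹)) := by
  have h1 : (Sg * (E k)⁻¹ * Sg⁻¹ : Gam) = SemidirectProduct.inl ((sigma (ge k))⁻¹) := by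
    have := SemidirectProduct.inl_aut (φ := phi) hs (ge k)⁻¹
    rw [map_inv] at this
    rw [show ((phi hs) (ge k)) = sigma (ge k) from rfl] at this
    rw [this]
    show _ = SemidirectProduct.inr hs * SemidirectProduct.inl (ge k)⁻¹ * SemidirectProduct.inr hs⁻¹
    rw [map_inv, map_inv]
    rfl
  rw [h1]
  unfold X Y E
  rw [← map_pow, ← map_mul, ← map_mul, ← mul_assoc, ← key_mul]

lemma Y_order (k : ℕ) : Y k ^ (2 ^ (k + 1)) = 1 := by
  unfold Y
  rw [← map_pow]
  have : gy k ^ (2 ^ (k + 1)) = 1 := by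
    show Multiplicative.ofAdd ((2 ^ (k + 1)) • vy k) = Multiplicative.ofAdd 0
    congr 1
    refine Subtype.ext (Prod.ext ?_ ?_)
    · show (2 ^ (k + 1)) • Finsupp.single k (root k) = 0
      rw [Finsupp.smul_single, root_pow', Finsupp.single_zero]
    · show (2 ^ (k + 1)) • (0 : ℕ →₀ A) = 0
      simp
  rw [this, map_one]

lemma chi_X : chi X = Multiplicative.ofAdd half := by
  unfold X chi
  rw [SemidirectProduct.lift_inl]
  show Multiplicative.ofAdd (tot (Finsupp.single 0 half)) = _
  rw [tot_single]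

lemma chi_Sg : chi Sg = 1 := by
  unfold Sg chi
  rw [SemidirectProduct.lift_inr]
  rfl

/-- In every finite quotient some `Y k ^ 2^k` dies. -/
lemma exists_dead {P : Type} [Group P] [Finite P] (ρ : Gam →* P) :
    ∃ k, ρ (Y k) ^ (2 ^ k) = 1 := by
  refine ⟨Nat.card P, ?_⟩
  set k := Nat.card P with hk
  have h1 : orderOf (ρ (Y k)) ∣ 2 ^ (k + 1) := by
    apply orderOf_dvd_of_pow_eq_one
    rw [← map_pow, Y_order, map_one]
  obtain ⟨j, hj, hje⟩ := (Nat.dvd_prime_pow Nat.prime_two).1 h1
  have h2 : orderOf (ρ (Y k)) ≤ k := Nat.le_of_dvd Nat.card_pos (orderOf_dvd_natCard _)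
  have h3 : j < 2 ^ j := Nat.lt_two_pow_self
  have hjk : j ≤ k := by omega
  exact orderOf_dvd_iff_pow_eq_one.1 (hje ▸ pow_dvd_pow 2 hjk)

section
variable {C : Type} [Group C] {n : ℕ} (e : Fin n ≃ C)

/-- left regular representation transported to `Fin n` -/
def L (c : C) : Perm (Fin n) := (e.trans (Equiv.mulLeft c)).trans e.symm

lemma L_apply (c : C) (i : Fin n) : L e c i = e.symm (c * e i) := rfl

lemma L_mul (c d : C) (i : Fin n) : L e (c * d) i = L e c (L e d i) := by
  simp [L_apply, mul_assoc]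

lemma L_one : L e 1 = 1 := by
  ext i
  simp [L_apply]

lemma L_ne {c : C} (hc : c ≠ 1) (i : Fin n) : L e c i ≠ i := by
  intro h
  rw [L_apply, Equiv.symm_apply_eq] at h
  exact hc (mul_eq_right.1 h)
end

open Classical in
theorem not_pstab_Gam : ¬ PStab Gam := by
  intro hst
  obtain ⟨T, δ, hδ, hT⟩ := hst {X, Sg} (1 / 3) (by norm_num)
  let s : Set (Multiplicative A) := (chi '' (T : Set Gam)) ∪ {chi X}
  haveI : Finite s := Set.Finite.to_subtype ((T.finite_toSet.image _).union (Set.finite_singleton _))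
  let C := Subgroup.closure s
  haveI : Finite C := finite_closure s
  let n := Nat.card C
  let e : Fin n ≃ C := (Finite.equivFin C).symm
  have hn : 0 < n := Nat.card_pos
  have hnR : (0 : ℝ) < n := by exact_mod_cast hn
  let f : Gam → Perm (Fin n) := fun g => if h : chi g ∈ C then L e ⟨chi g, h⟩ else 1
  have hf : ∀ g (h : chi g ∈ C), f g = L e ⟨chi g, h⟩ := by
    intro g h
    exact dif_pos h
  have hTC : ∀ g ∈ T, chi g ∈ C := fun g hg =>
    Subgroup.subset_closure (Or.inl ⟨g, hg, rfl⟩)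
  obtain ⟨ρ, hρ⟩ := hT n f (by
    intro g hg h hh
    have : (Finset.univ.filter (fun i : Fin n => f (g * h) i ≠ (f g * f h) i)) = ∅ := by
      rw [Finset.filter_eq_empty_iff]
      intro i _
      rw [not_not, Perm.mul_apply]
      have h1 := hTC g hg
      have h2 := hTC h hh
      have h3 : chi (g * h) ∈ C := by rw [map_mul]; exact C.mul_mem h1 h2
      rw [hf _ h1, hf _ h2, hf _ h3, ← L_mul]
      congr 2
      exact Subtype.ext (map_mul chi g h)
    rw [this]
    simpa using hδ)
  have hXC : chi X ∈ C := Subgroup.subset_closure (Or.inr rfl)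
  have hfS : f Sg = 1 := by
    have h1 : chi Sg ∈ C := by rw [chi_Sg]; exact C.one_mem
    rw [hf _ h1]
    have : (⟨chi Sg, h1⟩ : C) = 1 := Subtype.ext chi_Sg
    rw [this, L_one]
  have hfX : ∀ i, f X i ≠ i := by
    intro i
    rw [hf _ hXC]
    apply L_ne
    intro h
    have := congrArg Subtype.val h
    simp only at this
    rw [chi_X] at this
    exact half_ne (Multiplicative.ofAdd.injective this)
  have hS := hρ Sg (by simp)
  have hX := hρ X (by simp)
  rw [div_lt_iff₀ hnR] at hS hX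
  obtain ⟨k, hk⟩ := exists_dead ρ
  have hkey : ρ X = ρ (E k) * (ρ Sg * (ρ (E k))⁻¹ * (ρ Sg)⁻¹) := by
    rw [key k]
    simp only [map_mul, map_pow, map_inv]
    rw [hk, one_mul]
  set D := Finset.univ.filter (fun i : Fin n => f Sg i ≠ ρ Sg i) with hD
  set W := Finset.univ.filter (fun i : Fin n => f X i ≠ ρ X i) with hW
  have hmemD : ∀ i, i ∉ D → ρ Sg i = i := by
    intro i hi
    rw [hD, Finset.mem_filter, not_and, not_not] at hi
    rw [← hi (Finset.mem_univ _), hfS]
    rfl
  have hcover : (Finset.univ : Finset (Fin n)) ⊆ W ∪ (D ∪ D.map (ρ (E k)).toEmbedding) := by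
    intro i _
    by_contra hcon
    rw [Finset.mem_union, Finset.mem_union, not_or, not_or] at hcon
    obtain ⟨hiW, hiD, hiM⟩ := hcon
    have h1 : ρ Sg i = i := hmemD i hiD
    have h1' : (ρ Sg)⁻¹ i = i := by
      rw [Perm.inv_eq_iff_eq]; exact h1.symm
    have h2 : (ρ (E k))⁻¹ i ∉ D := by
      intro h
      apply hiM
      rw [Finset.mem_map]
      exact ⟨_, h, by simp⟩
    have h3 := hmemD _ h2
    have h4 : ρ X i = i := by
      rw [hkey]
      simp only [Perm.mul_apply]
      rw [h1', h3]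
      simp
    rw [hW, Finset.mem_filter, not_and, not_not] at hiW
    exact hfX i ((hiW (Finset.mem_univ _)).trans h4)
  have hcard := (Finset.card_le_card hcover).trans ((Finset.card_union_le _ _).trans
    (Nat.add_le_add_left (Finset.card_union_le _ _) _))
  rw [Finset.card_map, Finset.card_univ, Fintype.card_fin] at hcard
  have hcardR : (n : ℝ) ≤ W.card + (D.card + D.card) := by exact_mod_cast hcard
  linarith

end Pool.Agent.H97R3.SemiEx
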