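import Mathlib

set_option autoImplicit false
set_option linter.unusedSectionVars false

/-! Permutation stability and semidirect products with a finite group: counterexample. -/

namespace Pool.Agent.H97R3.SemiStab

open Equiv

section FiniteStab

variable {K : Type} [Group K] (A : Subgroup K) [Finite A] (n : ℕ) (f : K → Perm (Fin n))

/-- points where multiplicativity on `A` fails -/
def Bad : Set (Fin n) := {i | ∃ g ∈ A, ∃ h ∈ A, f (g * h) i ≠ (f g * f h) i}

/-- points whose `A`-orbit avoids `Bad` -/
def Good : Set (Fin n) := {i | i ∉ Bad A n f ∧ ∀ u ∈ A, f u i ∉ Bad A n f}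

lemma mul_of_not_bad {i : Fin n} (hi : i ∉ Bad A n f) {g h : K} (hg : g ∈ A) (hh : h ∈ A) :
    f (g * h) i = f g (f h i) := by
  by_contra hne
  exact hi ⟨g, hg, h, hh, hne⟩

lemma good_inv {i : Fin n} (hi : i ∈ Good A n f) {u : K} (hu : u ∈ A) : f u i ∈ Good A n f := by
  refine ⟨hi.2 u hu, fun v hv => ?_⟩
  rw [← mul_of_not_bad A n f hi.1 hv hu]
  exact hi.2 _ (A.mul_mem hv hu)

open Classical in
noncomputable def act (a : A) (i : Fin n) : Fin n := if i ∈ Good A n f then f a i else i

lemma act_good {a : A} {i : Fin n} (hi : i ∈ Good A n f) : act A n f a i = f a i := by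
  unfold act; rw [if_pos hi]

lemma act_bad {a : A} {i : Fin n} (hi : i ∉ Good A n f) : act A n f a i = i := by
  unfold act; rw [if_neg hi]

lemma act_one (i : Fin n) : act A n f 1 i = i := by
  by_cases hi : i ∈ Good A n f
  · rw [act_good A n f hi]
    have h1 := mul_of_not_bad A n f hi.1 A.one_mem A.one_mem
    rw [mul_one] at h1
    exact ((f 1).injective h1).symm
  · exact act_bad A n f hi

lemma act_mul (a b : A) (i : Fin n) : act A n f (a * b) i = act A n f a (act A n f b i) := by
  by_cases hi : i ∈ Good A n f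
  · rw [act_good A n f hi, act_good A n f hi, act_good A n f (good_inv A n f hi b.2)]
    exact mul_of_not_bad A n f hi.1 a.2 b.2
  · rw [act_bad A n f hi, act_bad A n f hi, act_bad A n f hi]

/-- the corrected action as a hom -/
noncomputable def rho : A →* Perm (Fin n) :=
  MonoidHom.toHomPerm
    { toFun := fun a => (act A n f a : Function.End (Fin n))
      map_one' := by funext i; exact act_one A n f i
      map_mul' := by intro a b; funext i; exact act_mul A n f a b i }

lemma rho_apply {a : A} {i : Fin n} (hi : i ∈ Good A n f) : rho A n f a i = f a i :=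
  act_good A n f hi

open Classical in
lemma card_bad_le (T : Finset K) (hT : ∀ g, g ∈ T ↔ g ∈ A) :
    (Finset.univ.filter (fun i => i ∈ Bad A n f)).card ≤
      ∑ g ∈ T, ∑ h ∈ T, (Finset.univ.filter (fun i : Fin n => f (g * h) i ≠ (f g * f h) i)).card := by
  have hsub : Finset.univ.filter (fun i => i ∈ Bad A n f) ⊆
      T.biUnion (fun g => T.biUnion (fun h =>
        Finset.univ.filter (fun i : Fin n => f (g * h) i ≠ (f g * f h) i))) := by
    intro i hi
    rw [Finset.mem_filter] at hi
    obtain ⟨-, g, hg, h, hh, hne⟩ := hi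
    rw [Finset.mem_biUnion]
    refine ⟨g, (hT g).2 hg, ?_⟩
    rw [Finset.mem_biUnion]
    exact ⟨h, (hT h).2 hh, by rw [Finset.mem_filter]; exact ⟨Finset.mem_univ _, hne⟩⟩
  refine (Finset.card_le_card hsub).trans (Finset.card_biUnion_le.trans ?_)
  exact Finset.sum_le_sum (fun g _ => Finset.card_biUnion_le)

open Classical in
lemma card_not_good_le (T : Finset K) (hT : ∀ g, g ∈ T ↔ g ∈ A) :
    (Finset.univ.filter (fun i => i ∉ Good A n f)).card ≤
      (T.card + 1) * (Finset.univ.filter (fun i => i ∈ Bad A n f)).card := by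
  set B := Finset.univ.filter (fun i => i ∈ Bad A n f) with hB
  have hsub : Finset.univ.filter (fun i => i ∉ Good A n f) ⊆
      B ∪ T.biUnion (fun u => B.map (f u).symm.toEmbedding) := by
    intro i hi
    rw [Finset.mem_filter] at hi
    rw [Finset.mem_union]
    by_cases hb : i ∈ Bad A n f
    · left; rw [hB, Finset.mem_filter]; exact ⟨Finset.mem_univ _, hb⟩
    · right
      have : ∃ u ∈ A, f u i ∈ Bad A n f := by
        by_contra hcon
        push Not at hcon
        exact hi.2 ⟨hb, hcon⟩
      obtain ⟨u, hu, hui⟩ := this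
      rw [Finset.mem_biUnion]
      refine ⟨u, (hT u).2 hu, ?_⟩
      rw [Finset.mem_map]
      exact ⟨f u i, by rw [hB, Finset.mem_filter]; exact ⟨Finset.mem_univ _, hui⟩, by simp⟩
  refine (Finset.card_le_card hsub).trans ((Finset.card_union_le _ _).trans ?_)
  have h2 : (T.biUnion (fun u => B.map (f u).symm.toEmbedding)).card ≤ T.card * B.card := by
    refine Finset.card_biUnion_le.trans ?_
    simp
  calc B.card + (T.biUnion (fun u => B.map (f u).symm.toEmbedding)).card
      ≤ B.card + T.card * B.card := by omega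
    _ = (T.card + 1) * B.card := by ring

end FiniteStab

/-- `(S, ε)`-`(T, δ)` form of stability in permutations, as in the frozen statement -/
def PStab (K : Type) [Group K] : Prop :=
  ∀ (S : Finset K) (ε : ℝ), 0 < ε → ∃ (T : Finset K) (δ : ℝ), 0 < δ ∧
    ∀ (n : ℕ) (f : K → Perm (Fin n)),
      (∀ g ∈ T, ∀ h ∈ T,
        ((Finset.univ.filter (fun i : Fin n => f (g * h) i ≠ (f g * f h) i)).card : ℝ)
          / (n : ℝ) < δ) →
      ∃ ρ : K →* Perm (Fin n), ∀ g ∈ S,
        ((Finset.univ.filter (fun i : Fin n => f g i ≠ ρ g i)).card : ℝ) / (n : ℝ) < ε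

open Classical in
/-- A group in which every finite set lies in a finite retract is stable in permutations. -/
theorem pstab_of_retracts {K : Type} [Group K]
    (hR : ∀ S : Finset K, ∃ π : K →* K, Finite π.range ∧ ∀ g ∈ S, π g = g) : PStab K := by
  intro S ε hε
  obtain ⟨π, hfin, hπ⟩ := hR S
  set A := π.range with hA
  haveI : Fintype A := Fintype.ofFinite A
  set T : Finset K := (Set.toFinite (A : Set K)).toFinset with hTdef
  have hT : ∀ g, g ∈ T ↔ g ∈ A := by intro g; simp [hTdef]
  have hTpos : 0 < T.card := by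
    rw [Finset.card_pos]
    exact ⟨1, (hT 1).2 A.one_mem⟩
  have hTR : (0 : ℝ) < T.card := by exact_mod_cast hTpos
  refine ⟨T, ε / ((T.card + 1) * (T.card * T.card)), by positivity, ?_⟩
  intro n f hf
  refine ⟨(rho A n f).comp π.rangeRestrict, ?_⟩
  intro g hg
  have hgA : g ∈ A := ⟨g, hπ g hg⟩
  have hval : ((rho A n f).comp π.rangeRestrict) g = rho A n f ⟨g, hgA⟩ := by
    have : π.rangeRestrict g = ⟨g, hgA⟩ := by
      apply Subtype.ext
      exact hπ g hg
    rw [MonoidHom.comp_apply, this]
  have hsub : Finset.univ.filter (fun i : Fin n => f g i ≠ ((rho A n f).comp π.rangeRestrict) g i) ⊆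
      Finset.univ.filter (fun i => i ∉ Good A n f) := by
    intro i hi
    rw [Finset.mem_filter] at hi ⊢
    refine ⟨Finset.mem_univ _, fun hgood => hi.2 ?_⟩
    rw [hval, rho_apply A n f hgood]
  have hcard := (Finset.card_le_card hsub).trans ((card_not_good_le A n f T hT).trans
    (Nat.mul_le_mul_left _ (card_bad_le A n f T hT)))
  rcases Nat.eq_zero_or_pos n with hn | hn
  · subst hn
    simp [hε]
  have hnR : (0 : ℝ) < n := by exact_mod_cast hn
  have hcardR : ((Finset.univ.filter
      (fun i : Fin n => f g i ≠ ((rho A n f).comp π.rangeRestrict) g i)).card : ℝ) ≤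
      (T.card + 1) * ∑ g ∈ T, ∑ h ∈ T,
        ((Finset.univ.filter (fun i : Fin n => f (g * h) i ≠ (f g * f h) i)).card : ℝ) := by
    exact_mod_cast hcard
  have hsum : (∑ g ∈ T, ∑ h ∈ T,
        ((Finset.univ.filter (fun i : Fin n => f (g * h) i ≠ (f g * f h) i)).card : ℝ)) / n <
        (T.card * T.card) * (ε / ((T.card + 1) * (T.card * T.card))) := by
    rw [Finset.sum_div]
    have h1 : ∀ g ∈ T, (∑ h ∈ T,
        ((Finset.univ.filter (fun i : Fin n => f (g * h) i ≠ (f g * f h) i)).card : ℝ)) / n <
        T.card * (ε / ((T.card + 1) * (T.card * T.card))) := by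
      intro g hg
      rw [Finset.sum_div]
      calc _ < ∑ h ∈ T, (ε / ((T.card + 1) * (T.card * T.card)) : ℝ) :=
            Finset.sum_lt_sum_of_nonempty (Finset.card_pos.1 hTpos) (fun h hh => hf g hg h hh)
        _ = _ := by rw [Finset.sum_const, nsmul_eq_mul]
    calc _ < ∑ g ∈ T, (T.card * (ε / ((T.card + 1) * (T.card * T.card))) : ℝ) :=
            Finset.sum_lt_sum_of_nonempty (Finset.card_pos.1 hTpos) h1
      _ = _ := by rw [Finset.sum_const, nsmul_eq_mul]; ring
  calc ((Finset.univ.filter
      (fun i : Fin n => f g i ≠ ((rho A n f).comp π.rangeRestrict) g i)).card : ℝ) / n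
      ≤ ((T.card + 1) * ∑ g ∈ T, ∑ h ∈ T,
        ((Finset.univ.filter (fun i : Fin n => f (g * h) i ≠ (f g * f h) i)).card : ℝ)) / n := by
        gcongr
    _ = (T.card + 1) * ((∑ g ∈ T, ∑ h ∈ T,
        ((Finset.univ.filter (fun i : Fin n => f (g * h) i ≠ (f g * f h) i)).card : ℝ)) / n) := by
        ring
    _ < (T.card + 1) * ((T.card * T.card) * (ε / ((T.card + 1) * (T.card * T.card)))) := by
        gcongr
    _ = ε := by field_simp

end Pool.Agent.H97R3.SemiStab
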