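import Mathlib

set_option autoImplicit false

namespace Pool.Agent.H97R3.Stab

open Equiv

section Ham
variable {X : Type} [Fintype X] [DecidableEq X]

/-- number of points where two permutations differ -/
def D (σ τ : Perm X) : ℕ := (Finset.univ.filter (fun i => σ i ≠ τ i)).card

theorem D_symm (σ τ : Perm X) : D σ τ = D τ σ := by
  unfold D
  congr 1
  ext i
  simp [ne_comm]

theorem D_self (σ : Perm X) : D σ σ = 0 := by
  unfold D
  simp

theorem D_mul_left (ρ σ τ : Perm X) : D (ρ * σ) (ρ * τ) = D σ τ := by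
  unfold D
  congr 1
  ext i
  simp

theorem D_mul_right (ρ σ τ : Perm X) : D (σ * ρ) (τ * ρ) = D σ τ := by
  unfold D
  apply Finset.card_bij (fun i _ => ρ i)
  · intro i hi
    rw [Finset.mem_filter] at hi ⊢
    exact ⟨Finset.mem_univ _, hi.2⟩
  · intro i _ j _ h
    exact ρ.injective h
  · intro j hj
    refine ⟨ρ.symm j, ?_, by simp⟩
    rw [Finset.mem_filter] at hj ⊢
    refine ⟨Finset.mem_univ _, ?_⟩
    rw [Perm.mul_apply, Perm.mul_apply, Equiv.apply_symm_apply]
    exact hj.2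

theorem D_triangle (σ ρ τ : Perm X) : D σ τ ≤ D σ ρ + D ρ τ := by
  unfold D
  refine le_trans (Finset.card_le_card ?_) (Finset.card_union_le _ _)
  intro i hi
  simp only [Finset.mem_union, Finset.mem_filter, Finset.mem_univ, true_and] at hi ⊢
  by_contra hcon
  push Not at hcon
  exact hi (hcon.1.trans hcon.2)

theorem D_mul (σ₁ σ₂ τ₁ τ₂ : Perm X) : D (σ₁ * σ₂) (τ₁ * τ₂) ≤ D σ₁ τ₁ + D σ₂ τ₂ := by
  refine le_trans (D_triangle _ (τ₁ * σ₂) _) ?_
  rw [D_mul_right, D_mul_left]

theorem D_inv (σ τ : Perm X) : D σ⁻¹ τ⁻¹ = D σ τ := by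
  have h1 : D σ⁻¹ τ⁻¹ = D (σ * σ⁻¹) (σ * τ⁻¹) := (D_mul_left _ _ _).symm
  have h2 : D (σ * σ⁻¹) (σ * τ⁻¹) = D τ σ := by
    rw [mul_inv_cancel, ← D_mul_right τ 1 (σ * τ⁻¹)]
    simp
  rw [h1, h2, D_symm]

theorem D_transport {Y : Type} [Fintype Y] [DecidableEq Y] (e : X ≃ Y) (σ τ : Perm X) :
    D (e.permCongr σ) (e.permCongr τ) = D σ τ := by
  unfold D
  symm
  apply Finset.card_bij (fun i _ => e i)
  · intro i hi
    simpa using hi
  · intro i _ j _ h
    exact e.injective h
  · intro j hj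
    refine ⟨e.symm j, ?_, by simp⟩
    simpa using hj

end Ham

/-- In a finite group, the two relations force `y⁻¹ c y` and `c` to commute, `y = b a b⁻¹`. -/
theorem exact_commute {Γ : Type} [Group Γ] [Finite Γ] (n : ℕ) (a b c : Γ)
    (h1 : b⁻¹ * a * b = a ^ n) (h2 : a⁻¹ * c * a = c ^ n) :
    ((b * a * b⁻¹)⁻¹ * c * (b * a * b⁻¹)) * c = c * ((b * a * b⁻¹)⁻¹ * c * (b * a * b⁻¹)) := by
  set y := b * a * b⁻¹ with hy
  have hya : y ^ n = a := by
    have : y ^ n = b * a ^ n * b⁻¹ := by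
      rw [hy]
      exact conj_pow
    rw [this, ← h1]
    group
  have hordy : orderOf y = orderOf a := by
    have : y = MulAut.conj b a := by simp [hy, MulAut.conj_apply]
    rw [this]
    exact orderOf_injective (MulAut.conj b).toMonoidHom (MulAut.conj b).injective a
  have hcop : Nat.Coprime n (orderOf y) := by
    have e1 : orderOf (y ^ n) = orderOf y := by rw [hya, hordy]
    have e2 : orderOf (y ^ n) = orderOf y / Nat.gcd (orderOf y) n := orderOf_pow y
    have hpos : 0 < orderOf y := orderOf_pos y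
    rw [e2] at e1
    have hg : Nat.gcd (orderOf y) n = 1 := by
      by_contra hne
      have hg0 : 0 < Nat.gcd (orderOf y) n := Nat.gcd_pos_of_pos_left _ hpos
      have : orderOf y / Nat.gcd (orderOf y) n < orderOf y :=
        Nat.div_lt_self hpos (by omega)
      omega
    rw [Nat.coprime_comm]
    exact hg
  obtain ⟨k, hk⟩ := exists_pow_eq_self_of_coprime hcop
  have hyk : y = a ^ k := by rw [← hk, hya]
  have hconj : ∀ k : ℕ, (a ^ k)⁻¹ * c * (a ^ k) = c ^ (n ^ k) := by
    intro k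
    induction k with
    | zero => simp
    | succ k ih =>
      have : (a ^ (k + 1))⁻¹ * c * a ^ (k + 1) = a⁻¹ * ((a ^ k)⁻¹ * c * a ^ k) * a := by
        rw [pow_succ]
        group
      rw [this, ih]
      have h3 : a⁻¹ * c ^ n ^ k * a = (a⁻¹ * c * a) ^ n ^ k := by
        have := @conj_pow _ _ (n ^ k) a⁻¹ c
        simp only [inv_inv] at this
        exact this.symm
      rw [h3, h2, ← pow_mul, pow_succ, mul_comm]
  have : y⁻¹ * c * y = c ^ (n ^ k) := by
    rw [hyk]
    exact hconj k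
  rw [this]
  exact (Commute.refl c).pow_left _

/-- the two words compared -/
def W1 {Γ : Type} [Group Γ] (a b c : Γ) : Γ := ((b * a * b⁻¹)⁻¹ * c * (b * a * b⁻¹)) * c
def W2 {Γ : Type} [Group Γ] (a b c : Γ) : Γ := c * ((b * a * b⁻¹)⁻¹ * c * (b * a * b⁻¹))

section Est
variable {X : Type} [Fintype X] [DecidableEq X]

theorem D_y (a b a' b' : Perm X) :
    D (b * a * b⁻¹) (b' * a' * b'⁻¹) ≤ D a a' + 2 * D b b' := by
  have h1 := D_mul (b * a) b⁻¹ (b' * a') b'⁻¹
  have h2 := D_mul b a b' a'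
  have h3 := D_inv b b'
  omega

theorem D_W1 (a b c a' b' c' : Perm X) :
    D (W1 a b c) (W1 a' b' c') ≤ 2 * D a a' + 4 * D b b' + 2 * D c c' := by
  unfold W1
  have h0 := D_y a b a' b'
  have h1 := D_mul ((b * a * b⁻¹)⁻¹ * c * (b * a * b⁻¹)) c
    ((b' * a' * b'⁻¹)⁻¹ * c' * (b' * a' * b'⁻¹)) c'
  have h2 := D_mul ((b * a * b⁻¹)⁻¹ * c) (b * a * b⁻¹) ((b' * a' * b'⁻¹)⁻¹ * c') (b' * a' * b'⁻¹)
  have h3 := D_mul ((b * a * b⁻¹)⁻¹) c ((b' * a' * b'⁻¹)⁻¹) c'
  have h4 := D_inv (b * a * b⁻¹) (b' * a' * b'⁻¹)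
  omega

theorem D_W2 (a b c a' b' c' : Perm X) :
    D (W2 a b c) (W2 a' b' c') ≤ 2 * D a a' + 4 * D b b' + 2 * D c c' := by
  unfold W2
  have h0 := D_y a b a' b'
  have h1 := D_mul c ((b * a * b⁻¹)⁻¹ * c * (b * a * b⁻¹)) c'
    ((b' * a' * b'⁻¹)⁻¹ * c' * (b' * a' * b'⁻¹))
  have h2 := D_mul ((b * a * b⁻¹)⁻¹ * c) (b * a * b⁻¹) ((b' * a' * b'⁻¹)⁻¹ * c') (b' * a' * b'⁻¹)
  have h3 := D_mul ((b * a * b⁻¹)⁻¹) c ((b' * a' * b'⁻¹)⁻¹) c'
  have h4 := D_inv (b * a * b⁻¹) (b' * a' * b'⁻¹)
  omega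

end Est

/-- the fibre -/
abbrev Om (n : ℕ) : Type := Option (ZMod (n + 1))

/-- translation by one on the fibre, fixing `none` -/
def g0 (n : ℕ) : Perm (Om n) := (Equiv.addRight (1 : ZMod (n + 1))).optionCongr

def tau (n : ℕ) : Perm (Om n) := Equiv.swap none (some 0)

def g1 (n : ℕ) : Perm (Om n) := tau n * g0 n * (tau n)⁻¹

theorem g0_pow (n k : ℕ) (x : ZMod (n + 1)) : (g0 n ^ k) (some x) = some (x + k) := by
  induction k with
  | zero => simp
  | succ k ih =>
    rw [pow_succ', Perm.mul_apply, ih]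
    simp [g0]
    ring

theorem g0_pow_none (n k : ℕ) : (g0 n ^ k) none = none := by
  induction k with
  | zero => simp
  | succ k ih =>
    rw [pow_succ', Perm.mul_apply, ih]
    simp [g0]

theorem g1_pow (n k : ℕ) : g1 n ^ k = tau n * g0 n ^ k * (tau n)⁻¹ := by
  unfold g1
  exact conj_pow

theorem noncomm (n s : ℕ) (hn : 2 ≤ n) :
    (g1 n ^ (n ^ s)) ((g0 n ^ (n ^ s)) (some 0)) ≠ (g0 n ^ (n ^ s)) ((g1 n ^ (n ^ s)) (some 0)) := by
  set k := n ^ s with hk
  have hcast : ((n : ℕ) : ZMod (n + 1)) = -1 := by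
    have : ((n + 1 : ℕ) : ZMod (n + 1)) = 0 := ZMod.natCast_self _
    push_cast at this
    linear_combination this
  have hkc : ((k : ℕ) : ZMod (n + 1)) = (-1) ^ s := by
    rw [hk]; push_cast; rw [hcast]
  have : Fact (1 < n + 1) := ⟨by omega⟩
  have h2 : ((2 : ℕ) : ZMod (n + 1)) ≠ 0 := by
    intro h
    rw [ZMod.natCast_eq_zero_iff] at h
    have := Nat.le_of_dvd (by norm_num) h
    omega
  have hk0 : ((k : ℕ) : ZMod (n + 1)) ≠ 0 := by
    rw [hkc]
    rcases neg_one_pow_eq_or (ZMod (n + 1)) s with h | h <;> rw [h] <;> simp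
  have hkk : ((k : ℕ) : ZMod (n + 1)) + k ≠ 0 := by
    rw [hkc]
    rcases neg_one_pow_eq_or (ZMod (n + 1)) s with h | h <;> rw [h]
    · intro h'; apply h2; push_cast; linear_combination h'
    · intro h'; apply h2; push_cast; linear_combination -h'
  have t1 : (tau n)⁻¹ (some (k : ZMod (n + 1))) = some (k : ZMod (n + 1)) := by
    unfold tau
    rw [Equiv.swap_inv]
    apply Equiv.swap_apply_of_ne_of_ne
    · simp
    · simpa using hk0
  have t2 : (tau n) (some ((k : ZMod (n + 1)) + k)) = some ((k : ZMod (n + 1)) + k) := by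
    unfold tau
    apply Equiv.swap_apply_of_ne_of_ne
    · simp
    · simpa using hkk
  have t3 : (tau n)⁻¹ (some 0) = none := by
    unfold tau
    rw [Equiv.swap_inv]
    simp
  have t4 : (tau n) none = some 0 := by
    unfold tau
    simp
  rw [g1_pow]
  simp only [Perm.mul_apply]
  rw [g0_pow, zero_add, t1, g0_pow, t2, t3, g0_pow_none, t4, g0_pow, zero_add]
  intro h
  rw [Option.some_inj] at h
  exact hk0 (by linear_combination h)

/-- the fibre permutations -/
def G (n j : ℕ) : Perm (Om n) :=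
  (if j % n = 0 then g0 n else if j % n = 1 then g1 n else 1) ^ (n ^ (j / n))

theorem G_add (n j : ℕ) (hn : 2 ≤ n) : G n (j + n) = G n j ^ n := by
  unfold G
  rw [Nat.add_mod_right, Nat.add_div_right _ (by omega), ← pow_mul, pow_succ]

theorem G_noncomm (n j : ℕ) (hn : 2 ≤ n) (hj : j % n = 0) :
    G n (j + 1) (G n j (some 0)) ≠ G n j (G n (j + 1) (some 0)) := by
  have h1 : (j + 1) % n = 1 := by
    rw [Nat.add_mod, hj, zero_add, Nat.mod_mod, Nat.mod_eq_of_lt (by omega)]
  have h2 : (j + 1) / n = j / n := by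
    rw [Nat.succ_div]
    have : ¬ (n ∣ j + 1) := by
      intro h
      have := Nat.mod_eq_zero_of_dvd h
      omega
    simp [this]
  have e1 : G n (j + 1) = g1 n ^ (n ^ (j / n)) := by
    unfold G
    rw [h1, h2]
    simp
  have e2 : G n j = g0 n ^ (n ^ (j / n)) := by
    unfold G
    rw [hj]
    simp
  rw [e1, e2]
  exact noncomm n (j / n) hn

section Model
variable (n m : ℕ)

abbrev XX : Type := ZMod (n * m + 1) × Om n

def aa : Perm (XX n m) := (Equiv.addRight ((n : ℕ) : ZMod (n * m + 1))).prodCongr (Equiv.refl _)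

theorem unit_rel : ((n : ℕ) : ZMod (n * m + 1)) * (-(m : ZMod (n * m + 1))) = 1 := by
  have : ((n * m + 1 : ℕ) : ZMod (n * m + 1)) = 0 := ZMod.natCast_self _
  push_cast at this
  linear_combination -this

def bb0 : Perm (ZMod (n * m + 1)) where
  toFun q := -(m : ZMod (n * m + 1)) * q
  invFun q := (n : ZMod (n * m + 1)) * q
  left_inv q := by
    have := unit_rel n m
    linear_combination q * this
  right_inv q := by
    have := unit_rel n m
    linear_combination q * this

def bb : Perm (XX n m) := (bb0 n m).prodCongr (Equiv.refl _)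

def cc : Perm (XX n m) := Equiv.prodShear (Equiv.refl _) (fun q => G n q.val)

theorem aa_apply (q : ZMod (n * m + 1)) (w : Om n) : aa n m (q, w) = (q + n, w) := rfl
theorem aa_inv_apply (q : ZMod (n * m + 1)) (w : Om n) : (aa n m)⁻¹ (q, w) = (q - n, w) := by
  rw [Perm.inv_eq_iff_eq, aa_apply]
  simp
theorem bb_apply (q : ZMod (n * m + 1)) (w : Om n) :
    bb n m (q, w) = (-(m : ZMod (n * m + 1)) * q, w) := rfl
theorem bb_inv_apply (q : ZMod (n * m + 1)) (w : Om n) :
    (bb n m)⁻¹ (q, w) = ((n : ZMod (n * m + 1)) * q, w) := rfl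
theorem cc_apply (q : ZMod (n * m + 1)) (w : Om n) : cc n m (q, w) = (q, G n q.val w) := rfl

theorem aa_pow_apply (k : ℕ) (q : ZMod (n * m + 1)) (w : Om n) :
    (aa n m ^ k) (q, w) = (q + k * n, w) := by
  induction k generalizing q with
  | zero => simp
  | succ k ih =>
    rw [pow_succ, Perm.mul_apply, aa_apply, ih]
    push_cast
    congr 1
    ring

theorem cc_pow_apply (k : ℕ) (q : ZMod (n * m + 1)) (w : Om n) :
    (cc n m ^ k) (q, w) = (q, (G n q.val ^ k) w) := by
  induction k generalizing w with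
  | zero => simp
  | succ k ih =>
    rw [pow_succ, Perm.mul_apply, cc_apply, ih, pow_succ, Perm.mul_apply]

theorem rel1 : (bb n m)⁻¹ * aa n m * bb n m = aa n m ^ n := by
  ext1 ⟨q, w⟩
  rw [Perm.mul_apply, Perm.mul_apply, bb_apply, aa_apply, bb_inv_apply, aa_pow_apply]
  congr 1
  have := unit_rel n m
  linear_combination q * this

theorem yy_apply (q : ZMod (n * m + 1)) (w : Om n) :
    (bb n m * aa n m * (bb n m)⁻¹) (q, w) = (q + 1, w) := by
  rw [Perm.mul_apply, Perm.mul_apply, bb_inv_apply, aa_apply, bb_apply]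
  congr 1
  have := unit_rel n m
  linear_combination (q + 1) * this

theorem yy_inv_apply (q : ZMod (n * m + 1)) (w : Om n) :
    (bb n m * aa n m * (bb n m)⁻¹)⁻¹ (q, w) = (q - 1, w) := by
  rw [Perm.inv_eq_iff_eq, yy_apply]
  simp

theorem W1_apply (q : ZMod (n * m + 1)) (w : Om n) :
    W1 (aa n m) (bb n m) (cc n m) (q, w) = (q, G n (q + 1).val (G n q.val w)) := by
  unfold W1
  rw [Perm.mul_apply, Perm.mul_apply, Perm.mul_apply, cc_apply, yy_apply, cc_apply, yy_inv_apply]
  simp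

theorem W2_apply (q : ZMod (n * m + 1)) (w : Om n) :
    W2 (aa n m) (bb n m) (cc n m) (q, w) = (q, G n q.val (G n (q + 1).val w)) := by
  unfold W2
  rw [Perm.mul_apply, Perm.mul_apply, Perm.mul_apply, yy_apply, cc_apply, yy_inv_apply, cc_apply]
  simp

theorem rel2_apply (q : ZMod (n * m + 1)) (w : Om n) :
    ((aa n m)⁻¹ * cc n m * aa n m) (q, w) = (q, G n (q + n).val w) := by
  rw [Perm.mul_apply, Perm.mul_apply, aa_apply, cc_apply, aa_inv_apply]
  simp

instance : NeZero (n * m + 1) := ⟨by omega⟩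

theorem val_add_nat (q : ZMod (n * m + 1)) (k : ℕ) (h : q.val + k < n * m + 1) :
    (q + (k : ZMod (n * m + 1))).val = q.val + k := by
  have hk : ((k : ℕ) : ZMod (n * m + 1)).val = k := ZMod.val_natCast_of_lt (by omega)
  rw [ZMod.val_add, hk, Nat.mod_eq_of_lt h]

theorem defect2 (hn : 2 ≤ n) :
    D ((aa n m)⁻¹ * cc n m * aa n m) (cc n m ^ n) ≤ n * (n + 2) := by
  unfold D
  have hsub : (Finset.univ.filter (fun i : XX n m =>
      ((aa n m)⁻¹ * cc n m * aa n m) i ≠ (cc n m ^ n) i)) ⊆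
      (Finset.univ.filter (fun q : ZMod (n * m + 1) => n * m + 1 ≤ q.val + n)) ×ˢ
        (Finset.univ : Finset (Om n)) := by
    rintro ⟨q, w⟩ hi
    simp only [Finset.mem_filter, Finset.mem_univ, true_and, Finset.mem_product, and_true] at hi ⊢
    by_contra hlt
    push Not at hlt
    apply hi
    rw [rel2_apply, cc_pow_apply, val_add_nat n m q n hlt, G_add n _ hn]
  refine le_trans (Finset.card_le_card hsub) ?_
  rw [Finset.card_product]
  have h1 : (Finset.univ : Finset (Om n)).card = n + 2 := by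
    rw [Finset.card_univ]
    simp [ZMod.card]
  rw [h1]
  apply Nat.mul_le_mul_right
  have : (Finset.univ.filter (fun q : ZMod (n * m + 1) => n * m + 1 ≤ q.val + n)) ⊆
      (Finset.range n).image (fun i => ((n * m - i : ℕ) : ZMod (n * m + 1))) := by
    intro q hq
    simp only [Finset.mem_filter, Finset.mem_univ, true_and, Finset.mem_image,
      Finset.mem_range] at hq ⊢
    have hv := ZMod.val_lt q
    refine ⟨n * m - q.val, by omega, ?_⟩
    have : n * m - (n * m - q.val) = q.val := by omega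
    rw [this]
    simp
  refine le_trans (Finset.card_le_card this) (le_trans Finset.card_image_le ?_)
  simp

theorem lowerW (hn : 2 ≤ n) :
    m ≤ D (W1 (aa n m) (bb n m) (cc n m)) (W2 (aa n m) (bb n m) (cc n m)) := by
  unfold D
  have hinj : ∀ i ∈ Finset.range m, ∀ j ∈ Finset.range m,
      (((n * i : ℕ) : ZMod (n * m + 1)), (some 0 : Om n)) =
      (((n * j : ℕ) : ZMod (n * m + 1)), (some 0 : Om n)) → i = j := by
    intro i hi j hj h
    rw [Finset.mem_range] at hi hj
    have h1 := congrArg (fun x : XX n m => x.1.val) h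
    simp only at h1
    have hi' : n * i < n * m + 1 := by nlinarith
    have hj' : n * j < n * m + 1 := by nlinarith
    rw [ZMod.val_natCast_of_lt hi', ZMod.val_natCast_of_lt hj'] at h1
    exact Nat.eq_of_mul_eq_mul_left (by omega) h1
  have hsub : (Finset.range m).image
      (fun i => (((n * i : ℕ) : ZMod (n * m + 1)), (some 0 : Om n))) ⊆
      (Finset.univ.filter (fun i : XX n m =>
        W1 (aa n m) (bb n m) (cc n m) i ≠ W2 (aa n m) (bb n m) (cc n m) i)) := by
    intro x hx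
    simp only [Finset.mem_image, Finset.mem_range, Finset.mem_filter, Finset.mem_univ,
      true_and] at hx ⊢
    obtain ⟨i, hi, rfl⟩ := hx
    have hlt : n * i + 1 < n * m + 1 := by nlinarith
    have hv : (((n * i : ℕ) : ZMod (n * m + 1))).val = n * i :=
      ZMod.val_natCast_of_lt (by omega)
    have hv1 : (((n * i : ℕ) : ZMod (n * m + 1)) + 1).val = n * i + 1 := by
      have := val_add_nat n m ((n * i : ℕ) : ZMod (n * m + 1)) 1 (by rw [hv]; exact hlt)
      rw [hv] at this
      simpa using this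
    rw [W1_apply, W2_apply, hv, hv1]
    intro h
    exact G_noncomm n (n * i) hn (Nat.mul_mod_right n i) (congrArg Prod.snd h)
  calc m = (Finset.range m).card := by simp
    _ = ((Finset.range m).image
      (fun i => (((n * i : ℕ) : ZMod (n * m + 1)), (some 0 : Om n)))).card := by
        rw [Finset.card_image_of_injOn]
        intro i hi j hj h
        exact hinj i hi j hj h
    _ ≤ _ := Finset.card_le_card hsub

end Model

theorem transport_mul {X Y : Type} (e : X ≃ Y) (σ τ : Perm X) :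
    e.permCongr (σ * τ) = e.permCongr σ * e.permCongr τ := by
  ext y
  simp

theorem transport_inv {X Y : Type} (e : X ≃ Y) (σ : Perm X) :
    e.permCongr σ⁻¹ = (e.permCongr σ)⁻¹ := by
  apply eq_inv_of_mul_eq_one_left
  rw [← transport_mul]
  ext y
  simp

theorem transport_pow {X Y : Type} (e : X ≃ Y) (σ : Perm X) (k : ℕ) :
    e.permCongr (σ ^ k) = (e.permCongr σ) ^ k := by
  induction k with
  | zero => ext y; simp
  | succ k ih => rw [pow_succ, pow_succ, transport_mul, ih]

/-- **Main theorem**: for every `n ≥ 2` the group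
`⟨a, b, c ∣ b⁻¹ a b = aⁿ, a⁻¹ c a = cⁿ⟩` is not stable in permutations. -/
theorem not_stable (n : ℕ) (hn : 2 ≤ n) :
    ¬ (∀ ε : ℝ, 0 < ε → ∃ δ : ℝ, 0 < δ ∧
      ∀ N : ℕ, ∀ a b c : Equiv.Perm (Fin N),
        ((Finset.univ.filter (fun i => (b⁻¹ * a * b) i ≠ (a ^ n) i)).card : ℝ) / N < δ →
        ((Finset.univ.filter (fun i => (a⁻¹ * c * a) i ≠ (c ^ n) i)).card : ℝ) / N < δ →
        ∃ a' b' c' : Equiv.Perm (Fin N),
          b'⁻¹ * a' * b' = a' ^ n ∧ a'⁻¹ * c' * a' = c' ^ n ∧
          ((Finset.univ.filter (fun i => a i ≠ a' i)).card : ℝ) / N < ε ∧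
          ((Finset.univ.filter (fun i => b i ≠ b' i)).card : ℝ) / N < ε ∧
          ((Finset.univ.filter (fun i => c i ≠ c' i)).card : ℝ) / N < ε) := by
  intro H
  have hn0 : (0 : ℝ) < n := by exact_mod_cast (by omega : 0 < n)
  obtain ⟨δ, hδ, H⟩ := H (1 / (64 * n * (n + 2))) (by positivity)
  obtain ⟨m0, hm0⟩ := exists_nat_gt (1 / δ)
  set m := m0 + 1 with hm
  have hmpos : 0 < m := by omega
  have hmR : (1 : ℝ) / δ < m := by
    rw [hm]; push_cast; linarith
  set N := Fintype.card (XX n m) with hN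
  have hNval : N = (n * m + 1) * (n + 2) := by
    rw [hN, Fintype.card_prod, ZMod.card]
    simp [ZMod.card]
  have hNpos : (0 : ℝ) < N := by
    rw [hNval]; positivity
  let e : XX n m ≃ Fin N := Fintype.equivFin _
  set a := e.permCongr (aa n m) with ha
  set b := e.permCongr (bb n m) with hb
  set c := e.permCongr (cc n m) with hc
  have hd1 : ((Finset.univ.filter (fun i => (b⁻¹ * a * b) i ≠ (a ^ n) i)).card : ℝ) / N < δ := by
    have : b⁻¹ * a * b = a ^ n := by
      rw [ha, hb, ← transport_inv, ← transport_mul, ← transport_mul, ← transport_pow, rel1]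
    rw [this]
    simpa using hδ
  have hd2 : ((Finset.univ.filter (fun i => (a⁻¹ * c * a) i ≠ (c ^ n) i)).card : ℝ) / N < δ := by
    have h1 : D (a⁻¹ * c * a) (c ^ n) ≤ n * (n + 2) := by
      rw [ha, hc, ← transport_inv, ← transport_mul, ← transport_mul, ← transport_pow, D_transport]
      exact defect2 n m hn
    have h2 : ((D (a⁻¹ * c * a) (c ^ n) : ℕ) : ℝ) ≤ n * (n + 2) := by exact_mod_cast h1
    have h3 : ((Finset.univ.filter (fun i => (a⁻¹ * c * a) i ≠ (c ^ n) i)).card : ℝ) / N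
        ≤ (n * (n + 2)) / N := by
      apply div_le_div_of_nonneg_right h2 hNpos.le
    refine lt_of_le_of_lt h3 ?_
    rw [hNval]
    push_cast
    have h4 : (n : ℝ) * (n + 2) / ((n * m + 1) * (n + 2)) = n / (n * m + 1) := by
      field_simp
    rw [h4]
    rw [div_lt_iff₀ (by positivity)]
    have h5 : 1 < δ * m := by
      rw [div_lt_iff₀ hδ] at hmR
      linarith
    nlinarith
  obtain ⟨a', b', c', r1, r2, ea, eb, ec⟩ := H N a b c hd1 hd2
  have hW : W1 a' b' c' = W2 a' b' c' := exact_commute n a' b' c' r1 r2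
  have hlow : m ≤ D (W1 a b c) (W2 a b c) := by
    have e1 : W1 a b c = e.permCongr (W1 (aa n m) (bb n m) (cc n m)) := by
      unfold W1
      rw [ha, hb, hc]
      simp only [← transport_inv, ← transport_mul]
    have e2 : W2 a b c = e.permCongr (W2 (aa n m) (bb n m) (cc n m)) := by
      unfold W2
      rw [ha, hb, hc]
      simp only [← transport_inv, ← transport_mul]
    rw [e1, e2, D_transport]
    exact lowerW n m hn
  have hup : D (W1 a b c) (W2 a b c) ≤ 4 * D a a' + 8 * D b b' + 4 * D c c' := by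
    have h1 := D_triangle (W1 a b c) (W1 a' b' c') (W2 a b c)
    have h2 := D_W1 a b c a' b' c'
    have h3 := D_W2 a b c a' b' c'
    have h4 := D_symm (W2 a b c) (W2 a' b' c')
    rw [hW] at h1 h2
    omega
  have fa : ((D a a' : ℕ) : ℝ) < 1 / (64 * n * (n + 2)) * N := by
    rw [div_lt_iff₀ hNpos] at ea
    exact ea
  have fb : ((D b b' : ℕ) : ℝ) < 1 / (64 * n * (n + 2)) * N := by
    rw [div_lt_iff₀ hNpos] at eb
    exact eb
  have fc : ((D c c' : ℕ) : ℝ) < 1 / (64 * n * (n + 2)) * N := by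
    rw [div_lt_iff₀ hNpos] at ec
    exact ec
  have hfin : (m : ℝ) ≤ 4 * D a a' + 8 * D b b' + 4 * D c c' := by
    exact_mod_cast le_trans hlow hup
  have hNR : (N : ℝ) = (n * m + 1) * (n + 2) := by
    rw [hNval]; push_cast; ring
  have hkey : 16 * (1 / (64 * n * (n + 2)) * (N : ℝ)) = (n * m + 1) / (4 * n) := by
    rw [hNR]
    field_simp
    ring
  have hm1 : (1 : ℝ) ≤ m := by exact_mod_cast hmpos
  have hn2 : (2 : ℝ) ≤ n := by exact_mod_cast hn
  have hlast : ((n : ℝ) * m + 1) / (4 * n) < m := by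
    rw [div_lt_iff₀ (by positivity)]
    nlinarith
  linarith

end Pool.Agent.H97R3.Stab
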